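import Mathlib

/-!
A potential in the manner of Erdős and Selfridge with point weights: a point of the first player
has the weight `1`, a free point has the weight `1/2 + t`, a dead point has the weight `t`.
The indexed family has sets `W i`, whose weights are multiplied, and sets `Y i`: the index `i`
does not count any more as soon as `Y i` meets the set `E`.
-/

set_option autoImplicit false

namespace WWX

open Finset

variable {V ι : Type*} [DecidableEq V]

/-- The weight of a point. -/
noncomputable def aw (t : ℝ) (X D : Finset V) (p : V) : ℝ :=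
  if p ∈ D then t else if p ∈ X then 1 else 1 / 2 + t

/-- The weight of a set. -/
noncomputable def om (t : ℝ) (X D S : Finset V) : ℝ := ∏ p ∈ S, aw t X D p

section Weights

variable {t : ℝ} {X D D' S S' : Finset V}

lemma aw_ge (h0 : 0 < t) (h1 : t < 1 / 2) (p : V) : t ≤ aw t X D p := by
  unfold aw
  split_ifs <;> linarith

lemma aw_pos (h0 : 0 < t) (h1 : t < 1 / 2) (p : V) : 0 < aw t X D p :=
  h0.trans_le (aw_ge h0 h1 p)

lemma aw_le_one (h0 : 0 < t) (h1 : t < 1 / 2) (p : V) : aw t X D p ≤ 1 := by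
  unfold aw
  split_ifs <;> linarith

lemma aw_mono (h0 : 0 < t) (h1 : t < 1 / 2) (h : D ⊆ D') (p : V) :
    aw t X D' p ≤ aw t X D p := by
  by_cases hp : p ∈ D'
  · have : aw t X D' p = t := by simp [aw, hp]
    rw [this]
    exact aw_ge h0 h1 p
  · have hp' : p ∉ D := fun h2 => hp (h h2)
    simp [aw, hp, hp']

lemma om_pos (h0 : 0 < t) (h1 : t < 1 / 2) : 0 < om t X D S :=
  Finset.prod_pos fun p _ => aw_pos h0 h1 p

lemma om_le_one (h0 : 0 < t) (h1 : t < 1 / 2) : om t X D S ≤ 1 :=
  Finset.prod_le_one (fun p _ => (aw_pos h0 h1 p).le) fun p _ => aw_le_one h0 h1 p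

lemma om_mono (h0 : 0 < t) (h1 : t < 1 / 2) (h : D ⊆ D') : om t X D' S ≤ om t X D S :=
  Finset.prod_le_prod (fun p _ => (aw_pos h0 h1 p).le) fun p _ => aw_mono h0 h1 h p

/-- A larger set has a smaller weight. -/
lemma om_anti (h0 : 0 < t) (h1 : t < 1 / 2) (h : S ⊆ S') : om t X D S' ≤ om t X D S := by
  unfold om
  rw [← Finset.prod_sdiff h]
  calc (∏ p ∈ S' \ S, aw t X D p) * ∏ p ∈ S, aw t X D p
      ≤ 1 * ∏ p ∈ S, aw t X D p := by
        apply mul_le_mul_of_nonneg_right (om_le_one h0 h1)
        exact (om_pos h0 h1).le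
    _ = _ := one_mul _

lemma om_ge_pow (h0 : 0 < t) (h1 : t < 1 / 2) {k : ℕ} (h : (S \ (X \ D)).card ≤ k) :
    t ^ k ≤ om t X D S := by
  have h2 : om t X D S = ∏ p ∈ S \ (X \ D), aw t X D p := by
    unfold om
    rw [← Finset.prod_subset (Finset.sdiff_subset (s := S) (t := X \ D))]
    intro p hp hp'
    rw [Finset.mem_sdiff, not_and, not_not] at hp'
    have h3 := hp' hp
    rw [Finset.mem_sdiff] at h3
    simp [aw, h3.1, h3.2]
  rw [h2]
  calc t ^ k ≤ t ^ (S \ (X \ D)).card := pow_le_pow_of_le_one h0.le (by linarith) h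
    _ = ∏ _p ∈ S \ (X \ D), t := by rw [Finset.prod_const]
    _ ≤ _ := Finset.prod_le_prod (fun _ _ => h0.le) fun p _ => aw_ge h0 h1 p

lemma om_le_pow (h0 : 0 < t) (h1 : t < 1 / 2) {k : ℕ} (h : k ≤ (S \ (X \ D)).card) :
    om t X D S ≤ (1 / 2 + t) ^ k := by
  have h2 : om t X D S ≤ om t X D (S \ (X \ D)) := om_anti h0 h1 Finset.sdiff_subset
  refine h2.trans ?_
  calc om t X D (S \ (X \ D)) ≤ ∏ _p ∈ S \ (X \ D), (1 / 2 + t) := by
        apply Finset.prod_le_prod (fun p _ => (aw_pos h0 h1 p).le)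
        intro p hp
        rw [Finset.mem_sdiff, Finset.mem_sdiff] at hp
        unfold aw
        by_cases hD : p ∈ D
        · rw [if_pos hD]
          linarith
        · rw [if_neg hD, if_neg (fun hX => hp.2 ⟨hX, hD⟩)]
    _ = (1 / 2 + t) ^ (S \ (X \ D)).card := by rw [Finset.prod_const]
    _ ≤ _ := pow_le_pow_of_le_one (by linarith) (by linarith) h

lemma om_insert_X {v : V} (h0 : 0 < t) (hX : v ∉ X) (hD : v ∉ D) (hv : v ∈ S) :
    om t (insert v X) D S * (1 / 2 + t) = om t X D S := by
  unfold om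
  rw [← Finset.mul_prod_erase S _ hv, ← Finset.mul_prod_erase S _ hv]
  have h2 : aw t (insert v X) D v = 1 := by simp [aw, hD]
  have h3 : aw t X D v = 1 / 2 + t := by simp [aw, hX, hD]
  rw [h2, h3, one_mul, mul_comm]
  congr 1
  apply Finset.prod_congr rfl
  intro p hp
  have hne := Finset.ne_of_mem_erase hp
  simp [aw, hne]

lemma om_insert_X' {v : V} (hv : v ∉ S) :
    om t (insert v X) D S = om t X D S := by
  unfold om
  apply Finset.prod_congr rfl
  intro p hp
  have hne : p ≠ v := by
    rintro rfl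
    exact hv hp
  simp [aw, hne]

lemma om_insert_D {v : V} (hX : v ∉ X) (hD : v ∉ D) (hv : v ∈ S) :
    om t X (insert v D) S * (1 / 2 + t) = om t X D S * t := by
  unfold om
  rw [← Finset.mul_prod_erase S _ hv, ← Finset.mul_prod_erase S _ hv]
  have h2 : aw t X (insert v D) v = t := by simp [aw]
  have h3 : aw t X D v = 1 / 2 + t := by simp [aw, hX, hD]
  rw [h2, h3]
  have h4 : ∏ p ∈ S.erase v, aw t X (insert v D) p = ∏ p ∈ S.erase v, aw t X D p := by
    apply Finset.prod_congr rfl
    intro p hp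
    have hne := Finset.ne_of_mem_erase hp
    simp [aw, hne]
  rw [h4]
  ring

lemma om_insert_D' {v : V} (hv : v ∉ S) :
    om t X (insert v D) S = om t X D S := by
  unfold om
  apply Finset.prod_congr rfl
  intro p hp
  have hne : p ≠ v := by
    rintro rfl
    exact hv hp
  simp [aw, hne]

lemma om_insert_dead {v : V} (hv : v ∈ D) : om t (insert v X) D S = om t X D S := by
  unfold om
  apply Finset.prod_congr rfl
  intro p _
  unfold aw
  by_cases hp : p ∈ D
  · rw [if_pos hp, if_pos hp]
  · rw [if_neg hp, if_neg hp]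
    have hne : p ≠ v := by
      rintro rfl
      exact hp hv
    simp [hne]

end Weights

/-- The potential. -/
noncomputable def Pot (t : ℝ) (I : Finset ι) (W Y : ι → Finset V) (c : ι → ℝ)
    (X D E : Finset V) : ℝ :=
  ∑ i ∈ I.filter (fun i => Disjoint (Y i) E), c i * om t X D (W i)

/-- The part of the weight which is lost if `v` becomes dead. -/
noncomputable def kap (t : ℝ) (W Y : ι → Finset V) (v : V) (i : ι) : ℝ :=
  if v ∈ Y i then 1 else if v ∈ W i then (1 / 2) / (1 / 2 + t) else 0

/-- The loss of the potential if `v` becomes dead. -/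
noncomputable def kill (t : ℝ) (I : Finset ι) (W Y : ι → Finset V) (c : ι → ℝ)
    (X D E : Finset V) (v : V) : ℝ :=
  ∑ i ∈ I.filter (fun i => Disjoint (Y i) E), c i * om t X D (W i) * kap t W Y v i

section Potential

variable {t : ℝ} {I : Finset ι} {W Y : ι → Finset V} {c : ι → ℝ} {X D D' E E' : Finset V}

lemma kap_nonneg (h0 : 0 < t) (v : V) (i : ι) : 0 ≤ kap t W Y v i := by
  unfold kap
  split_ifs <;> positivity

lemma kap_le_one (h0 : 0 < t) (v : V) (i : ι) : kap t W Y v i ≤ 1 := by
  unfold kap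
  split_ifs
  · exact le_rfl
  · rw [div_le_one (by positivity)]
    linarith
  · exact zero_le_one

lemma Pot_nonneg (h0 : 0 < t) (h1 : t < 1 / 2) (hc : ∀ i ∈ I, 0 ≤ c i) :
    0 ≤ Pot t I W Y c X D E := by
  apply Finset.sum_nonneg
  intro i hi
  exact mul_nonneg (hc i (Finset.mem_filter.1 hi).1) (om_pos h0 h1).le

lemma kill_nonneg (h0 : 0 < t) (h1 : t < 1 / 2) (hc : ∀ i ∈ I, 0 ≤ c i) (v : V) :
    0 ≤ kill t I W Y c X D E v := by
  apply Finset.sum_nonneg
  intro i hi
  exact mul_nonneg (mul_nonneg (hc i (Finset.mem_filter.1 hi).1) (om_pos h0 h1).le)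
    (kap_nonneg h0 v i)

lemma kill_le_Pot (h0 : 0 < t) (h1 : t < 1 / 2) (hc : ∀ i ∈ I, 0 ≤ c i) (v : V) :
    kill t I W Y c X D E v ≤ Pot t I W Y c X D E := by
  apply Finset.sum_le_sum
  intro i hi
  have h2 := mul_nonneg (hc i (Finset.mem_filter.1 hi).1) (om_pos (X := X) (D := D) (S := W i) h0 h1).le
  calc c i * om t X D (W i) * kap t W Y v i ≤ c i * om t X D (W i) * 1 :=
        mul_le_mul_of_nonneg_left (kap_le_one h0 v i) h2
    _ = _ := mul_one _

lemma Pot_mono (h0 : 0 < t) (h1 : t < 1 / 2) (hc : ∀ i ∈ I, 0 ≤ c i) (hD : D ⊆ D')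
    (hE : E ⊆ E') : Pot t I W Y c X D' E' ≤ Pot t I W Y c X D E := by
  unfold Pot
  calc ∑ i ∈ I.filter (fun i => Disjoint (Y i) E'), c i * om t X D' (W i)
      ≤ ∑ i ∈ I.filter (fun i => Disjoint (Y i) E'), c i * om t X D (W i) := by
        apply Finset.sum_le_sum
        intro i hi
        exact mul_le_mul_of_nonneg_left (om_mono h0 h1 hD) (hc i (Finset.mem_filter.1 hi).1)
    _ ≤ _ := by
        apply Finset.sum_le_sum_of_subset_of_nonneg
        · intro i hi
          rw [Finset.mem_filter] at hi ⊢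
          exact ⟨hi.1, Disjoint.mono_right hE hi.2⟩
        · intro i hi _
          exact mul_nonneg (hc i (Finset.mem_filter.1 hi).1) (om_pos h0 h1).le

lemma kill_mono (h0 : 0 < t) (h1 : t < 1 / 2) (hc : ∀ i ∈ I, 0 ≤ c i) (hD : D ⊆ D')
    (hE : E ⊆ E') (v : V) : kill t I W Y c X D' E' v ≤ kill t I W Y c X D E v := by
  unfold kill
  calc ∑ i ∈ I.filter (fun i => Disjoint (Y i) E'), c i * om t X D' (W i) * kap t W Y v i
      ≤ ∑ i ∈ I.filter (fun i => Disjoint (Y i) E'), c i * om t X D (W i) * kap t W Y v i := by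
        apply Finset.sum_le_sum
        intro i hi
        exact mul_le_mul_of_nonneg_right
          (mul_le_mul_of_nonneg_left (om_mono h0 h1 hD) (hc i (Finset.mem_filter.1 hi).1))
          (kap_nonneg h0 v i)
    _ ≤ _ := by
        apply Finset.sum_le_sum_of_subset_of_nonneg
        · intro i hi
          rw [Finset.mem_filter] at hi ⊢
          exact ⟨hi.1, Disjoint.mono_right hE hi.2⟩
        · intro i hi _
          exact mul_nonneg (mul_nonneg (hc i (Finset.mem_filter.1 hi).1) (om_pos h0 h1).le)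
            (kap_nonneg h0 v i)

lemma filter_insert_E (v : V) : I.filter (fun i => Disjoint (Y i) (insert v E)) =
    (I.filter (fun i => Disjoint (Y i) E)).filter (fun i => v ∉ Y i) := by
  rw [Finset.filter_filter]
  apply Finset.filter_congr
  intro i _
  rw [Finset.disjoint_insert_right]
  tauto

/-- The first player takes `v`. -/
lemma Pot_insert_X (h0 : 0 < t) (h1 : t < 1 / 2) (hc : ∀ i ∈ I, 0 ≤ c i) {v : V} (hX : v ∉ X)
    (hD : v ∉ D) : Pot t I W Y c (insert v X) D (insert v E) ≤
      Pot t I W Y c X D E + (1 - 2 * t) * kill t I W Y c X D E v := by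
  unfold Pot kill
  rw [filter_insert_E, Finset.sum_filter, Finset.mul_sum, ← Finset.sum_add_distrib]
  apply Finset.sum_le_sum
  intro i hi
  have hci := hc i (Finset.mem_filter.1 hi).1
  have hom := (om_pos (X := X) (D := D) (S := W i) h0 h1).le
  have ht2 : 0 ≤ 1 - 2 * t := by linarith
  have hprod := mul_nonneg hci hom
  by_cases hY : v ∈ Y i
  · rw [if_neg (by simpa using hY)]
    have := kap_nonneg (W := W) (Y := Y) h0 v i
    positivity
  · rw [if_pos hY]
    by_cases hW : v ∈ W i
    · have h2 := om_insert_X h0 hX hD hW (t := t)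
      have h3 : kap t W Y v i = (1 / 2) / (1 / 2 + t) := by simp [kap, hY, hW]
      have hpos : 0 < 1 / 2 + t := by linarith
      have h4 : om t (insert v X) D (W i) = om t X D (W i) / (1 / 2 + t) := by
        rw [eq_div_iff hpos.ne', h2]
      rw [h3, h4]
      apply le_of_eq
      field_simp
      ring
    · rw [om_insert_X' hW]
      have h3 : kap t W Y v i = 0 := by simp [kap, hY, hW]
      rw [h3]
      simp

/-- The point `v` becomes dead. -/
lemma Pot_insert_D (h0 : 0 < t) {v : V} (hX : v ∉ X) (hD : v ∉ D) :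
    Pot t I W Y c X (insert v D) (insert v E) =
      Pot t I W Y c X D E - kill t I W Y c X D E v := by
  unfold Pot kill
  rw [filter_insert_E, Finset.sum_filter, ← Finset.sum_sub_distrib]
  apply Finset.sum_congr rfl
  intro i _
  by_cases hY : v ∈ Y i
  · rw [if_neg (by simpa using hY)]
    have h3 : kap t W Y v i = 1 := by simp [kap, hY]
    rw [h3]
    ring
  · rw [if_pos hY]
    by_cases hW : v ∈ W i
    · have h2 := om_insert_D hX hD hW (t := t)
      have h3 : kap t W Y v i = (1 / 2) / (1 / 2 + t) := by simp [kap, hY, hW]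
      have hpos : 0 < 1 / 2 + t := by linarith
      have h4 : om t X (insert v D) (W i) = om t X D (W i) * t / (1 / 2 + t) := by
        rw [eq_div_iff hpos.ne', h2]
      rw [h3, h4]
      field_simp
      ring
    · rw [om_insert_D' hW]
      have h3 : kap t W Y v i = 0 := by simp [kap, hY, hW]
      rw [h3]
      simp

lemma Pot_insert_dead {v : V} (hv : v ∈ D) :
    Pot t I W Y c (insert v X) D E = Pot t I W Y c X D E := by
  unfold Pot
  apply Finset.sum_congr rfl
  intro i _
  rw [om_insert_dead hv]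

lemma kill_insert_dead {v : V} (hv : v ∈ D) (z : V) :
    kill t I W Y c (insert v X) D E z = kill t I W Y c X D E z := by
  unfold kill
  apply Finset.sum_congr rfl
  intro i _
  rw [om_insert_dead hv]

end Potential

end WWX
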