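import Mathlib
import Pool.Agent.WWX.Pot

/-!
The configurations: points `y k` (`k` in a finite set of slots) and in each slot nothing or a set
`G` of the family with `y k ∈ G`; a slot is cold (`y k` is a cold point of `G`) or hot (the pair
`(y k, G)` is counted).  Each of the sets has at most `q` points in the union of the others.
-/

set_option autoImplicit false

namespace WWX

open Finset

variable {V κ : Type*} [DecidableEq V] [Fintype V] [Fintype κ] [DecidableEq κ]

/-- The content of a slot. -/
abbrev Slot (V : Type*) : Type _ := Option (Bool × Finset V)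

/-- The set in a slot. -/
def gs (o : Slot V) : Finset V := o.elim ∅ fun p => p.2

/-- The factor of a slot. -/
noncomputable def gc (lam : Bool → ℝ) (o : Slot V) : ℝ := o.elim 1 fun p => lam p.1

/-- The union of the sets. -/
def gU (g : κ → Slot V) : Finset V := univ.biUnion fun k => gs (g k)

/-- The admissible contents of the slots. -/
structure Adm (F : Finset (Finset V)) (C : Finset V → Finset V) (q : ℕ)
    (N : Set (V × Finset V)) (y : κ → V) (g : κ → Slot V) : Prop where
  mem : ∀ k b G, g k = some (b, G) → G ∈ F ∧ y k ∈ G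
  cold : ∀ k G, g k = some (true, G) → y k ∈ C G
  hot : ∀ k G, g k = some (false, G) → (y k, G) ∈ N
  few : ∀ k, (gs (g k) ∩ (univ.erase k).biUnion fun k' => gs (g k')).card ≤ q

/-- The sets `W` of the configurations. -/
def confW (z : (κ → V) × (κ → Slot V)) : Finset V := gU z.2

/-- The sets `Y` of the configurations. -/
def confY (z : (κ → V) × (κ → Slot V)) : Finset V := univ.image z.1

/-- The coefficients of the configurations. -/
noncomputable def confc (lam : Bool → ℝ) (z : (κ → V) × (κ → Slot V)) : ℝ := ∏ k, gc lam (z.2 k)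

open Classical in
/-- The configurations. -/
noncomputable def confI (YY : Finset (κ → V)) (F : Finset (Finset V)) (C : Finset V → Finset V)
    (q : ℕ) (N : Set (V × Finset V)) : Finset ((κ → V) × (κ → Slot V)) :=
  (YY ×ˢ univ).filter fun z => Adm F C q N z.1 z.2

open Classical in
/-- The sum over the contents of the slots. -/
noncomputable def Sy (t : ℝ) (lam : Bool → ℝ) (F : Finset (Finset V)) (C : Finset V → Finset V)
    (q : ℕ) (N : Set (V × Finset V)) (X D : Finset V) (y : κ → V) : ℝ :=
  ∑ g ∈ univ.filter (fun g => Adm F C q N y g), (∏ k, gc lam (g k)) * om t X D (gU g)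

variable {t : ℝ} {lam : Bool → ℝ} {F : Finset (Finset V)} {C : Finset V → Finset V} {q : ℕ}
  {N N' : Set (V × Finset V)} {X D E : Finset V} {YY : Finset (κ → V)}

lemma gc_nonneg (hlam : ∀ b, 0 ≤ lam b) (o : Slot V) : 0 ≤ gc lam o := by
  rcases o with _ | p
  · exact zero_le_one
  · exact hlam p.1

lemma confc_nonneg (hlam : ∀ b, 0 ≤ lam b) (z : (κ → V) × (κ → Slot V)) : 0 ≤ confc lam z :=
  Finset.prod_nonneg fun _ _ => gc_nonneg hlam _

lemma Sy_nonneg (h0 : 0 < t) (h1 : t < 1 / 2) (hlam : ∀ b, 0 ≤ lam b) (y : κ → V) :
    0 ≤ Sy t lam F C q N X D y := by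
  classical
  apply Finset.sum_nonneg
  intro g _
  exact mul_nonneg (Finset.prod_nonneg fun _ _ => gc_nonneg hlam _) (om_pos h0 h1).le

lemma Pot_conf_eq : Pot t (confI YY F C q N) confW confY (confc lam) X D E =
    ∑ y ∈ YY.filter (fun y => Disjoint (univ.image y) E), Sy t lam F C q N X D y := by
  classical
  unfold Pot confI Sy
  rw [Finset.filter_filter, Finset.sum_filter, Finset.sum_product, Finset.sum_filter]
  apply Finset.sum_congr rfl
  intro y _
  by_cases hy : Disjoint (univ.image y) E
  · rw [if_pos hy, Finset.sum_filter]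
    apply Finset.sum_congr rfl
    intro g _
    by_cases hg : Adm F C q N y g
    · rw [if_pos ⟨hg, hy⟩, if_pos hg]
      rfl
    · rw [if_neg (fun h => hg h.1), if_neg hg]
  · rw [if_neg hy]
    apply Finset.sum_eq_zero
    intro g _
    rw [if_neg (fun h => hy h.2)]

/-- The configurations through `v` are lost if `v` is taken. -/
lemma conf_kill_ge (h0 : 0 < t) (h1 : t < 1 / 2) (hlam : ∀ b, 0 ≤ lam b) (v : V) :
    ∑ y ∈ YY.filter (fun y => Disjoint (univ.image y) E ∧ v ∈ univ.image y),
      Sy t lam F C q N X D y ≤
      kill t (confI YY F C q N) confW confY (confc lam) X D E v := by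
  classical
  unfold kill confI Sy
  rw [Finset.filter_filter, Finset.sum_filter, Finset.sum_filter, Finset.sum_product]
  apply Finset.sum_le_sum
  intro y _
  by_cases hy : Disjoint (univ.image y) E ∧ v ∈ univ.image y
  · rw [if_pos hy, Finset.sum_filter]
    apply Finset.sum_le_sum
    intro g _
    by_cases hg : Adm F C q N y g
    · rw [if_pos hg, if_pos ⟨hg, hy.1⟩]
      have h3 : kap t confW confY v (y, g) = 1 := by
        unfold kap
        rw [if_pos]
        exact hy.2
      rw [h3, mul_one]
      exact le_rfl
    · rw [if_neg hg, if_neg (fun h => hg h.1)]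
  · rw [if_neg hy]
    apply Finset.sum_nonneg
    intro g _
    split_ifs
    · exact mul_nonneg (mul_nonneg (confc_nonneg hlam _) (om_pos h0 h1).le) (kap_nonneg h0 v _)
    · exact le_rfl

/-- The first player takes `v`: the sums are at most doubled. -/
lemma Sy_insert_X (h0 : 0 < t) (h1 : t < 1 / 2) (hlam : ∀ b, 0 ≤ lam b) {v : V} (hX : v ∉ X)
    (hD : v ∉ D) (y : κ → V) :
    Sy t lam F C q N (insert v X) D y ≤ 2 * Sy t lam F C q N X D y := by
  classical
  unfold Sy
  rw [Finset.mul_sum]
  apply Finset.sum_le_sum
  intro g _
  have h2 : om t (insert v X) D (gU g) ≤ 2 * om t X D (gU g) := by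
    by_cases hv : v ∈ gU g
    · have h3 := om_insert_X h0 hX hD hv (t := t)
      have h4 : 0 < om t (insert v X) D (gU g) := om_pos h0 h1
      nlinarith
    · rw [om_insert_X' hv]
      have h4 : 0 < om t X D (gU g) := om_pos h0 h1
      linarith
  have h5 : 0 ≤ ∏ k, gc lam (g k) := Finset.prod_nonneg fun _ _ => gc_nonneg hlam _
  calc (∏ k, gc lam (g k)) * om t (insert v X) D (gU g)
      ≤ (∏ k, gc lam (g k)) * (2 * om t X D (gU g)) := mul_le_mul_of_nonneg_left h2 h5
    _ = _ := by ring

lemma gU_update_none (g : κ → Slot V) (k : κ) :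
    gU (Function.update g k none) = (univ.erase k).biUnion fun k' => gs (g k') := by
  ext z
  simp only [gU, Finset.mem_biUnion, Finset.mem_univ, true_and, Finset.mem_erase, and_true]
  constructor
  · rintro ⟨k', hk'⟩
    by_cases h : k' = k
    · subst h
      rw [Function.update_self] at hk'
      simp [gs] at hk'
    · rw [Function.update_of_ne h] at hk'
      exact ⟨k', h, hk'⟩
  · rintro ⟨k', h, hk'⟩
    refine ⟨k', ?_⟩
    rw [Function.update_of_ne h]
    exact hk'

lemma gU_eq_union (g : κ → Slot V) (k : κ) :
    gU g = gU (Function.update g k none) ∪ gs (g k) := by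
  rw [gU_update_none]
  ext z
  simp only [gU, Finset.mem_biUnion, Finset.mem_univ, true_and, Finset.mem_union,
    Finset.mem_erase, and_true]
  constructor
  · rintro ⟨k', hk'⟩
    by_cases h : k' = k
    · subst h
      exact Or.inr hk'
    · exact Or.inl ⟨k', h, hk'⟩
  · rintro (⟨k', -, hk'⟩ | hk)
    · exact ⟨k', hk'⟩
    · exact ⟨k, hk⟩

/-- Emptying a slot. -/
lemma Adm.update_none {y : κ → V} {g : κ → Slot V} (h : Adm F C q N y g) (k : κ) :
    Adm F C q N y (Function.update g k none) := by
  have hcase : ∀ k' o, Function.update g k none k' = some o → g k' = some o := by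
    intro k' o ho
    by_cases hk : k' = k
    · subst hk
      rw [Function.update_self] at ho
      exact absurd ho (by simp)
    · rwa [Function.update_of_ne hk] at ho
  have hsub : ∀ k', gs (Function.update g k none k') ⊆ gs (g k') := by
    intro k'
    by_cases hk : k' = k
    · subst hk
      rw [Function.update_self]
      exact Finset.empty_subset _
    · rw [Function.update_of_ne hk]
  refine ⟨fun k' b G hG => h.mem k' b G (hcase k' _ hG), fun k' G hG => h.cold k' G (hcase k' _ hG),
    fun k' G hG => h.hot k' G (hcase k' _ hG), fun k' => ?_⟩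
  refine le_trans (Finset.card_le_card ?_) (h.few k')
  apply Finset.inter_subset_inter (hsub k')
  intro z hz
  rw [Finset.mem_biUnion] at hz ⊢
  obtain ⟨k'', hk'', hz⟩ := hz
  exact ⟨k'', hk'', hsub k'' hz⟩

/-- The weight of a configuration in terms of the configuration with one slot emptied. -/
lemma weight_update (h0 : 0 < t) (h1 : t < 1 / 2) (hlam : ∀ b, 0 ≤ lam b) {y : κ → V}
    {g : κ → Slot V} (h : Adm F C q N y g) {k : κ} {b : Bool} {G : Finset V}
    (hk : g k = some (b, G)) :
    (∏ k, gc lam (g k)) * om t X D (gU g) ≤ (lam b * (t⁻¹) ^ q * om t X D G) *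
      ((∏ k', gc lam (Function.update g k none k')) * om t X D (gU (Function.update g k none))) := by
  classical
  have e1 : ∏ k', gc lam (g k') = lam b * ∏ k', gc lam (Function.update g k none k') := by
    rw [← Finset.mul_prod_erase univ _ (Finset.mem_univ k),
      ← Finset.mul_prod_erase univ (fun k' => gc lam (Function.update g k none k'))
        (Finset.mem_univ k)]
    rw [Function.update_self, hk]
    have : ∏ x ∈ univ.erase k, gc lam (g x) =
        ∏ x ∈ univ.erase k, gc lam (Function.update g k none x) := by
      apply Finset.prod_congr rfl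
      intro x hx
      rw [Function.update_of_ne (Finset.ne_of_mem_erase hx)]
    rw [this]
    simp [gc]
  have e2 : om t X D (gU g) = om t X D (gU (Function.update g k none)) *
      om t X D (G \ gU (Function.update g k none)) := by
    rw [gU_eq_union g k, hk]
    unfold om
    rw [← Finset.prod_union Finset.disjoint_sdiff]
    simp [gs]
  have e3 : om t X D (G \ gU (Function.update g k none)) ≤ (t⁻¹) ^ q * om t X D G := by
    have e4 : om t X D G = om t X D (G \ gU (Function.update g k none)) *
        om t X D (G ∩ gU (Function.update g k none)) := by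
      unfold om
      rw [← Finset.prod_union (Finset.disjoint_sdiff_inter _ _), Finset.sdiff_union_inter]
    have e5 : t ^ q ≤ om t X D (G ∩ gU (Function.update g k none)) := by
      apply om_ge_pow h0 h1
      refine (Finset.card_le_card Finset.sdiff_subset).trans ?_
      have := h.few k
      rw [hk] at this
      rw [gU_update_none]
      exact this
    rw [e4]
    have hpos : 0 < om t X D (G \ gU (Function.update g k none)) := om_pos h0 h1
    calc om t X D (G \ gU (Function.update g k none)) =
        (t⁻¹) ^ q * (om t X D (G \ gU (Function.update g k none)) * t ^ q) := by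
          rw [inv_pow]
          field_simp
      _ ≤ _ := by gcongr
  have hA : 0 ≤ ∏ k', gc lam (Function.update g k none k') :=
    Finset.prod_nonneg fun _ _ => gc_nonneg hlam _
  have hB : 0 ≤ om t X D (gU (Function.update g k none)) := (om_pos h0 h1).le
  have hb := hlam b
  rw [e1, e2]
  calc lam b * (∏ k', gc lam (Function.update g k none k')) *
      (om t X D (gU (Function.update g k none)) * om t X D (G \ gU (Function.update g k none)))
      ≤ lam b * (∏ k', gc lam (Function.update g k none k')) *
        (om t X D (gU (Function.update g k none)) * ((t⁻¹) ^ q * om t X D G)) := by gcongr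
    _ = _ := by ring

open Classical in
/-- The sum of the new factors at `z`. -/
noncomputable def gam (t : ℝ) (lam : Bool → ℝ) (F : Finset (Finset V)) (q : ℕ)
    (N N' : Set (V × Finset V)) (X D : Finset V) (z : V) : ℝ :=
  ∑ G ∈ F.filter (fun G => (z, G) ∈ N' ∧ (z, G) ∉ N), lam false * (t⁻¹) ^ q * om t X D G

lemma gam_nonneg (h0 : 0 < t) (h1 : t < 1 / 2) (hlam : ∀ b, 0 ≤ lam b) (z : V) :
    0 ≤ gam t lam F q N N' X D z := by
  classical
  unfold gam
  apply Finset.sum_nonneg
  intro G _
  have := hlam false
  have h2 := (om_pos (X := X) (D := D) (S := G) h0 h1).le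
  positivity

/-- The new configurations. -/
lemma Sy_new (h0 : 0 < t) (h1 : t < 1 / 2) (hlam : ∀ b, 0 ≤ lam b) (y : κ → V) :
    Sy t lam F C q N' X D y ≤ Sy t lam F C q N X D y +
      (∑ k, gam t lam F q N N' X D (y k)) * Sy t lam F C q N' X D y := by
  classical
  set f : (κ → Slot V) → ℝ := fun g => (∏ k, gc lam (g k)) * om t X D (gU g) with hf
  have hf0 : ∀ g, 0 ≤ f g := fun g =>
    mul_nonneg (Finset.prod_nonneg fun _ _ => gc_nonneg hlam _) (om_pos h0 h1).le
  set A' := univ.filter (fun g : κ → Slot V => Adm F C q N' y g) with hA'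
  set A := univ.filter (fun g : κ → Slot V => Adm F C q N y g) with hA
  have e1 : ∑ g ∈ A', f g ≤ ∑ g ∈ A, f g + ∑ g ∈ A'.filter (fun g => ¬ Adm F C q N y g), f g := by
    rw [← Finset.sum_filter_add_sum_filter_not A' (fun g => Adm F C q N y g) f]
    apply add_le_add _ le_rfl
    apply Finset.sum_le_sum_of_subset_of_nonneg
    · intro g hg
      rw [Finset.mem_filter] at hg
      rw [hA, Finset.mem_filter]
      exact ⟨Finset.mem_univ _, hg.2⟩
    · intro g _ _
      exact hf0 g
  -- a new slot
  have hnew : ∀ g ∈ A'.filter (fun g => ¬ Adm F C q N y g), ∃ z : κ × Finset V,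
      g z.1 = some (false, z.2) ∧ z.2 ∈ F ∧ (y z.1, z.2) ∈ N' ∧ (y z.1, z.2) ∉ N := by
    intro g hg
    rw [Finset.mem_filter, hA', Finset.mem_filter] at hg
    obtain ⟨⟨-, hg1⟩, hg2⟩ := hg
    by_contra hcon
    push Not at hcon
    apply hg2
    refine ⟨hg1.mem, hg1.cold, ?_, hg1.few⟩
    intro k G hk
    exact hcon (k, G) hk (hg1.mem k false G hk).1 (hg1.hot k G hk)
  have e2 : ∑ g ∈ A'.filter (fun g => ¬ Adm F C q N y g), f g ≤
      ∑ k, ∑ G ∈ F.filter (fun G => (y k, G) ∈ N' ∧ (y k, G) ∉ N), ∑ g ∈ A',
        (lam false * (t⁻¹) ^ q * om t X D G) * f g := by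
    rcases isEmpty_or_nonempty (κ × Finset V) with hE | hE
    · have h3 : A'.filter (fun g => ¬ Adm F C q N y g) = ∅ := by
        rw [Finset.eq_empty_iff_forall_notMem]
        intro g hg
        obtain ⟨z, -⟩ := hnew g hg
        exact hE.elim z
      rw [h3, Finset.sum_empty]
      apply Finset.sum_nonneg
      intro k _
      apply Finset.sum_nonneg
      intro G _
      apply Finset.sum_nonneg
      intro g _
      have := hlam false
      have h2 := (om_pos (X := X) (D := D) (S := G) h0 h1).le
      have h3 := hf0 g
      positivity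
    · choose! φ hφ1 hφ2 hφ3 hφ4 using hnew
      set T : Finset (κ × Finset V × (κ → Slot V)) := (univ ×ˢ (F ×ˢ A')).filter
        (fun w => (y w.1, w.2.1) ∈ N' ∧ (y w.1, w.2.1) ∉ N) with hT
      set ψ : (κ → Slot V) → κ × Finset V × (κ → Slot V) :=
        fun g => ((φ g).1, (φ g).2, Function.update g (φ g).1 none) with hψ
      have e3 : ∑ g ∈ A'.filter (fun g => ¬ Adm F C q N y g), f g ≤
          ∑ w ∈ T, (lam false * (t⁻¹) ^ q * om t X D w.2.1) * f w.2.2 := by
        calc ∑ g ∈ A'.filter (fun g => ¬ Adm F C q N y g), f g
            ≤ ∑ g ∈ A'.filter (fun g => ¬ Adm F C q N y g),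
              (lam false * (t⁻¹) ^ q * om t X D (ψ g).2.1) * f (ψ g).2.2 := by
              apply Finset.sum_le_sum
              intro g hg
              have hg1 : Adm F C q N' y g := by
                rw [Finset.mem_filter, hA', Finset.mem_filter] at hg
                exact hg.1.2
              exact weight_update h0 h1 hlam hg1 (hφ1 g hg)
          _ = ∑ w ∈ (A'.filter (fun g => ¬ Adm F C q N y g)).image ψ,
              (lam false * (t⁻¹) ^ q * om t X D w.2.1) * f w.2.2 := by
              rw [Finset.sum_image]
              intro g hg g' hg' he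
              simp only [hψ, Prod.mk.injEq] at he
              obtain ⟨he1, he2, he3⟩ := he
              funext k
              by_cases hk : k = (φ g).1
              · rw [hk, hφ1 g hg, he1, hφ1 g' hg', he2]
              · have h4 := congrFun he3 k
                rw [Function.update_of_ne hk, Function.update_of_ne (by rwa [← he1])] at h4
                exact h4
          _ ≤ _ := by
              apply Finset.sum_le_sum_of_subset_of_nonneg
              · intro w hw
                rw [Finset.mem_image] at hw
                obtain ⟨g, hg, rfl⟩ := hw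
                have hg1 : Adm F C q N' y g := by
                  rw [Finset.mem_filter, hA', Finset.mem_filter] at hg
                  exact hg.1.2
                rw [hT, Finset.mem_filter, Finset.mem_product, Finset.mem_product]
                refine ⟨⟨Finset.mem_univ _, hφ2 g hg, ?_⟩, hφ3 g hg, hφ4 g hg⟩
                rw [hA', Finset.mem_filter]
                exact ⟨Finset.mem_univ _, hg1.update_none _⟩
              · intro w _ _
                have := hlam false
                have h2 := (om_pos (X := X) (D := D) (S := w.2.1) h0 h1).le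
                have h3 := hf0 w.2.2
                positivity
      refine e3.trans (le_of_eq ?_)
      rw [hT, Finset.sum_filter, Finset.sum_product]
      apply Finset.sum_congr rfl
      intro k _
      rw [Finset.sum_product, Finset.sum_filter]
      apply Finset.sum_congr rfl
      intro G _
      by_cases h5 : (y k, G) ∈ N' ∧ (y k, G) ∉ N
      · simp [h5]
      · simp only [h5, if_false, Finset.sum_const_zero]
  have e4 : ∑ k, ∑ G ∈ F.filter (fun G => (y k, G) ∈ N' ∧ (y k, G) ∉ N), ∑ g ∈ A',
        (lam false * (t⁻¹) ^ q * om t X D G) * f g =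
      (∑ k, gam t lam F q N N' X D (y k)) * ∑ g ∈ A', f g := by
    rw [Finset.sum_mul]
    apply Finset.sum_congr rfl
    intro k _
    unfold gam
    rw [Finset.sum_mul]
    apply Finset.sum_congr rfl
    intro G _
    rw [Finset.mul_sum]
  calc Sy t lam F C q N' X D y = ∑ g ∈ A', f g := rfl
    _ ≤ ∑ g ∈ A, f g + ∑ g ∈ A'.filter (fun g => ¬ Adm F C q N y g), f g := e1
    _ ≤ ∑ g ∈ A, f g + (∑ k, gam t lam F q N N' X D (y k)) * ∑ g ∈ A', f g := by
        rw [← e4]
        exact add_le_add le_rfl e2
    _ = _ := rfl

end WWX
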