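import Mathlib
import Pool.Agent.WWX.Conf

/-!
The potential of the configurations at the beginning and after a move of the first player.
-/

set_option autoImplicit false

namespace WWX

open Finset

variable {V κ : Type*} [DecidableEq V] [Fintype V] [Fintype κ] [DecidableEq κ]

variable {t : ℝ} {lam : Bool → ℝ} {F : Finset (Finset V)} {C : Finset V → Finset V} {q : ℕ}
  {N N' : Set (V × Finset V)} {X D E : Finset V} {YY : Finset (κ → V)}

/-- A move of the first player; new configurations appear. -/
lemma conf_step (h0 : 0 < t) (h1 : t < 1 / 2) (hlam : ∀ b, 0 ≤ lam b) {v : V} (hX : v ∉ X)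
    (hD : v ∉ D) {Zf : Finset V}
    (hZ : ∀ z, z ∉ Zf → gam t lam F q N N' (insert v X) D z = 0) {K : ℝ} (hK0 : 0 ≤ K)
    (hK : ∀ z ∈ Zf, kill t (confI YY F C q N) confW confY (confc lam) X D E z ≤ K) {Γ : ℝ}
    (hΓ : ∑ z ∈ Zf, gam t lam F q N N' (insert v X) D z ≤ Γ)
    (hΓ2 : Fintype.card κ * Γ ≤ 1 / 2) :
    Pot t (confI YY F C q N') confW confY (confc lam) (insert v X) D (insert v E) ≤
      Pot t (confI YY F C q N) confW confY (confc lam) X D E +
        (1 - 2 * t) * kill t (confI YY F C q N) confW confY (confc lam) X D E v +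
        4 * Fintype.card κ * Γ * K := by
  classical
  set ga : V → ℝ := fun z => gam t lam F q N N' (insert v X) D z with hga
  have hga0 : ∀ z, 0 ≤ ga z := fun z => gam_nonneg h0 h1 hlam z
  have hΓ0 : 0 ≤ Γ := le_trans (Finset.sum_nonneg fun z _ => hga0 z) hΓ
  have hcard0 : (0 : ℝ) ≤ Fintype.card κ := Nat.cast_nonneg _
  set G' : (κ → V) → ℝ := fun y => Fintype.card κ * ∑ z ∈ Zf.filter (fun z => z ∈ univ.image y), ga z
    with hG'
  have hG'0 : ∀ y, 0 ≤ G' y := fun y => by
    have := Finset.sum_nonneg (s := Zf.filter (fun z => z ∈ univ.image y)) fun z _ => hga0 z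
    positivity
  have hG'1 : ∀ y, G' y ≤ 1 / 2 := by
    intro y
    refine le_trans ?_ hΓ2
    apply mul_le_mul_of_nonneg_left _ hcard0
    refine le_trans ?_ hΓ
    apply Finset.sum_le_sum_of_subset_of_nonneg (Finset.filter_subset _ _)
    intro z _ _
    exact hga0 z
  -- the sum of the new factors
  have hsum : ∀ y : κ → V, ∑ k, ga (y k) ≤ G' y := by
    intro y
    have e1 : ∀ k, ga (y k) ≤ ∑ z ∈ Zf.filter (fun z => z ∈ univ.image y), ga z := by
      intro k
      by_cases hk : y k ∈ Zf
      · apply Finset.single_le_sum (f := ga) (fun z _ => hga0 z)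
        rw [Finset.mem_filter]
        exact ⟨hk, Finset.mem_image_of_mem _ (Finset.mem_univ _)⟩
      · have : ga (y k) = 0 := hZ (y k) hk
        rw [this]
        exact Finset.sum_nonneg fun z _ => hga0 z
    calc ∑ k, ga (y k) ≤ ∑ _k : κ, ∑ z ∈ Zf.filter (fun z => z ∈ univ.image y), ga z :=
          Finset.sum_le_sum fun k _ => e1 k
      _ = G' y := by rw [Finset.sum_const, Finset.card_univ, nsmul_eq_mul]
  -- one `y`
  have hone : ∀ y : κ → V, Sy t lam F C q N' (insert v X) D y ≤
      Sy t lam F C q N (insert v X) D y + 4 * (G' y * Sy t lam F C q N X D y) := by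
    intro y
    have e1 := Sy_new (X := insert v X) (D := D) (C := C) (N := N) (N' := N') h0 h1 hlam (q := q)
      (F := F) y
    have e2 : 0 ≤ Sy t lam F C q N' (insert v X) D y := Sy_nonneg h0 h1 hlam y
    have e3 := hsum y
    have e4 := hG'1 y
    have e5 : (∑ k, gam t lam F q N N' (insert v X) D (y k)) * Sy t lam F C q N' (insert v X) D y ≤
        G' y * Sy t lam F C q N' (insert v X) D y := mul_le_mul_of_nonneg_right e3 e2
    have e6 : G' y * Sy t lam F C q N' (insert v X) D y ≤
        1 / 2 * Sy t lam F C q N' (insert v X) D y := mul_le_mul_of_nonneg_right e4 e2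
    have e7 : Sy t lam F C q N' (insert v X) D y ≤ 2 * Sy t lam F C q N (insert v X) D y := by
      linarith
    have e8 : Sy t lam F C q N (insert v X) D y ≤ 2 * Sy t lam F C q N X D y :=
      Sy_insert_X h0 h1 hlam hX hD y
    have e9 : G' y * Sy t lam F C q N' (insert v X) D y ≤
        G' y * (4 * Sy t lam F C q N X D y) :=
      mul_le_mul_of_nonneg_left (by linarith) (hG'0 y)
    linarith
  have hold := Pot_insert_X (I := confI YY F C q N) (W := confW) (Y := confY) (c := confc lam)
    (E := E) h0 h1 (fun z _ => confc_nonneg hlam z) hX hD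
  rw [Pot_conf_eq] at hold ⊢
  have e1 : ∑ y ∈ YY.filter (fun y => Disjoint (univ.image y) (insert v E)),
      Sy t lam F C q N' (insert v X) D y ≤
      ∑ y ∈ YY.filter (fun y => Disjoint (univ.image y) (insert v E)),
        Sy t lam F C q N (insert v X) D y +
      ∑ y ∈ YY.filter (fun y => Disjoint (univ.image y) E),
        4 * (G' y * Sy t lam F C q N X D y) := by
    refine (Finset.sum_le_sum fun y _ => hone y).trans ?_
    rw [Finset.sum_add_distrib]
    apply add_le_add le_rfl
    apply Finset.sum_le_sum_of_subset_of_nonneg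
    · intro y hy
      rw [Finset.mem_filter] at hy ⊢
      exact ⟨hy.1, Disjoint.mono_right (Finset.subset_insert v E) hy.2⟩
    · intro y _ _
      have h2 := hG'0 y
      have h3 : 0 ≤ Sy t lam F C q N X D y := Sy_nonneg h0 h1 hlam y
      positivity
  have e2 : ∑ y ∈ YY.filter (fun y => Disjoint (univ.image y) E),
        4 * (G' y * Sy t lam F C q N X D y) ≤ 4 * Fintype.card κ * Γ * K := by
    have e3 : ∑ y ∈ YY.filter (fun y => Disjoint (univ.image y) E),
        4 * (G' y * Sy t lam F C q N X D y) =
        4 * Fintype.card κ * ∑ z ∈ Zf, ga z *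
          ∑ y ∈ YY.filter (fun y => Disjoint (univ.image y) E ∧ z ∈ univ.image y),
            Sy t lam F C q N X D y := by
      have e4 : ∀ z ∈ Zf, ga z *
          ∑ y ∈ YY.filter (fun y => Disjoint (univ.image y) E ∧ z ∈ univ.image y),
            Sy t lam F C q N X D y =
          ∑ y ∈ YY.filter (fun y => Disjoint (univ.image y) E),
            if z ∈ univ.image y then ga z * Sy t lam F C q N X D y else 0 := by
        intro z _
        rw [← Finset.filter_filter, Finset.sum_filter, Finset.mul_sum]
        apply Finset.sum_congr rfl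
        intro y _
        split_ifs
        · rfl
        · rw [mul_zero]
      rw [Finset.sum_congr rfl e4, Finset.sum_comm, Finset.mul_sum]
      apply Finset.sum_congr rfl
      intro y _
      rw [hG']
      simp only
      rw [Finset.sum_filter, Finset.mul_sum, Finset.sum_mul, Finset.mul_sum, Finset.mul_sum]
      apply Finset.sum_congr rfl
      intro z _
      split_ifs
      · ring
      · ring
    rw [e3, mul_assoc (4 * (Fintype.card κ : ℝ))]
    apply mul_le_mul_of_nonneg_left _ (by positivity)
    calc ∑ z ∈ Zf, ga z *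
          ∑ y ∈ YY.filter (fun y => Disjoint (univ.image y) E ∧ z ∈ univ.image y),
            Sy t lam F C q N X D y ≤ ∑ z ∈ Zf, ga z * K := by
          apply Finset.sum_le_sum
          intro z hz
          apply mul_le_mul_of_nonneg_left _ (hga0 z)
          exact (conf_kill_ge h0 h1 hlam z).trans (hK z hz)
      _ = (∑ z ∈ Zf, ga z) * K := by rw [Finset.sum_mul]
      _ ≤ Γ * K := mul_le_mul_of_nonneg_right hΓ hK0
  linarith

/-- The sets of a configuration are almost disjoint. -/
lemma card_gU_ge {y : κ → V} {g : κ → Slot V} (h : Adm F C q N y g) :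
    ∑ k, ((gs (g k)).card - q) ≤ (gU g).card := by
  classical
  set P : κ → Finset V := fun k => gs (g k) \ (univ.erase k).biUnion fun k' => gs (g k') with hP
  have h1 : (univ.biUnion P).card = ∑ k, (P k).card := by
    rw [Finset.card_biUnion]
    intro k _ k' _ hkk
    rw [Function.onFun, Finset.disjoint_left]
    intro p hp hp'
    rw [hP, Finset.mem_sdiff] at hp hp'
    apply hp.2
    rw [Finset.mem_biUnion]
    exact ⟨k', Finset.mem_erase.2 ⟨hkk.symm, Finset.mem_univ _⟩, hp'.1⟩
  have h2 : univ.biUnion P ⊆ gU g := by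
    intro p hp
    rw [Finset.mem_biUnion] at hp
    obtain ⟨k, -, hp⟩ := hp
    rw [hP, Finset.mem_sdiff] at hp
    rw [gU, Finset.mem_biUnion]
    exact ⟨k, Finset.mem_univ _, hp.1⟩
  calc ∑ k, ((gs (g k)).card - q) ≤ ∑ k, (P k).card := by
        apply Finset.sum_le_sum
        intro k _
        have h3 := h.few k
        have h4 := Finset.card_sdiff_add_card_inter (gs (g k))
          ((univ.erase k).biUnion fun k' => gs (g k'))
        simp only [hP]
        omega
    _ = (univ.biUnion P).card := h1.symm
    _ ≤ _ := Finset.card_le_card h2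

lemma pow_sub_le {u : ℝ} (hu0 : 0 < u) (hu1 : u ≤ 1) (a q : ℕ) :
    u ^ (a - q) ≤ (u⁻¹) ^ q * u ^ a := by
  rcases le_total q a with h | h
  · obtain ⟨k, rfl⟩ := Nat.exists_eq_add_of_le h
    rw [Nat.add_sub_cancel_left, pow_add, inv_pow]
    field_simp
    exact le_rfl
  · rw [Nat.sub_eq_zero_of_le h, pow_zero]
    obtain ⟨k, rfl⟩ := Nat.exists_eq_add_of_le h
    have h2 : (u⁻¹) ^ (a + k) * u ^ a = (u⁻¹) ^ k := by
      rw [pow_add, inv_pow, inv_pow]
      field_simp
    rw [h2]
    exact one_le_pow₀ ((one_le_inv₀ hu0).2 hu1)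

/-- The potential of the configurations at the beginning. -/
lemma conf_init (h0 : 0 < t) (h1 : t < 1 / 2) (hlam : ∀ b, 0 ≤ lam b)
    (hcold : ∀ x, lam true * (((1 / 2 + t)⁻¹) ^ q *
      ∑ G ∈ F with x ∈ C G, (1 / 2 + t) ^ G.card) ≤ 1) :
    Pot t (confI YY F C q ∅) confW confY (confc lam) ∅ ∅ ∅ ≤ YY.card * 2 ^ Fintype.card κ := by
  classical
  set u : ℝ := 1 / 2 + t with hu
  have hu0 : 0 < u := by linarith
  have hu1 : u ≤ 1 := by linarith
  have hom : ∀ S : Finset V, om t ∅ ∅ S = u ^ S.card := by
    intro S
    unfold om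
    rw [← Finset.prod_const]
    apply Finset.prod_congr rfl
    intro p _
    simp [aw, hu]
  set sw : Slot V → ℝ := fun o => o.elim 1 fun p => lam p.1 * ((u⁻¹) ^ q * u ^ p.2.card) with hsw
  have hsw0 : ∀ o, 0 ≤ sw o := by
    intro o
    rcases o with _ | p
    · exact zero_le_one
    · have := hlam p.1
      simp only [hsw, Option.elim_some]
      positivity
  have hfac : ∀ o : Slot V, gc lam o * u ^ ((gs o).card - q) ≤ sw o := by
    intro o
    rcases o with _ | p
    · simp [gc, gs, hsw]
    · simp only [hsw, gc, gs, Option.elim_some]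
      exact mul_le_mul_of_nonneg_left (pow_sub_le hu0 hu1 _ _) (hlam p.1)
  have hy : ∀ y : κ → V, Sy t lam F C q ∅ ∅ ∅ y ≤ 2 ^ Fintype.card κ := by
    intro y
    set opt : κ → Finset (Slot V) := fun k =>
      insert none ((F.filter fun G => y k ∈ C G).image fun G => some (true, G)) with hopt
    calc Sy t lam F C q ∅ ∅ ∅ y
        ≤ ∑ g ∈ univ.filter (fun g : κ → Slot V => Adm F C q ∅ y g), ∏ k, sw (g k) := by
          unfold Sy
          apply Finset.sum_le_sum
          intro g hg
          rw [Finset.mem_filter] at hg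
          calc (∏ k, gc lam (g k)) * om t ∅ ∅ (gU g)
              = (∏ k, gc lam (g k)) * u ^ (gU g).card := by rw [hom]
            _ ≤ (∏ k, gc lam (g k)) * u ^ (∑ k, ((gs (g k)).card - q)) := by
              apply mul_le_mul_of_nonneg_left
              · exact pow_le_pow_of_le_one hu0.le hu1 (card_gU_ge hg.2)
              · exact Finset.prod_nonneg fun _ _ => gc_nonneg hlam _
            _ = ∏ k, (gc lam (g k) * u ^ ((gs (g k)).card - q)) := by
              rw [Finset.prod_mul_distrib, Finset.prod_pow_eq_pow_sum]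
            _ ≤ _ := by
              apply Finset.prod_le_prod
              · intro k _
                exact mul_nonneg (gc_nonneg hlam _) (by positivity)
              · intro k _
                exact hfac _
      _ ≤ ∑ g ∈ Fintype.piFinset opt, ∏ k, sw (g k) := by
          apply Finset.sum_le_sum_of_subset_of_nonneg
          · intro g hg
            rw [Finset.mem_filter] at hg
            rw [Fintype.mem_piFinset]
            intro k
            rw [hopt, Finset.mem_insert, Finset.mem_image]
            rcases hgk : g k with _ | ⟨b, G⟩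
            · exact Or.inl rfl
            · right
              rcases b with _ | _
              · exact absurd (hg.2.hot k G hgk) (Set.notMem_empty _)
              · refine ⟨G, ?_, rfl⟩
                rw [Finset.mem_filter]
                exact ⟨(hg.2.mem k true G hgk).1, hg.2.cold k G hgk⟩
          · intro g _ _
            exact Finset.prod_nonneg fun _ _ => hsw0 _
      _ = ∏ k, ∑ o ∈ opt k, sw o := by
          rw [Finset.prod_univ_sum]
      _ ≤ ∏ _k : κ, (2 : ℝ) := by
          apply Finset.prod_le_prod
          · intro k _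
            exact Finset.sum_nonneg fun o _ => hsw0 o
          · intro k _
            rw [hopt]
            simp only
            rw [Finset.sum_insert (by simp), Finset.sum_image (by
              intro G _ G' _ he
              simpa using he)]
            have h2 := hcold (y k)
            have h3 : ∑ G ∈ F with y k ∈ C G, sw (some (true, G)) =
                lam true * ((u⁻¹) ^ q * ∑ G ∈ F with y k ∈ C G, u ^ G.card) := by
              simp only [hsw, Option.elim_some]
              rw [Finset.mul_sum, Finset.mul_sum]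
            have h4 : sw none = 1 := by simp [hsw]
            rw [h3, h4]
            linarith
      _ = 2 ^ Fintype.card κ := by rw [Finset.prod_const, Finset.card_univ]
  rw [Pot_conf_eq]
  calc ∑ y ∈ YY.filter (fun y => Disjoint (univ.image y) ∅), Sy t lam F C q ∅ ∅ ∅ y
      ≤ ∑ _y ∈ YY.filter (fun y => Disjoint (univ.image y) ∅), (2 : ℝ) ^ Fintype.card κ :=
        Finset.sum_le_sum fun y _ => hy y
    _ = (YY.filter (fun y => Disjoint (univ.image y) ∅)).card * 2 ^ Fintype.card κ := by
        rw [Finset.sum_const, nsmul_eq_mul]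
    _ ≤ _ := by
        have : ((YY.filter (fun y => Disjoint (univ.image y) ∅)).card : ℝ) ≤ YY.card := by
          exact_mod_cast Finset.card_le_card (Finset.filter_subset _ _)
        gcongr

/-- A configuration which is owned by the first player has a large weight. -/
lemma conf_heavy (h0 : 0 < t) (h1 : t < 1 / 2) (hlam : ∀ b, 0 ≤ lam b) {y : κ → V}
    (hy : y ∈ YY) (hyE : ∀ k, y k ∉ E) {g : κ → Slot V} (hg : Adm F C q N y g) {η : ℝ}
    (hη0 : 0 ≤ η) {f : Finset κ} (hf : ∀ k ∈ f, ∃ b G, g k = some (b, G) ∧
      η ≤ lam b * t ^ (G \ (X \ D)).card) (hnf : ∀ k, k ∉ f → g k = none) :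
    η ^ f.card ≤ Pot t (confI YY F C q N) confW confY (confc lam) X D E := by
  classical
  have e1 : confc lam (y, g) * om t X D (gU g) ≤
      Pot t (confI YY F C q N) confW confY (confc lam) X D E := by
    unfold Pot
    apply Finset.single_le_sum (f := fun z => confc lam z * om t X D (confW z))
    · intro z _
      exact mul_nonneg (confc_nonneg hlam _) (om_pos h0 h1).le
    · rw [Finset.mem_filter, confI, Finset.mem_filter, Finset.mem_product]
      refine ⟨⟨⟨hy, Finset.mem_univ _⟩, hg⟩, ?_⟩
      rw [confY, Finset.disjoint_left]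
      intro p hp hpE
      rw [Finset.mem_image] at hp
      obtain ⟨k, -, rfl⟩ := hp
      exact hyE k hpE
  refine le_trans ?_ e1
  -- the weight of the union
  have e2 : t ^ (∑ k, (gs (g k) \ (X \ D)).card) ≤ om t X D (gU g) := by
    apply om_ge_pow h0 h1
    have h3 : gU g \ (X \ D) ⊆ univ.biUnion fun k => gs (g k) \ (X \ D) := by
      intro p hp
      rw [Finset.mem_sdiff, gU, Finset.mem_biUnion] at hp
      obtain ⟨⟨k, -, hk⟩, hp⟩ := hp
      rw [Finset.mem_biUnion]
      exact ⟨k, Finset.mem_univ _, Finset.mem_sdiff.2 ⟨hk, hp⟩⟩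
    exact (Finset.card_le_card h3).trans Finset.card_biUnion_le
  have e3 : η ^ f.card ≤ ∏ k, (gc lam (g k) * t ^ (gs (g k) \ (X \ D)).card) := by
    rw [← Finset.prod_subset (Finset.subset_univ f)]
    · rw [← Finset.prod_const]
      apply Finset.prod_le_prod
      · intro _ _
        exact hη0
      · intro k hk
        obtain ⟨b, G, hk1, hk2⟩ := hf k hk
        rw [hk1]
        exact hk2
    · intro k _ hk
      rw [hnf k hk]
      simp [gc, gs]
  calc η ^ f.card ≤ ∏ k, (gc lam (g k) * t ^ (gs (g k) \ (X \ D)).card) := e3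
    _ = (∏ k, gc lam (g k)) * t ^ (∑ k, (gs (g k) \ (X \ D)).card) := by
        rw [Finset.prod_mul_distrib, Finset.prod_pow_eq_pow_sum]
    _ ≤ _ := by
        apply mul_le_mul_of_nonneg_left e2
        exact Finset.prod_nonneg fun _ _ => gc_nonneg hlam _

end WWX
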