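import Mathlib
import Pool.Agent.WWL.Select
import Pool.Agent.WWX.ConfStep

/-!
A set with many bad points yields a heavy configuration.
-/

set_option autoImplicit false

namespace WWX

open Finset WWL

/-- The points of the sets of a family in the union of the others. -/
lemma ov_sum {V κ : Type*} [DecidableEq V] [Fintype κ] [DecidableEq κ] (G : κ → Finset V) {B : ℕ}
    (hB : ∑ k, (G k).card ≤ (univ.biUnion G).card + B) :
    ∑ k, (G k ∩ (univ.erase k).biUnion G).card ≤ 2 * B := by
  classical
  set U := univ.biUnion G with hU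
  set D : V → ℕ := fun p => (univ.filter fun k => p ∈ G k).card with hD
  have h1 : ∑ k, (G k).card = ∑ p ∈ U, D p := by
    have h2 : ∑ k, (U.filter fun p => p ∈ G k).card = ∑ p ∈ U, (univ.filter fun k => p ∈ G k).card :=
      Finset.sum_card_bipartiteAbove_eq_sum_card_bipartiteBelow (fun (k : κ) (p : V) => p ∈ G k)
    rw [hD, ← h2]
    apply Finset.sum_congr rfl
    intro k _
    congr 1
    ext p
    rw [Finset.mem_filter, hU, Finset.mem_biUnion]
    constructor
    · intro hp
      exact ⟨⟨k, Finset.mem_univ _, hp⟩, hp⟩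
    · exact fun hp => hp.2
  have hD1 : ∀ p ∈ U, 1 ≤ D p := by
    intro p hp
    rw [hU, Finset.mem_biUnion] at hp
    obtain ⟨k, -, hk⟩ := hp
    rw [hD]
    apply Finset.card_pos.2
    exact ⟨k, Finset.mem_filter.2 ⟨Finset.mem_univ _, hk⟩⟩
  have h2 : ∑ p ∈ U, (D p - 1) + U.card = ∑ p ∈ U, D p := by
    rw [Finset.card_eq_sum_ones, ← Finset.sum_add_distrib]
    apply Finset.sum_congr rfl
    intro p hp
    have := hD1 p hp
    omega
  have h3 : ∑ k, (G k ∩ (univ.erase k).biUnion G).card =
      ∑ p ∈ U, (univ.filter fun k => p ∈ G k ∩ (univ.erase k).biUnion G).card := by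
    have h4 : ∑ k, (U.filter fun p => p ∈ G k ∩ (univ.erase k).biUnion G).card =
        ∑ p ∈ U, (univ.filter fun k => p ∈ G k ∩ (univ.erase k).biUnion G).card :=
      Finset.sum_card_bipartiteAbove_eq_sum_card_bipartiteBelow
        (fun (k : κ) (p : V) => p ∈ G k ∩ (univ.erase k).biUnion G)
    rw [← h4]
    apply Finset.sum_congr rfl
    intro k _
    congr 1
    ext p
    rw [Finset.mem_filter, hU, Finset.mem_biUnion]
    constructor
    · intro hp
      exact ⟨⟨k, Finset.mem_univ _, (Finset.mem_inter.1 hp).1⟩, hp⟩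
    · exact fun hp => hp.2
  have h4 : ∀ p ∈ U, (univ.filter fun k => p ∈ G k ∩ (univ.erase k).biUnion G).card ≤
      2 * (D p - 1) := by
    intro p hp
    rcases Nat.lt_or_ge (D p) 2 with h5 | h5
    · have h6 : (univ.filter fun k => p ∈ G k ∩ (univ.erase k).biUnion G) = ∅ := by
        rw [Finset.eq_empty_iff_forall_notMem]
        intro k hk
        rw [Finset.mem_filter, Finset.mem_inter, Finset.mem_biUnion] at hk
        obtain ⟨-, hk1, k', hk', hk2⟩ := hk
        have h7 : D p ≤ 1 := by omega
        rw [hD] at h7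
        have h8 := Finset.card_le_one.1 h7 k (Finset.mem_filter.2 ⟨Finset.mem_univ _, hk1⟩) k'
          (Finset.mem_filter.2 ⟨Finset.mem_univ _, hk2⟩)
        exact (Finset.mem_erase.1 hk').1 h8.symm
      rw [h6]
      simp
    · have h6 : (univ.filter fun k => p ∈ G k ∩ (univ.erase k).biUnion G).card ≤ D p := by
        apply Finset.card_le_card
        intro k hk
        rw [Finset.mem_filter, Finset.mem_inter] at hk
        rw [Finset.mem_filter]
        exact ⟨Finset.mem_univ _, hk.2.1⟩
      omega
  have h5 := Finset.sum_le_sum h4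
  rw [← Finset.mul_sum] at h5
  rw [h3]
  omega

/-- Half of the sets have few points in the union of the others. -/
lemma half_few {V κ : Type*} [DecidableEq V] [Fintype κ] [DecidableEq κ] (G : κ → Finset V) {B : ℕ}
    (hB : ∑ k, (G k).card ≤ (univ.biUnion G).card + Fintype.card κ * B) :
    Fintype.card κ ≤ 2 * (univ.filter fun k => (G k ∩ (univ.erase k).biUnion G).card ≤ 4 * B).card := by
  classical
  have h1 := ov_sum G hB
  set f := univ.filter fun k => (G k ∩ (univ.erase k).biUnion G).card ≤ 4 * B with hf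
  set f' := univ.filter fun k => ¬ (G k ∩ (univ.erase k).biUnion G).card ≤ 4 * B with hf'
  have h2 : f.card + f'.card = Fintype.card κ := by
    rw [hf, hf', Finset.card_filter_add_card_filter_not, Finset.card_univ]
  have h3 : f'.card * (4 * B + 1) ≤ ∑ k, (G k ∩ (univ.erase k).biUnion G).card := by
    calc f'.card * (4 * B + 1) = ∑ _k ∈ f', (4 * B + 1) := by
          rw [Finset.sum_const, smul_eq_mul]
      _ ≤ ∑ k ∈ f', (G k ∩ (univ.erase k).biUnion G).card := by
          apply Finset.sum_le_sum
          intro k hk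
          rw [hf', Finset.mem_filter] at hk
          omega
      _ ≤ _ := Finset.sum_le_sum_of_subset (Finset.subset_univ _)
  have h4 : 2 * f'.card * (4 * B + 1) ≤ Fintype.card κ * (4 * B + 1) := by
    calc 2 * f'.card * (4 * B + 1) = 2 * (f'.card * (4 * B + 1)) := by ring
      _ ≤ 2 * (2 * (Fintype.card κ * B)) := by omega
      _ = Fintype.card κ * (4 * B) := by ring
      _ ≤ Fintype.card κ * (4 * B + 1) := Nat.mul_le_mul_left _ (Nat.le_succ _)
  have h5 : 2 * f'.card ≤ Fintype.card κ := Nat.le_of_mul_le_mul_right h4 (Nat.succ_pos _)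
  omega

variable {V : Type*} [DecidableEq V] [Fintype V]

open Classical in
/-- The families of points `y`. -/
noncomputable def YYs (F : Finset (Finset V)) (m r : ℕ) : Finset (Fin m × Fin r → V) :=
  univ.filter fun y => ∃ A ∈ F, ∃ x : Fin m → V, ∃ H : Fin m → Finset V,
    ∀ j, x j ∈ A ∧ H j ∈ F ∧ x j ∈ H j ∧ ∀ i, y (j, i) ∈ H j

section

variable {F : Finset (Finset V)} {n w h d : ℕ} {M R A Bd : Finset V} {H G : V → Finset V}

lemma exists_ys (hF : Sys F) (hb : Bad F n w h d M R A Bd H G) (s r m : ℕ) (hm : 0 < m)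
    (hcomb : 4 * (m * (r * n) * ((s + 1) * s + 2 * (m * (r * n)))) <
      (w - m) * (h - r) * ((s + 1) * ((s + 1) * s))) (k : ℕ) (hk : k ≤ m) :
    ∃ (x : ℕ → V) (y : ℕ → Fin r → V), ∀ j < k, x j ∈ Bd ∧ (∀ i, y j i ∈ H (x j) ∧ y j i ∈ R) ∧
      Function.Injective (y j) ∧
      ∀ i, (G (y j i) ∩ (range j).biUnion fun j' => univ.biUnion fun i' => G (y j' i')).card ≤ s := by
  classical
  induction k with
  | zero =>
    obtain ⟨x, -, -⟩ := exists_point hF hb ∅ ∅ s r m (m * (r * n)) (by simp) (by simpa) hcomb
    exact ⟨fun _ => x, fun _ _ => x, fun j hj => absurd hj (Nat.not_lt_zero j)⟩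
  | succ k ih =>
    obtain ⟨x, y, hxy⟩ := ih (by omega)
    set U := (range k).biUnion fun j' => univ.biUnion fun i' => G (y j' i') with hU
    have hUc : U.card ≤ m * (r * n) := by
      calc U.card ≤ ∑ j ∈ range k, (univ.biUnion fun i' => G (y j i')).card :=
            Finset.card_biUnion_le
        _ ≤ ∑ _j ∈ range k, r * n := by
            apply Finset.sum_le_sum
            intro j hj
            calc (univ.biUnion fun i' => G (y j i')).card ≤ ∑ i', (G (y j i')).card :=
                  Finset.card_biUnion_le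
              _ ≤ ∑ _i' : Fin r, n := by
                  apply Finset.sum_le_sum
                  intro i' _
                  exact hb.hn _ (hb.hGF _ ((hxy j (Finset.mem_range.1 hj)).2.1 i').2)
              _ = r * n := by simp
        _ = k * (r * n) := by simp
        _ ≤ m * (r * n) := Nat.mul_le_mul_right _ (by omega)
    obtain ⟨x', hx', -, hr⟩ := exists_point hF hb U ∅ s r m (m * (r * n)) hUc (by
      rw [Finset.card_empty]
      omega) hcomb
    obtain ⟨Y, hYsub, hYc⟩ := Finset.exists_subset_card_eq hr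
    set y' : Fin r → V := fun i => ((Finset.equivFinOfCardEq hYc).symm i : V) with hy'
    have hyY : ∀ i, y' i ∈ Y := fun i => ((Finset.equivFinOfCardEq hYc).symm i).2
    have hyinj : Function.Injective y' := by
      intro i i' h1
      apply (Finset.equivFinOfCardEq hYc).symm.injective
      exact Subtype.ext h1
    refine ⟨Function.update x k x', Function.update y k y', fun j hj => ?_⟩
    have h1 : ((range j).biUnion fun j' => univ.biUnion fun i' =>
        G (Function.update y k y' j' i')) =
        (range j).biUnion fun j' => univ.biUnion fun i' => G (y j' i') := by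
      apply Finset.biUnion_congr rfl
      intro j' hj'
      rw [Finset.mem_range] at hj'
      rw [Function.update_of_ne (by omega)]
    rw [h1]
    by_cases hjk : j = k
    · subst hjk
      rw [Function.update_self, Function.update_self]
      refine ⟨hx', ?_, hyinj, ?_⟩
      · intro i
        have h2 := Finset.mem_filter.1 (hYsub (hyY i))
        exact ⟨(Finset.mem_inter.1 h2.1).1, (Finset.mem_inter.1 h2.1).2⟩
      · intro i
        exact (Finset.mem_filter.1 (hYsub (hyY i))).2
    · rw [Function.update_of_ne hjk, Function.update_of_ne hjk]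
      exact hxy j (by omega)

/-- **A heavy configuration.** -/
lemma exists_heavy (hF : Sys F) (hb : Bad F n w h d M R A Bd H G) (s r m : ℕ) (hm : 0 < m)
    (hcomb : 4 * (m * (r * n) * ((s + 1) * s + 2 * (m * (r * n)))) <
      (w - m) * (h - r) * ((s + 1) * ((s + 1) * s)))
    {t : ℝ} {lam : Bool → ℝ} {C : Finset V → Finset V} {q : ℕ} {N : Set (V × Finset V)}
    {X D E : Finset V} (h0 : 0 < t) (h1 : t < 1 / 2) (hlam : ∀ b, 0 ≤ lam b)
    (hq : 4 * (s + r) ≤ q) {η : ℝ} (hη0 : 0 ≤ η) (hRE : ∀ y ∈ R, y ∉ E) (bt : V → Bool)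
    (hcold : ∀ y ∈ R, bt y = true → y ∈ C (G y)) (hhot : ∀ y ∈ R, bt y = false → (y, G y) ∈ N)
    (hη : ∀ y ∈ R, η ≤ lam (bt y) * t ^ (G y \ (X \ D)).card) :
    ∃ j, m * r ≤ 2 * j ∧
      η ^ j ≤ Pot t (confI (YYs F m r) F C q N) confW confY (confc lam) X D E := by
  classical
  obtain ⟨x, y, hxy⟩ := exists_ys hF hb s r m hm hcomb m le_rfl
  set yy : Fin m × Fin r → V := fun k => y k.1 k.2 with hyy
  set Gk : Fin m × Fin r → Finset V := fun k => G (yy k) with hGk
  have hyR : ∀ k, yy k ∈ R := fun k => ((hxy k.1 k.1.2).2.1 k.2).2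
  have hGF : ∀ k, Gk k ∈ F := fun k => hb.hGF _ (hyR k)
  -- the sets of a block are different
  have hne : ∀ (j : Fin m) (i i' : Fin r), i ≠ i' → Gk (j, i) ≠ Gk (j, i') := by
    intro j i i' hii h2
    have h3 := hxy j j.2
    apply hb.hGH (x j) h3.1 (y j i) (Finset.mem_inter.2 (h3.2.1 i))
    apply hF.lin _ (hb.hGF _ (h3.2.1 i).2) _ (hb.hHF _ h3.1) (y j i) (y j i')
      (fun h4 => hii (h3.2.2.1 h4)) (hb.hGy _ (h3.2.1 i).2) ?_ (h3.2.1 i).1 (h3.2.1 i').1
    have h5 : G (y j i) = G (y j i') := h2
    rw [h5]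
    exact hb.hGy _ (h3.2.1 i').2
  have hcardk : Fintype.card (Fin m × Fin r) = m * r := by simp
  -- the size of the union
  have hsize : ∑ k, (Gk k).card ≤ (univ.biUnion Gk).card + Fintype.card (Fin m × Fin r) * (s + r) := by
    set P : Fin m × Fin r → Finset V := fun k => Gk k \
      (((range k.1).biUnion fun j' => univ.biUnion fun i' => G (y j' i')) ∪
        (univ.erase k.2).biUnion fun i' => Gk (k.1, i')) with hP
    have hP1 : ∀ k, (Gk k).card ≤ (P k).card + (s + r) := by
      intro k
      have h3 := hxy k.1 k.1.2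
      have h4 : (Gk k ∩ (((range k.1).biUnion fun j' => univ.biUnion fun i' => G (y j' i')) ∪
        (univ.erase k.2).biUnion fun i' => Gk (k.1, i'))).card ≤ s + r := by
        rw [Finset.inter_union_distrib_left]
        refine (Finset.card_union_le _ _).trans (Nat.add_le_add (h3.2.2.2 k.2) ?_)
        rw [Finset.inter_biUnion]
        calc ((univ.erase k.2).biUnion fun i' => Gk k ∩ Gk (k.1, i')).card
            ≤ ∑ i' ∈ univ.erase k.2, (Gk k ∩ Gk (k.1, i')).card := Finset.card_biUnion_le
          _ ≤ ∑ i' ∈ univ.erase k.2, 1 := by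
              apply Finset.sum_le_sum
              intro i' hi'
              exact hF.inter (hGF _) (hGF _) (hne k.1 k.2 i' (Finset.ne_of_mem_erase hi').symm)
          _ = (univ.erase k.2).card := by simp
          _ ≤ r := by
              refine (Finset.card_le_univ _).trans ?_
              simp
      have h5 := Finset.card_sdiff_add_card_inter (Gk k)
        (((range k.1).biUnion fun j' => univ.biUnion fun i' => G (y j' i')) ∪
        (univ.erase k.2).biUnion fun i' => Gk (k.1, i'))
      simp only [hP]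
      omega
    have hP2 : (univ.biUnion P).card = ∑ k, (P k).card := by
      rw [Finset.card_biUnion]
      have h6 : ∀ k k' : Fin m × Fin r, k.1 < k'.1 → Disjoint (P k) (P k') := by
        intro k k' hkk
        rw [Finset.disjoint_left]
        intro p hp hp'
        rw [hP, Finset.mem_sdiff] at hp hp'
        apply hp'.2
        rw [Finset.mem_union, Finset.mem_biUnion]
        left
        refine ⟨k.1, Finset.mem_range.2 hkk, ?_⟩
        rw [Finset.mem_biUnion]
        exact ⟨k.2, Finset.mem_univ _, hp.1⟩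
      intro k _ k' _ hkk
      rcases lt_trichotomy k.1 k'.1 with h7 | h7 | h7
      · exact h6 k k' h7
      · rw [Function.onFun, Finset.disjoint_left]
        intro p hp hp'
        rw [hP, Finset.mem_sdiff] at hp hp'
        apply hp'.2
        rw [Finset.mem_union]
        right
        rw [Finset.mem_biUnion]
        refine ⟨k.2, Finset.mem_erase.2 ⟨fun h8 => hkk (Prod.ext h7 h8), Finset.mem_univ _⟩, ?_⟩
        have h9 : (k'.1, k.2) = k := by rw [← h7]
        rw [h9]
        exact hp.1
      · exact (h6 k' k h7).symm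
    have hP3 : univ.biUnion P ⊆ univ.biUnion Gk := by
      intro p hp
      rw [Finset.mem_biUnion] at hp ⊢
      obtain ⟨k, hk, hp⟩ := hp
      rw [hP, Finset.mem_sdiff] at hp
      exact ⟨k, hk, hp.1⟩
    calc ∑ k, (Gk k).card ≤ ∑ k, ((P k).card + (s + r)) := Finset.sum_le_sum fun k _ => hP1 k
      _ = (univ.biUnion P).card + Fintype.card (Fin m × Fin r) * (s + r) := by
          rw [Finset.sum_add_distrib, hP2, Finset.sum_const, Finset.card_univ, smul_eq_mul]
      _ ≤ _ := Nat.add_le_add_right (Finset.card_le_card hP3) _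
  have hhalf := half_few Gk hsize
  set f := univ.filter fun k => (Gk k ∩ (univ.erase k).biUnion Gk).card ≤ 4 * (s + r) with hf
  refine ⟨f.card, by rw [← hcardk]; exact hhalf, ?_⟩
  set g : Fin m × Fin r → Slot V := fun k => if k ∈ f then some (bt (yy k), Gk k) else none with hg
  have hg1 : ∀ k b K, g k = some (b, K) → k ∈ f ∧ b = bt (yy k) ∧ K = Gk k := by
    intro k b K hk
    simp only [hg] at hk
    by_cases hkf : k ∈ f
    · rw [if_pos hkf] at hk
      simp only [Option.some.injEq, Prod.mk.injEq] at hk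
      exact ⟨hkf, hk.1.symm, hk.2.symm⟩
    · rw [if_neg hkf] at hk
      exact absurd hk (by simp)
  have hgs : ∀ k, gs (g k) ⊆ Gk k := by
    intro k
    simp only [hg]
    split_ifs
    · exact Finset.Subset.refl _
    · exact Finset.empty_subset _
  have hadm : Adm F C q N yy g := by
    refine ⟨?_, ?_, ?_, ?_⟩
    · intro k b K hk
      obtain ⟨-, -, rfl⟩ := hg1 k b K hk
      exact ⟨hGF k, hb.hGy _ (hyR k)⟩
    · intro k K hk
      obtain ⟨-, hbt, rfl⟩ := hg1 k true K hk
      exact hcold _ (hyR k) hbt.symm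
    · intro k K hk
      obtain ⟨-, hbt, rfl⟩ := hg1 k false K hk
      exact hhot _ (hyR k) hbt.symm
    · intro k
      by_cases hkf : k ∈ f
      · have h6 : (Gk k ∩ (univ.erase k).biUnion Gk).card ≤ 4 * (s + r) :=
          (Finset.mem_filter.1 hkf).2
        refine le_trans (Finset.card_le_card ?_) (h6.trans hq)
        apply Finset.inter_subset_inter (hgs k)
        intro p hp
        rw [Finset.mem_biUnion] at hp ⊢
        obtain ⟨k', hk', hp⟩ := hp
        exact ⟨k', hk', hgs k' hp⟩
      · have h6 : gs (g k) = ∅ := by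
          simp only [hg]
          rw [if_neg hkf]
          rfl
        rw [h6, Finset.empty_inter, Finset.card_empty]
        exact Nat.zero_le _
  have hyy2 : yy ∈ YYs F m r := by
    rw [YYs, Finset.mem_filter]
    refine ⟨Finset.mem_univ _, A, hb.hA, fun j => x j, fun j => H (x j), fun j => ?_⟩
    have h3 := hxy j j.2
    exact ⟨hb.hBA h3.1, hb.hHF _ h3.1, hb.hHx _ h3.1, fun i => (h3.2.1 i).1⟩
  apply conf_heavy h0 h1 hlam hyy2 (fun k => hRE _ (hyR k)) hadm hη0 (f := f)
  · intro k hk
    refine ⟨bt (yy k), Gk k, ?_, hη _ (hyR k)⟩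
    simp only [hg]
    rw [if_pos hk]
  · intro k hk
    simp only [hg]
    rw [if_neg hk]

end

end WWX
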