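import Mathlib
import Pool.Agent.WWL.Rich
import Pool.Agent.WWX.Pot

/-!
The stars: for each point `x` the families of sets `G` such that `x` is a cold point of `G`.
They control the sum of the weights of the sets of which `x` is a cold point.
-/

set_option autoImplicit false

namespace WWX

open Finset WWL

variable {V : Type*} [DecidableEq V] [Fintype V]

variable (F : Finset (Finset V)) (C : Finset V → Finset V)

/-- The stars. -/
def starI : Finset (V × Finset (Finset V)) :=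
  (univ ×ˢ F.powerset).filter fun z => ∀ G ∈ z.2, z.1 ∈ C G

/-- The points of a star without its centre. -/
def starW (z : V × Finset (Finset V)) : Finset V := z.2.biUnion fun G => G.erase z.1

/-- The stars do not die. -/
def starY (_ : V × Finset (Finset V)) : Finset V := ∅

/-- The coefficients. -/
noncomputable def starc (ls bi : ℝ) (z : V × Finset (Finset V)) : ℝ := ls * bi ^ z.2.card

variable {F C}

lemma starc_nonneg {ls bi : ℝ} (h1 : 0 ≤ ls) (h2 : 0 ≤ bi) (z : V × Finset (Finset V)) :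
    0 ≤ starc ls bi z := by
  unfold starc
  positivity

lemma star_eq (hF : Sys F) (hC : ∀ G ∈ F, C G ⊆ G) (t ls bi : ℝ) (X D E : Finset V) :
    Pot t (starI F C) starW starY (starc ls bi) X D E =
      ls * ∑ x, ∏ G ∈ F with x ∈ C G, (1 + bi * om t X D (G.erase x)) := by
  unfold Pot
  rw [Finset.filter_true_of_mem (by
    intro z _
    unfold starY
    exact Finset.disjoint_empty_left _)]
  unfold starI
  rw [Finset.sum_filter, Finset.sum_product, Finset.mul_sum]
  apply Finset.sum_congr rfl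
  intro x _
  rw [← Finset.sum_filter]
  have h1 : F.powerset.filter (fun 𝒢 => ∀ G ∈ 𝒢, x ∈ C G) =
      (F.filter fun G => x ∈ C G).powerset := by
    ext 𝒢
    simp only [Finset.mem_filter, Finset.mem_powerset, Finset.subset_iff]
    constructor
    · rintro ⟨h2, h3⟩ G hG
      exact ⟨h2 hG, h3 G hG⟩
    · intro h2
      exact ⟨fun G hG => (h2 hG).1, fun G hG => (h2 hG).2⟩
  rw [h1, Finset.prod_one_add, Finset.mul_sum]
  apply Finset.sum_congr rfl
  intro 𝒢 h𝒢
  rw [Finset.mem_powerset] at h𝒢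
  simp only [starc, starW]
  rw [Finset.prod_mul_distrib, Finset.prod_const]
  have h2 : om t X D (𝒢.biUnion fun G => G.erase x) = ∏ G ∈ 𝒢, om t X D (G.erase x) := by
    unfold om
    rw [Finset.prod_biUnion]
    intro G hG G' hG' hne
    rw [Function.onFun, Finset.disjoint_left]
    intro p hp hp'
    rw [Finset.mem_erase] at hp hp'
    have h3 := Finset.mem_filter.1 (h𝒢 hG)
    have h4 := Finset.mem_filter.1 (h𝒢 hG')
    exact hne (hF.lin G h3.1 G' h4.1 p x hp.1 hp.2 (hC G h3.1 h3.2) hp'.2 (hC G' h4.1 h4.2))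
  rw [h2]
  ring

/-- The stars control the sum of the weights. -/
lemma star_control (hF : Sys F) (hC : ∀ G ∈ F, C G ⊆ G) {t ls b bd : ℝ} (h0 : 0 < t)
    (h1 : t < 1 / 2) (hls : 0 < ls) (hb : 0 < b) {X D E : Finset V}
    (hP : Pot t (starI F C) starW starY (starc ls b⁻¹) X D E < bd) (x : V)
    (𝒢 : Finset (Finset V)) (h𝒢 : ∀ G ∈ 𝒢, G ∈ F ∧ x ∈ C G ∧ om t X D (G.erase x) ≤ b) :
    ∑ G ∈ 𝒢, om t X D (G.erase x) ≤ b * Real.logb 2 (bd / ls) := by
  rw [star_eq hF hC] at hP
  have hpos : ∀ G : Finset V, 0 < om t X D (G.erase x) := fun G => om_pos h0 h1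
  have hfac : ∀ (y : V) (G : Finset V), 1 ≤ 1 + b⁻¹ * om t X D (G.erase y) := by
    intro y G
    have := (om_pos (X := X) (D := D) (S := G.erase y) h0 h1).le
    have h2 : 0 ≤ b⁻¹ * om t X D (G.erase y) := by positivity
    linarith
  have e1 : ls * ∏ G ∈ F with x ∈ C G, (1 + b⁻¹ * om t X D (G.erase x)) < bd := by
    refine lt_of_le_of_lt ?_ hP
    apply mul_le_mul_of_nonneg_left _ hls.le
    apply Finset.single_le_sum (f := fun y => ∏ G ∈ F with y ∈ C G,
      (1 + b⁻¹ * om t X D (G.erase y))) _ (Finset.mem_univ x)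
    intro y _
    exact Finset.prod_nonneg fun G _ => zero_le_one.trans (hfac y G)
  have e2 : ∏ G ∈ 𝒢, (1 + b⁻¹ * om t X D (G.erase x)) ≤
      ∏ G ∈ F with x ∈ C G, (1 + b⁻¹ * om t X D (G.erase x)) := by
    apply Finset.prod_le_prod_of_subset_of_one_le
    · intro G hG
      rw [Finset.mem_filter]
      exact ⟨(h𝒢 G hG).1, (h𝒢 G hG).2.1⟩
    · intro G _
      exact zero_le_one.trans (hfac x G)
    · intro G _ _
      exact hfac x G
  have e3 : (2 : ℝ) ^ (b⁻¹ * ∑ G ∈ 𝒢, om t X D (G.erase x)) ≤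
      ∏ G ∈ 𝒢, (1 + b⁻¹ * om t X D (G.erase x)) := by
    rw [Finset.mul_sum, Real.rpow_sum_of_pos (by norm_num)]
    apply Finset.prod_le_prod
    · intro G _
      positivity
    · intro G hG
      have h2 : b⁻¹ * om t X D (G.erase x) ≤ 1 := by
        rw [inv_mul_le_iff₀ hb, mul_one]
        exact (h𝒢 G hG).2.2
      have h3 : 0 ≤ b⁻¹ * om t X D (G.erase x) := by
        have := (hpos G).le
        positivity
      have h4 := rpow_one_add_le_one_add_mul_self (s := 1) (by norm_num) h3 h2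
      calc (2 : ℝ) ^ (b⁻¹ * om t X D (G.erase x)) =
          (1 + 1) ^ (b⁻¹ * om t X D (G.erase x)) := by norm_num
        _ ≤ _ := h4
        _ = _ := by ring
  have e4 : (2 : ℝ) ^ (b⁻¹ * ∑ G ∈ 𝒢, om t X D (G.erase x)) ≤ bd / ls := by
    rw [le_div_iff₀ hls, mul_comm]
    calc ls * (2 : ℝ) ^ (b⁻¹ * ∑ G ∈ 𝒢, om t X D (G.erase x)) ≤
        ls * ∏ G ∈ F with x ∈ C G, (1 + b⁻¹ * om t X D (G.erase x)) :=
          mul_le_mul_of_nonneg_left (e3.trans e2) hls.le
      _ ≤ bd := e1.le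
  have e5 : b⁻¹ * ∑ G ∈ 𝒢, om t X D (G.erase x) ≤ Real.logb 2 (bd / ls) := by
    have h5 : (0 : ℝ) < (2 : ℝ) ^ (b⁻¹ * ∑ G ∈ 𝒢, om t X D (G.erase x)) := by positivity
    rw [Real.le_logb_iff_rpow_le (by norm_num) (h5.trans_le e4)]
    exact e4
  rwa [inv_mul_le_iff₀ hb] at e5

/-- The value of the stars at the beginning. -/
lemma star_init (hF : Sys F) (hC : ∀ G ∈ F, C G ⊆ G) {t ls b lam : ℝ} (h0 : 0 < t)
    (hls : 0 ≤ ls) (hb : 0 < b)
    (hlam : ∀ x, ∑ G ∈ F with x ∈ C G, (1 / 2 + t) ^ G.card ≤ lam)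
    (hsmall : b⁻¹ * ((1 / 2 + t)⁻¹ * lam) ≤ 1 / 2) :
    Pot t (starI F C) starW starY (starc ls b⁻¹) ∅ ∅ ∅ ≤ ls * (2 * Fintype.card V) := by
  rw [star_eq hF hC]
  apply mul_le_mul_of_nonneg_left _ hls
  have hpos : 0 < 1 / 2 + t := by linarith
  have h2 : ∀ x : V, ∏ G ∈ F with x ∈ C G, (1 + b⁻¹ * om t ∅ ∅ (G.erase x)) ≤ 2 := by
    intro x
    have h3 : ∀ G ∈ F.filter (fun G => x ∈ C G), om t ∅ ∅ (G.erase x) =
        (1 / 2 + t)⁻¹ * (1 / 2 + t) ^ G.card := by
      intro G hG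
      rw [Finset.mem_filter] at hG
      have h4 : om t ∅ ∅ (G.erase x) = (1 / 2 + t) ^ (G.erase x).card := by
        unfold om
        rw [← Finset.prod_const]
        apply Finset.prod_congr rfl
        intro p _
        simp [aw]
      rw [h4, ← Finset.card_erase_add_one (hC G hG.1 hG.2), pow_succ]
      field_simp
    calc ∏ G ∈ F with x ∈ C G, (1 + b⁻¹ * om t ∅ ∅ (G.erase x))
        ≤ ∏ G ∈ F with x ∈ C G, Real.exp (b⁻¹ * ((1 / 2 + t)⁻¹ * (1 / 2 + t) ^ G.card)) := by
          apply Finset.prod_le_prod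
          · intro G hG
            rw [h3 G hG]
            positivity
          · intro G hG
            rw [h3 G hG]
            have := Real.add_one_le_exp (b⁻¹ * ((1 / 2 + t)⁻¹ * (1 / 2 + t) ^ G.card))
            linarith
      _ = Real.exp (∑ G ∈ F with x ∈ C G, b⁻¹ * ((1 / 2 + t)⁻¹ * (1 / 2 + t) ^ G.card)) := by
          rw [Real.exp_sum]
      _ ≤ Real.exp (1 / 2) := by
          apply Real.exp_le_exp.2
          rw [← Finset.mul_sum, ← Finset.mul_sum]
          refine le_trans ?_ hsmall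
          have := hlam x
          gcongr
      _ ≤ 2 := by
          have h5 : Real.exp (1 / 2) * Real.exp (1 / 2) = Real.exp 1 := by
            rw [← Real.exp_add]
            norm_num
          have h6 := Real.exp_one_lt_d9
          have h7 : 0 < Real.exp (1 / 2 : ℝ) := Real.exp_pos _
          nlinarith
  calc ∑ x : V, ∏ G ∈ F with x ∈ C G, (1 + b⁻¹ * om t ∅ ∅ (G.erase x))
      ≤ ∑ _x : V, (2 : ℝ) := Finset.sum_le_sum fun x _ => h2 x
    _ = 2 * Fintype.card V := by
      rw [Finset.sum_const, Finset.card_univ, nsmul_eq_mul, mul_comm]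

end WWX
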