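import Mathlib
import Pool.Agent.WWL.Strategy

/-!
The invariant of the strategy of the second player.
-/

set_option autoImplicit false

namespace WWX

open Finset WWL

variable {V : Type} [DecidableEq V] [Fintype V]

/-- The invariant without the potential.  `C A` is the set of the cold points of `A`; a set of the
family is normal, or activated, or it contains a pair. -/
structure Inv2 (F : Finset (Finset V)) (C : Finset V → Finset V) (w h τ : ℕ) (X O : Finset V)
    (p : V → V) (N : Set (V × Finset V)) : Prop where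
  disj : Disjoint X O
  invol : ∀ x, p (p x) = x
  pair : ∀ x ∈ Rv p, x ∈ X → p x ∈ O
  owner : ∀ x ∈ Rv p, ∃ G ∈ F, x ∈ G ∧ p x ∈ G ∧
    ((x ∈ C G ∧ (G \ (X \ Rv p)).card ≤ τ) ∨ ((x, G) ∈ N ∧ (G \ (X \ Rv p)).card ≤ w + h))
  uniq : ∀ G ∈ F, ∀ x ∈ Rv p, ∀ y ∈ Rv p, x ∈ G → p x ∈ G → y ∈ G → p y ∈ G → y = x ∨ y = p x
  undecl : ∀ A ∈ F, Disjoint A O → NoPair p A → (A ∩ Rv p).card ≤ h ∧
    ((τ < (A \ (X \ Rv p)).card ∧ w + h < (C A \ (X \ Rv p)).card) ∨
      (w + h < (A \ (X \ Rv p)).card ∧ ∀ y ∈ A, y ∉ X → y ∉ Rv p → (y, A) ∈ N))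

variable {F : Finset (Finset V)} {C : Finset V → Finset V} {w h τ : ℕ} {X O : Finset V}
  {p : V → V} {N N' : Set (V × Finset V)}

lemma Inv2.p_mem (hI : Inv2 F C w h τ X O p N) {x : V} (hx : x ∈ Rv p) : p x ∈ Rv p := by
  rw [mem_Rv] at hx ⊢
  rw [hI.invol]
  exact fun h => hx h.symm

/-- Additional points of the second player do no harm. -/
lemma Inv2.insert_O (hI : Inv2 F C w h τ X O p N) {y : V} (hy : y ∉ X) :
    Inv2 F C w h τ X (insert y O) p N where
  disj := by
    rw [Finset.disjoint_insert_right]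
    exact ⟨hy, hI.disj⟩
  invol := hI.invol
  pair := fun x hx hX => Finset.mem_insert_of_mem (hI.pair x hx hX)
  owner := hI.owner
  uniq := hI.uniq
  undecl := fun A hA hd hn => hI.undecl A hA (Disjoint.mono_right (Finset.subset_insert y O) hd) hn

/-- The first player takes a reserved point and the second player owns the other one. -/
lemma Inv2.insert_X (hI : Inv2 F C w h τ X O p N) {v : V} (hv : v ∈ Rv p) (hvO : v ∉ O)
    (hp : p v ∈ O) : Inv2 F C w h τ (insert v X) O p N := by
  have h1 : insert v X \ Rv p = X \ Rv p := by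
    ext z
    simp only [Finset.mem_sdiff, Finset.mem_insert]
    constructor
    · rintro ⟨rfl | h2, h3⟩
      · exact (h3 hv).elim
      · exact ⟨h2, h3⟩
    · rintro ⟨h2, h3⟩
      exact ⟨Or.inr h2, h3⟩
  refine ⟨?_, hI.invol, ?_, ?_, hI.uniq, ?_⟩
  · rw [Finset.disjoint_insert_left]
    exact ⟨hvO, hI.disj⟩
  · intro x hx hX
    rw [Finset.mem_insert] at hX
    rcases hX with rfl | hX
    · exact hp
    · exact hI.pair x hx hX
  · rw [h1]
    exact hI.owner
  · rw [h1]
    intro A hA hd hn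
    obtain ⟨h2, h3⟩ := hI.undecl A hA hd hn
    refine ⟨h2, ?_⟩
    rcases h3 with h3 | ⟨h3, h4⟩
    · exact Or.inl h3
    · exact Or.inr ⟨h3, fun y hy hyX hyR =>
        h4 y hy (fun h5 => hyX (Finset.mem_insert_of_mem h5)) hyR⟩

/-- The first player does not own a set of the family. -/
lemma Inv2.not_own (hI : Inv2 F C w h τ X O p N) (hw : 1 ≤ w) (hτ : w + h < τ) {v : V}
    (hvO : v ∉ O) {A : Finset V} (hA : A ∈ F) (hsub : A ⊆ insert v X) : False := by
  have hAO : Disjoint A O := by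
    refine Disjoint.mono_left hsub ?_
    rw [Finset.disjoint_insert_left]
    exact ⟨hvO, hI.disj⟩
  by_cases hnp : NoPair p A
  · obtain ⟨h1, h2⟩ := hI.undecl A hA hAO hnp
    have h2' : w + h < (A \ (X \ Rv p)).card := by
      rcases h2 with h2 | h2
      · exact hτ.trans h2.1
      · exact h2.1
    have h3 : A \ (X \ Rv p) ⊆ insert v (A ∩ Rv p) := by
      intro z hz
      rw [Finset.mem_sdiff, Finset.mem_sdiff] at hz
      rw [Finset.mem_insert, Finset.mem_inter]
      have h4 := hsub hz.1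
      rw [Finset.mem_insert] at h4
      rcases h4 with h4 | h4
      · exact Or.inl h4
      · refine Or.inr ⟨hz.1, ?_⟩
        by_contra h5
        exact hz.2 ⟨h4, h5⟩
    have h4 := Finset.card_le_card h3
    have h5 := Finset.card_insert_le v (A ∩ Rv p)
    omega
  · unfold NoPair at hnp
    push Not at hnp
    obtain ⟨x, hxA, hxR, hpA⟩ := hnp
    have hne := mem_Rv.1 hxR
    have h1 : ∀ z ∈ A, z ∉ O := fun z hz => Finset.disjoint_left.1 hAO hz
    have h2 := hsub hxA
    have h3 := hsub hpA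
    rw [Finset.mem_insert] at h2 h3
    rcases h2 with h2 | h2
    · rcases h3 with h3 | h3
      · exact hne (h3.trans h2.symm)
      · have h4 := hI.pair (p x) (hI.p_mem hxR) h3
        rw [hI.invol] at h4
        exact h1 x hxA h4
    · exact h1 (p x) hpA (hI.pair x hxR h2)

/-- Reserve a pair in each set of the batch `Ba`. -/
lemma Inv2.reserve (hF : Sys F) (hI : Inv2 F C w h τ X O p N) (hN : N ⊆ N') {v : V}
    (hvO : v ∉ O) (hvR : v ∉ Rv p) (Ba : Finset V → Prop)
    (hBa : ∀ A, Ba A → A ∈ F ∧ v ∈ A ∧ NoPair p A) (a b : Finset V → V)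
    (ha : ∀ A, Ba A → Good F h (insert v X) O p A (a A))
    (hb : ∀ A, Ba A → Good F h (insert v X) O p A (b A))
    (hab : ∀ A, Ba A → a A ≠ b A)
    (htype : ∀ A, Ba A → ∀ x, x = a A ∨ x = b A →
      ((x ∈ C A ∧ (A \ (insert v X \ Rv p)).card ≤ τ) ∨
        ((x, A) ∈ N' ∧ (A \ (insert v X \ Rv p)).card ≤ w + h)))
    (hund : ∀ A ∈ F, Disjoint A O → NoPair p A → ¬ Ba A →
      ((τ < (A \ (insert v X \ Rv p)).card ∧ w + h < (C A \ (insert v X \ Rv p)).card) ∨
      (w + h < (A \ (insert v X \ Rv p)).card ∧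
        ∀ y ∈ A, y ∉ insert v X → y ∉ Rv p → (y, A) ∈ N'))) :
    ∃ p' : V → V, Rv p ⊆ Rv p' ∧ (∀ x ∈ Rv p', x ∉ Rv p → x ∉ insert v X ∧ x ∉ O) ∧
      Inv2 F C w h τ (insert v X) O p' N' := by
  classical
  set NN : Finset V → V → Prop := fun A x => Ba A ∧ (x = a A ∨ x = b A) with hNN
  have hNG : ∀ A x, NN A x → Good F h (insert v X) O p A x := by
    rintro A x ⟨h1, rfl | rfl⟩
    · exact ha A h1
    · exact hb A h1
  have hNv : ∀ A x, NN A x → x ≠ v := by
    rintro A x hx rfl
    exact (hNG A x hx).nX (Finset.mem_insert_self _ _)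
  have huni : ∀ A A' x, NN A x → NN A' x → A = A' := by
    intro A A' x hx hx'
    exact hF.lin A (hBa A hx.1).1 A' (hBa A' hx'.1).1 x v (hNv A x hx) (hNG A x hx).mem
      (hBa A hx.1).2.1 (hNG A' x hx').mem (hBa A' hx'.1).2.1
  set p' : V → V := fun x => if hx : ∃ A, NN A x then
    (if x = a (Classical.choose hx) then b (Classical.choose hx) else a (Classical.choose hx))
    else p x with hp'
  have hpa : ∀ A, Ba A → p' (a A) = b A := by
    intro A hA
    have h1 : ∃ A', NN A' (a A) := ⟨A, hA, Or.inl rfl⟩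
    have h2 : Classical.choose h1 = A := huni _ _ _ (Classical.choose_spec h1) ⟨hA, Or.inl rfl⟩
    simp only [hp']
    rw [dif_pos h1, h2, if_pos rfl]
  have hpb : ∀ A, Ba A → p' (b A) = a A := by
    intro A hA
    have h1 : ∃ A', NN A' (b A) := ⟨A, hA, Or.inr rfl⟩
    have h2 : Classical.choose h1 = A := huni _ _ _ (Classical.choose_spec h1) ⟨hA, Or.inr rfl⟩
    simp only [hp']
    rw [dif_pos h1, h2, if_neg (hab A hA).symm]
  have hpo : ∀ x, (¬ ∃ A, NN A x) → p' x = p x := by
    intro x hx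
    simp only [hp']
    rw [dif_neg hx]
  have hRN : ∀ x ∈ Rv p, ¬ ∃ A, NN A x := by
    rintro x hx ⟨A, hA⟩
    exact (hNG A x hA).nR hx
  have hR1 : ∀ x ∈ Rv p, x ∈ Rv p' := by
    intro x hx
    rw [mem_Rv, hpo x (hRN x hx)]
    exact mem_Rv.1 hx
  have hR2 : ∀ A x, NN A x → x ∈ Rv p' := by
    rintro A x ⟨hA, rfl | rfl⟩
    · rw [mem_Rv, hpa A hA]
      exact (hab A hA).symm
    · rw [mem_Rv, hpb A hA]
      exact hab A hA
  have hR3 : ∀ x ∈ Rv p', x ∈ Rv p ∨ ∃ A, NN A x := by
    intro x hx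
    by_cases h1 : ∃ A, NN A x
    · exact Or.inr h1
    · left
      rw [mem_Rv] at hx ⊢
      rwa [hpo x h1] at hx
  have hNp : ∀ A x, NN A x → p' x ∈ A := by
    rintro A x ⟨hA, rfl | rfl⟩
    · rw [hpa A hA]
      exact (hb A hA).mem
    · rw [hpb A hA]
      exact (ha A hA).mem
  -- the points of the first player outside the reserved points
  have hM : insert v X \ Rv p' = insert v X \ Rv p := by
    ext z
    rw [Finset.mem_sdiff, Finset.mem_sdiff]
    constructor
    · rintro ⟨h1, h2⟩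
      exact ⟨h1, fun h3 => h2 (hR1 z h3)⟩
    · rintro ⟨h1, h2⟩
      refine ⟨h1, fun h3 => ?_⟩
      rcases hR3 z h3 with h4 | ⟨A, hA⟩
      · exact h2 h4
      · exact (hNG A z hA).nX h1
  have hM2 : X \ Rv p ⊆ insert v X \ Rv p := by
    intro z hz
    rw [Finset.mem_sdiff] at hz ⊢
    exact ⟨Finset.mem_insert_of_mem hz.1, hz.2⟩
  -- a set which contains a new pair
  have hpairA : ∀ A x, NN A x → ∀ G ∈ F, x ∈ G → p' x ∈ G → G = A := by
    intro A x hx G hG h1 h2
    exact hF.lin G hG A (hBa A hx.1).1 x (p' x) (Ne.symm (mem_Rv.1 (hR2 A x hx))) h1 h2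
      (hNG A x hx).mem (hNp A x hx)
  refine ⟨p', hR1, ?_, ⟨?_, ?_, ?_, ?_, ?_, ?_⟩⟩
  · intro x hx hxR
    rcases hR3 x hx with h1 | ⟨A, hA⟩
    · exact (hxR h1).elim
    · exact ⟨(hNG A x hA).nX, (hNG A x hA).nO⟩
  · rw [Finset.disjoint_insert_left]
    exact ⟨hvO, hI.disj⟩
  · intro x
    by_cases h1 : ∃ A, NN A x
    · obtain ⟨A, hA, rfl | rfl⟩ := h1
      · rw [hpa A hA, hpb A hA]
      · rw [hpb A hA, hpa A hA]
    · rw [hpo x h1]
      by_cases h2 : x ∈ Rv p
      · rw [hpo _ (hRN _ (hI.p_mem h2)), hI.invol]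
      · rw [mem_Rv, not_not] at h2
        rw [h2, hpo x h1, h2]
  · intro x hx hxX
    rcases hR3 x hx with h1 | ⟨A, hA⟩
    · rw [hpo x (hRN x h1)]
      apply hI.pair x h1
      rcases Finset.mem_insert.1 hxX with rfl | h2
      · exact (hvR h1).elim
      · exact h2
    · exact ((hNG A x hA).nX hxX).elim
  · intro x hx
    rw [hM]
    rcases hR3 x hx with h1 | ⟨A, hA⟩
    · obtain ⟨G, hG, h2, h3, h4⟩ := hI.owner x h1
      refine ⟨G, hG, h2, ?_, ?_⟩
      · rw [hpo x (hRN x h1)]
        exact h3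
      · have h5 := Finset.card_le_card
          (Finset.sdiff_subset_sdiff (Finset.Subset.refl G) hM2)
        rcases h4 with ⟨h6, h7⟩ | ⟨h6, h7⟩
        · exact Or.inl ⟨h6, h5.trans h7⟩
        · exact Or.inr ⟨hN h6, h5.trans h7⟩
    · exact ⟨A, (hBa A hA.1).1, (hNG A x hA).mem, hNp A x hA, htype A hA.1 x hA.2⟩
  · intro G hG x hx y hy hxG hpxG hyG hpyG
    rcases hR3 x hx with h1 | ⟨A, hA⟩
    · rw [hpo x (hRN x h1)] at hpxG ⊢
      rcases hR3 y hy with h2 | ⟨A', hA'⟩
      · rw [hpo y (hRN y h2)] at hpyG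
        exact hI.uniq G hG x h1 y h2 hxG hpxG hyG hpyG
      · have h3 := hpairA A' y hA' G hG hyG hpyG
        subst h3
        exact ((hBa G hA'.1).2.2 x hxG h1 hpxG).elim
    · have h3 := hpairA A x hA G hG hxG hpxG
      subst h3
      rcases hR3 y hy with h2 | ⟨A', hA'⟩
      · rw [hpo y (hRN y h2)] at hpyG
        exact ((hBa G hA.1).2.2 y hyG h2 hpyG).elim
      · have h4 := hpairA A' y hA' G hG hyG hpyG
        subst h4
        obtain ⟨h5, h6 | h6⟩ := hA
        · obtain ⟨h7, h8 | h8⟩ := hA'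
          · exact Or.inl (h8.trans h6.symm)
          · right
            rw [h6, hpa G h5, h8]
        · obtain ⟨h7, h8 | h8⟩ := hA'
          · right
            rw [h6, hpb G h5, h8]
          · exact Or.inl (h8.trans h6.symm)
  · intro A hA hAO hnp
    rw [hM]
    have hnp0 : NoPair p A := by
      intro x hxA hxR hpx
      apply hnp x hxA (hR1 x hxR)
      rw [hpo x (hRN x hxR)]
      exact hpx
    obtain ⟨h1, -⟩ := hI.undecl A hA hAO hnp0
    have hnb : ¬ Ba A := by
      intro hB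
      apply hnp (a A) (ha A hB).mem (hR2 A (a A) ⟨hB, Or.inl rfl⟩)
      rw [hpa A hB]
      exact (hb A hB).mem
    constructor
    · -- the reserved points
      by_cases hex : ∃ x ∈ A, ∃ A', NN A' x
      · obtain ⟨x, hxA, A', hA'⟩ := hex
        have hne : A ≠ A' := by
          rintro rfl
          exact hnb hA'.1
        have h3 := (hNG A' x hA').good A hA hne hxA hAO hnp0
        have hvA : v ∉ A := by
          intro h4
          exact hne (hF.lin A hA A' (hBa A' hA'.1).1 x v (hNv A' x hA') hxA h4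
            (hNG A' x hA').mem (hBa A' hA'.1).2.1)
        have h5 : ((A ∩ Rv p').filter fun y => ∃ A', NN A' y).card ≤ 2 := by
          refine le_trans ?_ (hF.tri A hA v hvA)
          apply Finset.card_le_card_of_injOn
            (fun y => if hy : ∃ A', NN A' y then Classical.choose hy else ∅)
          · intro y hy
            rw [Finset.mem_coe, Finset.mem_filter, Finset.mem_inter] at hy
            obtain ⟨⟨h6, -⟩, h7⟩ := hy
            have h8 := Classical.choose_spec h7
            simp only [dif_pos h7]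
            rw [Finset.mem_coe, Finset.mem_filter]
            refine ⟨(hBa _ h8.1).1, (hBa _ h8.1).2.1, ?_⟩
            rw [Finset.not_disjoint_iff]
            exact ⟨y, (hNG _ y h8).mem, h6⟩
          · intro y hy y' hy' he
            rw [Finset.mem_coe, Finset.mem_filter, Finset.mem_inter] at hy hy'
            obtain ⟨⟨h6, -⟩, h7⟩ := hy
            obtain ⟨⟨h6', -⟩, h7'⟩ := hy'
            simp only [dif_pos h7, dif_pos h7'] at he
            have h8 := Classical.choose_spec h7
            have h8' := Classical.choose_spec h7'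
            rw [← he] at h8'
            by_contra hyy
            have h9 := hF.lin _ (hBa _ h8.1).1 A hA y y' hyy (hNG _ y h8).mem (hNG _ y' h8').mem
              h6 h6'
            rw [h9] at h8
            exact hnb h8.1
        have h6 : A ∩ Rv p' ⊆ (A ∩ Rv p) ∪ ((A ∩ Rv p').filter fun y => ∃ A', NN A' y) := by
          intro y hy
          rw [Finset.mem_union, Finset.mem_filter, Finset.mem_inter]
          rcases hR3 y (Finset.mem_inter.1 hy).2 with h7 | h7
          · exact Or.inl ⟨(Finset.mem_inter.1 hy).1, h7⟩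
          · exact Or.inr ⟨hy, h7⟩
        have h7 := Finset.card_le_card h6
        have h8 := Finset.card_union_le (A ∩ Rv p) ((A ∩ Rv p').filter fun y => ∃ A', NN A' y)
        omega
      · refine le_trans (Finset.card_le_card ?_) h1
        intro y hy
        rw [Finset.mem_inter] at hy ⊢
        refine ⟨hy.1, ?_⟩
        rcases hR3 y hy.2 with h7 | h7
        · exact h7
        · exact (hex ⟨y, hy.1, h7⟩).elim
    · rcases hund A hA hAO hnp0 hnb with h2 | ⟨h2, h3⟩
      · exact Or.inl h2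
      · exact Or.inr ⟨h2, fun y hy hyX hyR => h3 y hy hyX fun h4 => hyR (hR1 y h4)⟩

/-! ### The sets which change their status when the first player takes `v` -/

/-- A normal set. -/
def Normal (F : Finset (Finset V)) (C : Finset V → Finset V) (w h τ : ℕ) (X O : Finset V)
    (p : V → V) (v : V) (A : Finset V) : Prop :=
  A ∈ F ∧ v ∈ A ∧ Disjoint A O ∧ NoPair p A ∧ τ < (A \ (X \ Rv p)).card ∧
    w + h < (C A \ (X \ Rv p)).card

/-- The sets which become activated. -/
def Act (F : Finset (Finset V)) (C : Finset V → Finset V) (w h τ : ℕ) (X O : Finset V)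
    (p : V → V) (v : V) (A : Finset V) : Prop :=
  Normal F C w h τ X O p v A ∧ (C A \ (insert v X \ Rv p)).card ≤ w + h

/-- The sets which are declared by the first rule. -/
def D1 (F : Finset (Finset V)) (C : Finset V → Finset V) (w h τ : ℕ) (X O : Finset V)
    (p : V → V) (v : V) (A : Finset V) : Prop :=
  Normal F C w h τ X O p v A ∧ w + h < (C A \ (insert v X \ Rv p)).card ∧
    (A \ (insert v X \ Rv p)).card ≤ τ

/-- The sets which are declared by the second rule. -/
def D2 (F : Finset (Finset V)) (w h : ℕ) (X O : Finset V)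
    (p : V → V) (N : Set (V × Finset V)) (v : V) (A : Finset V) : Prop :=
  A ∈ F ∧ v ∈ A ∧ Disjoint A O ∧ NoPair p A ∧ w + h < (A \ (X \ Rv p)).card ∧
    (∀ y ∈ A, y ∉ X → y ∉ Rv p → (y, A) ∈ N) ∧ (A \ (insert v X \ Rv p)).card ≤ w + h

/-- The new counted pairs. -/
def newN (F : Finset (Finset V)) (C : Finset V → Finset V) (w h τ : ℕ) (X O : Finset V)
    (p : V → V) (N : Set (V × Finset V)) (v : V) : Set (V × Finset V) :=
  N ∪ {z | Act F C w h τ X O p v z.2 ∧ z.1 ∈ z.2 ∧ z.1 ∉ insert v X ∧ z.1 ∉ Rv p}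

lemma sdiff_not_mem {A : Finset V} {v : V} (hv : v ∉ A) (R : Finset V) :
    A \ (insert v X \ R) = A \ (X \ R) := by
  ext z
  simp only [Finset.mem_sdiff, Finset.mem_insert]
  constructor
  · rintro ⟨h4, h5⟩
    exact ⟨h4, fun h6 => h5 ⟨Or.inr h6.1, h6.2⟩⟩
  · rintro ⟨h4, h5⟩
    refine ⟨h4, ?_⟩
    rintro ⟨rfl | h6, h7⟩
    · exact hv h4
    · exact h5 ⟨h6, h7⟩

lemma card_sdiff_insert (A : Finset V) (v : V) (R : Finset V) :
    (A \ (X \ R)).card ≤ (A \ (insert v X \ R)).card + 1 := by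
  have h1 : A \ (X \ R) ⊆ insert v (A \ (insert v X \ R)) := by
    intro z hz
    rw [Finset.mem_sdiff, Finset.mem_sdiff] at hz
    rw [Finset.mem_insert, Finset.mem_sdiff, Finset.mem_sdiff, Finset.mem_insert]
    by_cases hzv : z = v
    · exact Or.inl hzv
    · refine Or.inr ⟨hz.1, ?_⟩
      rintro ⟨h2 | h2, h3⟩
      · exact hzv h2
      · exact hz.2 ⟨h2, h3⟩
  exact (Finset.card_le_card h1).trans (Finset.card_insert_le _ _)

/-- The status of the sets which are not declared. -/
lemma Inv2.und_step (hI : Inv2 F C w h τ X O p N) (hC : ∀ A ∈ F, C A ⊆ A) (hτ : w + h < τ)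
    {v : V} {A : Finset V} (hA : A ∈ F) (hAO : Disjoint A O) (hnp : NoPair p A)
    (hnd : ¬ (D1 F C w h τ X O p v A ∨ D2 F w h X O p N v A)) :
    ((τ < (A \ (insert v X \ Rv p)).card ∧ w + h < (C A \ (insert v X \ Rv p)).card) ∨
      (w + h < (A \ (insert v X \ Rv p)).card ∧
        ∀ y ∈ A, y ∉ insert v X → y ∉ Rv p → (y, A) ∈ newN F C w h τ X O p N v)) := by
  rw [not_or] at hnd
  obtain ⟨hn1, hn2⟩ := hnd
  obtain ⟨-, h2⟩ := hI.undecl A hA hAO hnp
  by_cases hvA : v ∈ A
  · rcases h2 with ⟨h2, h3⟩ | ⟨h2, h3⟩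
    · have hnor : Normal F C w h τ X O p v A := ⟨hA, hvA, hAO, hnp, h2, h3⟩
      by_cases h4 : (C A \ (insert v X \ Rv p)).card ≤ w + h
      · right
        have h5 := card_sdiff_insert (X := X) A v (Rv p)
        refine ⟨by omega, fun y hy hyX hyR => ?_⟩
        exact Or.inr ⟨⟨hnor, h4⟩, hy, hyX, hyR⟩
      · left
        rw [not_le] at h4
        refine ⟨?_, h4⟩
        by_contra h5
        rw [not_lt] at h5
        exact hn1 ⟨hnor, h4, h5⟩
    · right
      constructor
      · by_contra h4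
        rw [not_lt] at h4
        exact hn2 ⟨hA, hvA, hAO, hnp, h2, h3, h4⟩
      · intro y hy hyX hyR
        exact Or.inl (h3 y hy (fun h5 => hyX (Finset.mem_insert_of_mem h5)) hyR)
  · have hvC : v ∉ C A := fun h4 => hvA (hC A hA h4)
    rw [sdiff_not_mem hvA, sdiff_not_mem hvC]
    rcases h2 with h2 | ⟨h2, h3⟩
    · exact Or.inl h2
    · right
      refine ⟨h2, fun y hy hyX hyR => ?_⟩
      exact Or.inl (h3 y hy (fun h5 => hyX (Finset.mem_insert_of_mem h5)) hyR)

end WWX
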