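import Mathlib
import Pool.Agent.WW.Defs
import Pool.Agent.WWX.Star
import Pool.Agent.WWX.Heavy
import Pool.Agent.WWX.Strat

/-!
The second player prevents the first player from owning a set of the family.
-/

set_option autoImplicit false

namespace WWX

open Finset WWL

variable {V : Type} [DecidableEq V] [Fintype V]

/-- The parameters of the strategy. -/
structure Par2 (F : Finset (Finset V)) (C : Finset V → Finset V) (n w h s r m q τ : ℕ)
    (t : ℝ) (lam : Bool → ℝ) (η bd ls : ℝ) : Prop where
  sys : Sys F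
  hC : ∀ A ∈ F, C A ⊆ A
  hn : ∀ K ∈ F, K.card ≤ n
  hw : 1 ≤ w
  hm : 0 < m
  hq : 4 * (s + r) ≤ q
  hcomb : 4 * (m * (r * n) * ((s + 1) * s + 2 * (m * (r * n)))) <
      (w - m) * (h - r) * ((s + 1) * ((s + 1) * s))
  hτ : w + h < τ
  h0 : 0 < t
  h1 : t < 1 / 2
  hlam : ∀ b, 0 ≤ lam b
  hη0 : 0 ≤ η
  hη1 : η ≤ lam true * t ^ τ
  hη2 : η ≤ lam false * t ^ (w + h)
  hbd : ∀ j, m * r ≤ 2 * j → bd ≤ η ^ j
  hls : 0 < ls
  hΓ : 4 * ((m * r : ℕ) : ℝ) * (lam false * (t⁻¹) ^ q * (n * ((1 / 2 + t) ^ τ *
    Real.logb 2 (bd / ls)))) ≤ 2 * t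

variable {F : Finset (Finset V)} {C : Finset V → Finset V} {n w h s r m q τ : ℕ}
  {t : ℝ} {lam : Bool → ℝ} {η bd ls : ℝ} {X O : Finset V} {p : V → V} {N N' : Set (V × Finset V)}
  {D D' E E' : Finset V}

/-- The total potential. -/
noncomputable def PP (t : ℝ) (lam : Bool → ℝ) (F : Finset (Finset V)) (C : Finset V → Finset V)
    (q m r τ : ℕ) (ls : ℝ) (N : Set (V × Finset V)) (X D E : Finset V) : ℝ :=
  Pot t (confI (YYs F m r) F C q N) confW confY (confc lam) X D E +
    Pot t (starI F C) starW starY (starc ls ((1 / 2 + t) ^ τ)⁻¹) X D E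

/-- The total loss if `v` becomes dead. -/
noncomputable def KK (t : ℝ) (lam : Bool → ℝ) (F : Finset (Finset V)) (C : Finset V → Finset V)
    (q m r τ : ℕ) (ls : ℝ) (N : Set (V × Finset V)) (X D E : Finset V) (v : V) : ℝ :=
  kill t (confI (YYs F m r) F C q N) confW confY (confc lam) X D E v +
    kill t (starI F C) starW starY (starc ls ((1 / 2 + t) ^ τ)⁻¹) X D E v

/-- No single move of the first player brings the potential to `bd`. -/
def SafeT (t : ℝ) (lam : Bool → ℝ) (F : Finset (Finset V)) (C : Finset V → Finset V)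
    (q m r τ : ℕ) (ls bd : ℝ) (N : Set (V × Finset V)) (X D E : Finset V) : Prop :=
  ∀ v, v ∉ X → v ∉ D → PP t lam F C q m r τ ls N X D E + KK t lam F C q m r τ ls N X D E v < bd

section Basic

lemma c1 (hP : Par2 F C n w h s r m q τ t lam η bd ls) :
    ∀ z ∈ confI (YYs F m r) F C q N, 0 ≤ confc lam z := fun z _ => confc_nonneg hP.hlam z

lemma c2 (hP : Par2 F C n w h s r m q τ t lam η bd ls) :
    ∀ z ∈ starI F C, 0 ≤ starc ls ((1 / 2 + t) ^ τ)⁻¹ z := fun z _ => by
  have h0 := hP.h0
  exact starc_nonneg hP.hls.le (by positivity) z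

lemma KK_nonneg (hP : Par2 F C n w h s r m q τ t lam η bd ls) (v : V) :
    0 ≤ KK t lam F C q m r τ ls N X D E v :=
  add_nonneg (kill_nonneg hP.h0 hP.h1 (c1 hP) v) (kill_nonneg hP.h0 hP.h1 (c2 hP) v)

lemma KK_le_PP (hP : Par2 F C n w h s r m q τ t lam η bd ls) (v : V) :
    KK t lam F C q m r τ ls N X D E v ≤ PP t lam F C q m r τ ls N X D E :=
  add_le_add (kill_le_Pot hP.h0 hP.h1 (c1 hP) v) (kill_le_Pot hP.h0 hP.h1 (c2 hP) v)

lemma PP_mono (hP : Par2 F C n w h s r m q τ t lam η bd ls) (hD : D ⊆ D') (hE : E ⊆ E') :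
    PP t lam F C q m r τ ls N X D' E' ≤ PP t lam F C q m r τ ls N X D E :=
  add_le_add (Pot_mono hP.h0 hP.h1 (c1 hP) hD hE) (Pot_mono hP.h0 hP.h1 (c2 hP) hD hE)

lemma KK_mono (hP : Par2 F C n w h s r m q τ t lam η bd ls) (hD : D ⊆ D') (hE : E ⊆ E') (v : V) :
    KK t lam F C q m r τ ls N X D' E' v ≤ KK t lam F C q m r τ ls N X D E v :=
  add_le_add (kill_mono hP.h0 hP.h1 (c1 hP) hD hE v) (kill_mono hP.h0 hP.h1 (c2 hP) hD hE v)

lemma PP_insert_D (hP : Par2 F C n w h s r m q τ t lam η bd ls) {v : V} (hX : v ∉ X)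
    (hD : v ∉ D) : PP t lam F C q m r τ ls N X (insert v D) (insert v E) =
      PP t lam F C q m r τ ls N X D E - KK t lam F C q m r τ ls N X D E v := by
  unfold PP KK
  rw [Pot_insert_D hP.h0 hX hD, Pot_insert_D hP.h0 hX hD]
  ring

lemma PP_insert_dead {v : V} (hv : v ∈ D) :
    PP t lam F C q m r τ ls N (insert v X) D E = PP t lam F C q m r τ ls N X D E := by
  unfold PP
  rw [Pot_insert_dead hv, Pot_insert_dead hv]

lemma KK_insert_dead {v : V} (hv : v ∈ D) (z : V) :
    KK t lam F C q m r τ ls N (insert v X) D E z = KK t lam F C q m r τ ls N X D E z := by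
  unfold KK
  rw [kill_insert_dead hv, kill_insert_dead hv]

lemma SafeT.mono (hP : Par2 F C n w h s r m q τ t lam η bd ls)
    (hS : SafeT t lam F C q m r τ ls bd N X D E) (hD : D ⊆ D') (hE : E ⊆ E') :
    SafeT t lam F C q m r τ ls bd N X D' E' := by
  intro v hX hvD
  have h1 := hS v hX (fun h2 => hvD (hD h2))
  have h2 := PP_mono (N := N) (X := X) hP hD hE
  have h3 := KK_mono (N := N) (X := X) hP hD hE v
  linarith

lemma SafeT.dead {v : V} (hS : SafeT t lam F C q m r τ ls bd N X D E) (hv : v ∈ D) :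
    SafeT t lam F C q m r τ ls bd N (insert v X) D E := by
  intro z hX hzD
  rw [PP_insert_dead hv, KK_insert_dead hv]
  exact hS z (fun h1 => hX (Finset.mem_insert_of_mem h1)) hzD

lemma safeT_reply (hP : Par2 F C n w h s r m q τ t lam η bd ls)
    (hPP : PP t lam F C q m r τ ls N X D E < bd) {y : V} (hyX : y ∉ X) (hyD : y ∉ D)
    (hmax : ∀ z, z ∉ X → z ∉ D →
      KK t lam F C q m r τ ls N X D E z ≤ KK t lam F C q m r τ ls N X D E y) :
    SafeT t lam F C q m r τ ls bd N X (insert y D) (insert y E) := by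
  intro v hvX hvD
  rw [PP_insert_D hP hyX hyD]
  have h1 := KK_mono (N := N) (X := X) hP (Finset.subset_insert y D) (Finset.subset_insert y E) v
  have h2 := hmax v hvX (fun h3 => hvD (Finset.mem_insert_of_mem h3))
  linarith

end Basic

lemma sdiff_dead (hd : Disjoint X O) (R : Finset V) : X \ (O ∪ R) = X \ R := by
  ext z
  simp only [Finset.mem_sdiff, Finset.mem_union]
  constructor
  · rintro ⟨h1, h2⟩
    exact ⟨h1, fun h3 => h2 (Or.inr h3)⟩
  · rintro ⟨h1, h2⟩
    refine ⟨h1, ?_⟩
    rintro (h3 | h3)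
    · exact Finset.disjoint_left.1 hd h1 h3
    · exact h2 h3

/-- The total weight of the new factors is small. -/
lemma sum_gam (hP : Par2 F C n w h s r m q τ t lam η bd ls)
    (hI : Inv2 F C w h τ X O p N) {v : V} (hX : v ∉ X) (hO : v ∉ O) (hR : v ∉ Rv p)
    (hPP : PP t lam F C q m r τ ls N X (O ∪ Rv p) E < bd) (Zf : Finset V) :
    ∑ z ∈ Zf, gam t lam F q N (newN F C w h τ X O p N v) (insert v X) (O ∪ Rv p) z ≤
      lam false * (t⁻¹) ^ q * (n * ((1 / 2 + t) ^ τ * Real.logb 2 (bd / ls))) := by
  classical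
  have h0 := hP.h0
  have h1 := hP.h1
  have hlamf := hP.hlam false
  set D : Finset V := O ∪ Rv p with hD
  have hvD : v ∉ D := by
    rw [hD, Finset.mem_union]
    tauto
  set Ac : Finset (Finset V) := F.filter fun G => Act F C w h τ X O p v G with hAc
  have hom : ∀ G ∈ Ac, om t (insert v X) D G = om t X D (G.erase v) := by
    intro G hG
    rw [hAc, Finset.mem_filter] at hG
    have hvG : v ∈ G := hG.2.1.2.1
    have h2 := om_insert_X (S := G) h0 hX hvD hvG (t := t)
    have h3 : om t X D G = (1 / 2 + t) * om t X D (G.erase v) := by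
      unfold om
      rw [← Finset.mul_prod_erase G _ hvG]
      congr 1
      simp [aw, hX, hvD]
    rw [h3, mul_comm] at h2
    have hpos : 0 < 1 / 2 + t := by linarith
    exact mul_left_cancel₀ hpos.ne' h2
  -- change the order of summation
  have e1 : ∑ z ∈ Zf, gam t lam F q N (newN F C w h τ X O p N v) (insert v X) D z ≤
      ∑ G ∈ Ac, n * (lam false * (t⁻¹) ^ q * om t X D (G.erase v)) := by
    calc ∑ z ∈ Zf, gam t lam F q N (newN F C w h τ X O p N v) (insert v X) D z
        ≤ ∑ z ∈ Zf, ∑ G ∈ Ac, if z ∈ G then lam false * (t⁻¹) ^ q * om t X D (G.erase v)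
            else 0 := by
          apply Finset.sum_le_sum
          intro z _
          unfold gam
          rw [← Finset.sum_filter]
          have h5 : (F.filter fun G => (z, G) ∈ newN F C w h τ X O p N v ∧ (z, G) ∉ N) ⊆
              Ac.filter fun G => z ∈ G := by
            intro G hG
            rw [Finset.mem_filter] at hG
            obtain ⟨h6, h7, h8⟩ := hG
            rcases h7 with h7 | h7
            · exact absurd h7 h8
            · rw [Finset.mem_filter, hAc, Finset.mem_filter]
              exact ⟨⟨h6, h7.1⟩, h7.2.1⟩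
          calc ∑ G ∈ F.filter (fun G => (z, G) ∈ newN F C w h τ X O p N v ∧ (z, G) ∉ N),
                lam false * (t⁻¹) ^ q * om t (insert v X) D G
              ≤ ∑ G ∈ Ac.filter (fun G => z ∈ G), lam false * (t⁻¹) ^ q * om t (insert v X) D G := by
                apply Finset.sum_le_sum_of_subset_of_nonneg h5
                intro G _ _
                have := (om_pos (X := insert v X) (D := D) (S := G) h0 h1).le
                positivity
            _ = ∑ G ∈ Ac.filter (fun G => z ∈ G), lam false * (t⁻¹) ^ q * om t X D (G.erase v) := by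
                apply Finset.sum_congr rfl
                intro G hG
                rw [hom G (Finset.mem_filter.1 hG).1]
      _ = ∑ G ∈ Ac, ∑ z ∈ Zf, if z ∈ G then lam false * (t⁻¹) ^ q * om t X D (G.erase v)
            else 0 := Finset.sum_comm
      _ ≤ _ := by
          apply Finset.sum_le_sum
          intro G hG
          rw [← Finset.sum_filter, Finset.sum_const, nsmul_eq_mul]
          apply mul_le_mul_of_nonneg_right
          · have h6 : (Zf.filter fun z => z ∈ G).card ≤ n := by
              refine (Finset.card_le_card ?_).trans (hP.hn G (Finset.mem_filter.1 hG).1)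
              intro z hz
              exact (Finset.mem_filter.1 hz).2
            exact_mod_cast h6
          · have := (om_pos (X := X) (D := D) (S := G.erase v) h0 h1).le
            positivity
  have hstar : Pot t (starI F C) starW starY (starc ls ((1 / 2 + t) ^ τ)⁻¹) X D E < bd := by
    have h2 : 0 ≤ Pot t (confI (YYs F m r) F C q N) confW confY (confc lam) X D E :=
      Pot_nonneg h0 h1 (c1 hP)
    unfold PP at hPP
    linarith
  have e2 := star_control hP.sys hP.hC h0 h1 hP.hls (by positivity) hstar v Ac (by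
    intro G hG
    rw [hAc, Finset.mem_filter] at hG
    obtain ⟨hGF, ⟨-, hvG, hGO, hnp, h3, h4⟩, h5⟩ := hG
    refine ⟨hGF, ?_, ?_⟩
    · by_contra h6
      rw [sdiff_not_mem h6] at h5
      omega
    · apply om_le_pow h0 h1
      rw [hD, sdiff_dead hI.disj]
      have h6 : insert v (G.erase v \ (X \ Rv p)) ⊇ G \ (X \ Rv p) := by
        intro z hz
        rw [Finset.mem_sdiff] at hz
        rw [Finset.mem_insert, Finset.mem_sdiff, Finset.mem_erase]
        by_cases h7 : z = v
        · exact Or.inl h7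
        · exact Or.inr ⟨⟨h7, hz.1⟩, hz.2⟩
      have h7 := Finset.card_le_card h6
      have h8 := Finset.card_insert_le v (G.erase v \ (X \ Rv p))
      omega)
  refine e1.trans ?_
  rw [← Finset.mul_sum, ← Finset.mul_sum]
  have hn0 : (0 : ℝ) ≤ n := Nat.cast_nonneg n
  calc (n : ℝ) * (lam false * (t⁻¹) ^ q * ∑ G ∈ Ac, om t X D (G.erase v))
      ≤ n * (lam false * (t⁻¹) ^ q * ((1 / 2 + t) ^ τ * Real.logb 2 (bd / ls))) := by
        gcongr
    _ = _ := by ring

/-- A move of the first player. -/
lemma PP_step (hP : Par2 F C n w h s r m q τ t lam η bd ls)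
    (hI : Inv2 F C w h τ X O p N) {v : V} (hX : v ∉ X) (hO : v ∉ O) (hR : v ∉ Rv p)
    (hS : SafeT t lam F C q m r τ ls bd N X (O ∪ Rv p) E) :
    PP t lam F C q m r τ ls (newN F C w h τ X O p N v) (insert v X) (O ∪ Rv p) (insert v E) < bd := by
  classical
  have h0 := hP.h0
  have h1 := hP.h1
  set D : Finset V := O ∪ Rv p with hD
  have hvD : v ∉ D := by
    rw [hD, Finset.mem_union]
    tauto
  have hfree : v ∈ ((X ∪ D)ᶜ : Finset V) := by
    rw [Finset.mem_compl, Finset.mem_union]
    tauto
  obtain ⟨z₀, hz₀, hmax⟩ := Finset.exists_max_image ((X ∪ D)ᶜ : Finset V)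
    (fun z => KK t lam F C q m r τ ls N X D E z) ⟨v, hfree⟩
  rw [Finset.mem_compl, Finset.mem_union, not_or] at hz₀
  set K := KK t lam F C q m r τ ls N X D E z₀ with hK
  have hmax' : ∀ z, z ∉ X → z ∉ D → KK t lam F C q m r τ ls N X D E z ≤ K := by
    intro z hzX hzD
    apply hmax
    rw [Finset.mem_compl, Finset.mem_union]
    tauto
  have hK0 : 0 ≤ K := KK_nonneg hP z₀
  have hsafe := hS z₀ hz₀.1 hz₀.2
  have hPP : PP t lam F C q m r τ ls N X D E < bd := by linarith
  have hΓ := sum_gam (E := E) hP hI hX hO hR hPP ((insert v X ∪ D)ᶜ)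
  set Γ : ℝ := lam false * (t⁻¹) ^ q * (n * ((1 / 2 + t) ^ τ * Real.logb 2 (bd / ls))) with hΓd
  have hcardk : (Fintype.card (Fin m × Fin r) : ℝ) = ((m * r : ℕ) : ℝ) := by simp
  have hΓ3 := hP.hΓ
  have e1 := conf_step (YY := YYs F m r) (F := F) (C := C) (q := q) (N := N)
    (N' := newN F C w h τ X O p N v) (E := E) h0 h1 hP.hlam hX hvD
    (Zf := (insert v X ∪ D)ᶜ) (K := K) (Γ := Γ) (by
      intro z hz
      unfold gam
      rw [Finset.filter_false_of_mem, Finset.sum_empty]
      rintro G _ ⟨h5, h6⟩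
      rcases h5 with h5 | h5
      · exact h6 h5
      · obtain ⟨h7, h8, h9, h10⟩ := h5
        apply hz
        rw [Finset.mem_compl, Finset.mem_union, hD, Finset.mem_union]
        have h11 : z ∉ O := Finset.disjoint_left.1 h7.1.2.2.1 h8
        rintro (h12 | h12 | h12)
        · exact h9 h12
        · exact h11 h12
        · exact h10 h12) hK0 (by
      intro z hz
      rw [Finset.mem_compl, Finset.mem_union, not_or, Finset.mem_insert, not_or] at hz
      refine le_trans ?_ (hmax' z hz.1.2 hz.2)
      unfold KK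
      have := kill_nonneg (I := starI F C) (W := starW) (Y := starY)
        (c := starc ls ((1 / 2 + t) ^ τ)⁻¹) (X := X) (D := D) (E := E) h0 h1 (c2 hP) z
      linarith) hΓ (by
      rw [hcardk]
      linarith)
  have e2 := Pot_insert_X (I := starI F C) (W := starW) (Y := starY)
    (c := starc ls ((1 / 2 + t) ^ τ)⁻¹) (X := X) (D := D) (E := E) h0 h1 (c2 hP) hX hvD
  have e3 := hmax' v hX hvD
  rw [hcardk] at e1
  have e4 : 4 * ((m * r : ℕ) : ℝ) * Γ * K ≤ 2 * t * K := mul_le_mul_of_nonneg_right hΓ3 hK0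
  have e5 : (1 - 2 * t) * KK t lam F C q m r τ ls N X D E v ≤ (1 - 2 * t) * K :=
    mul_le_mul_of_nonneg_left e3 (by linarith)
  have e6 : PP t lam F C q m r τ ls (newN F C w h τ X O p N v) (insert v X) D (insert v E) ≤
      PP t lam F C q m r τ ls N X D E + K := by
    unfold PP KK at *
    linarith
  linarith

/-- Each declared set has two good points in `S`. -/
lemma two_good2 (hP : Par2 F C n w h s r m q τ t lam η bd ls)
    (hI : Inv2 F C w h τ X O p N) {v : V} (hvO : v ∉ O)
    (hPP : PP t lam F C q m r τ ls N X (O ∪ Rv p) ((X ∪ O) \ Rv p) < bd) {A S : Finset V}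
    (hAF : A ∈ F) (hAO : Disjoint A O) (hSA : S ⊆ A)
    (hSw : w ≤ (S \ (insert v X ∪ Rv p)).card) :
    ∃ x y, x ≠ y ∧ x ∈ S ∧ y ∈ S ∧ Good F h (insert v X) O p A x ∧
      Good F h (insert v X) O p A y := by
  classical
  by_contra hcon
  push Not at hcon
  set W : Finset V := S \ (insert v X ∪ Rv p) with hW
  set Bd : Finset V := W.filter fun x => ¬ Good F h (insert v X) O p A x with hBd
  have hBc : w ≤ Bd.card + 1 := by
    have h3 : (W.filter fun x => Good F h (insert v X) O p A x).card ≤ 1 := by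
      rw [Finset.card_le_one]
      intro x hx y hy
      rw [Finset.mem_filter, hW, Finset.mem_sdiff] at hx hy
      by_contra hxy
      exact hcon x y hxy hx.1.1 hy.1.1 hx.2 hy.2
    have h4 : W ⊆ (W.filter fun x => Good F h (insert v X) O p A x) ∪ Bd := by
      intro x hx
      rw [Finset.mem_union, Finset.mem_filter, hBd, Finset.mem_filter]
      tauto
    have h5 := Finset.card_le_card h4
    have h6 := Finset.card_union_le (W.filter fun x => Good F h (insert v X) O p A x) Bd
    omega
  have hBdS : ∀ x ∈ Bd, x ∈ S ∧ x ∉ insert v X ∧ x ∉ Rv p ∧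
      ¬ Good F h (insert v X) O p A x := by
    intro x hx
    rw [hBd, Finset.mem_filter, hW, Finset.mem_sdiff, Finset.mem_union, not_or] at hx
    exact ⟨hx.1.1, hx.1.2.1, hx.1.2.2, hx.2⟩
  have hbad : ∀ x ∈ Bd, ∃ H ∈ F, H ≠ A ∧ x ∈ H ∧ Disjoint H O ∧ NoPair p H ∧
      h ≤ (H ∩ Rv p).card + 1 := by
    intro x hx
    obtain ⟨h3, h4, h5, h6⟩ := hBdS x hx
    by_contra h7
    push Not at h7
    apply h6
    refine ⟨hSA h3, h4, Finset.disjoint_left.1 hAO (hSA h3), h5, ?_⟩
    intro H hH hne hxH hHO hHn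
    have := h7 H hH hne hxH hHO hHn
    omega
  choose! H hH using hbad
  have how := hI.owner
  choose! G hG using how
  have hB : Bad F n w h n (X \ Rv p) (Rv p) A Bd H G := by
    refine ⟨hP.hn, hAF, ?_, hBc, ?_, ?_, ?_, ?_, ?_, ?_, ?_, ?_, ?_, ?_⟩
    · exact fun x hx => hSA (hBdS x hx).1
    · exact fun x hx => (hBdS x hx).2.2.1
    · exact fun x hx => (hH x hx).1
    · exact fun x hx => (hH x hx).2.2.1
    · exact fun x hx => (hH x hx).2.1
    · exact fun x hx => (hH x hx).2.2.2.2.2
    · exact fun y hy => (hG y hy).1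
    · exact fun y hy => (hG y hy).2.1
    · intro y hy
      exact (Finset.card_le_card Finset.sdiff_subset).trans (hP.hn _ (hG y hy).1)
    · intro K hK
      rcases Finset.eq_empty_or_nonempty ((Rv p).filter fun y => G y = K) with h3 | ⟨x, hx⟩
      · rw [h3]
        simp
      · rw [Finset.mem_filter] at hx
        have h3 : (Rv p).filter (fun y => G y = K) ⊆ {x, p x} := by
          intro y hy
          rw [Finset.mem_filter] at hy
          rw [Finset.mem_insert, Finset.mem_singleton]
          have h4 := hG x hx.1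
          have h5 := hG y hy.1
          rw [hx.2] at h4
          rw [hy.2] at h5
          exact hI.uniq K hK x hx.1 y hy.1 h4.2.1 h4.2.2.1 h5.2.1 h5.2.2.1
        exact (Finset.card_le_card h3).trans Finset.card_le_two
    · intro x hx y hy he
      rw [Finset.mem_inter] at hy
      have h3 := hG y hy.2
      have h4 := (hH x hx).2.2.2.2.1 y hy.1 hy.2
      rw [← he] at h4
      exact h4 h3.2.2.1
  set bt : V → Bool := fun y => decide (y ∈ C (G y) ∧ (G y \ (X \ Rv p)).card ≤ τ) with hbt
  have hcold : ∀ y, bt y = true → y ∈ C (G y) ∧ (G y \ (X \ Rv p)).card ≤ τ := by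
    intro y hy
    simp only [hbt, decide_eq_true_eq] at hy
    exact hy
  have hhot : ∀ y ∈ Rv p, bt y = false → (y, G y) ∈ N ∧ (G y \ (X \ Rv p)).card ≤ w + h := by
    intro y hyR hy
    simp only [hbt, decide_eq_false_iff_not] at hy
    exact (hG y hyR).2.2.2.resolve_left hy
  obtain ⟨j, hj, hjP⟩ := exists_heavy (t := t) (lam := lam) (C := C) (q := q) (N := N) (X := X)
    (D := O ∪ Rv p) (E := (X ∪ O) \ Rv p) hP.sys hB s r m hP.hm hP.hcomb hP.h0 hP.h1 hP.hlam hP.hq
    (η := η) hP.hη0 (by
      intro y hy h3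
      exact (Finset.mem_sdiff.1 h3).2 hy) bt (fun y hyR hy => (hcold y hy).1)
    (fun y hyR hy => (hhot y hyR hy).1) (by
      intro y hyR
      rw [sdiff_dead hI.disj]
      have h0 := hP.h0
      have h1 := hP.h1
      rcases hb : bt y with _ | _
      · refine hP.hη2.trans ?_
        apply mul_le_mul_of_nonneg_left _ (hP.hlam false)
        exact pow_le_pow_of_le_one h0.le (by linarith) (hhot y hyR hb).2
      · refine hP.hη1.trans ?_
        apply mul_le_mul_of_nonneg_left _ (hP.hlam true)
        exact pow_le_pow_of_le_one h0.le (by linarith) (hcold y hb).2)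
  have h5 := hP.hbd j hj
  have h6 : 0 ≤ Pot t (starI F C) starW starY (starc ls ((1 / 2 + t) ^ τ)⁻¹) X (O ∪ Rv p)
      ((X ∪ O) \ Rv p) := Pot_nonneg hP.h0 hP.h1 (c2 hP)
  unfold PP at hPP
  linarith

/-- The first player cannot win. -/
lemma no_win2 (hP : Par2 F C n w h s r m q τ t lam η bd ls) {line : Finset V → Prop}
    (hline : ∀ l, line l → ∃ A ∈ F, A ⊆ l) :
    ∀ X O, WW.WeakWins line X O → ∀ p N, Inv2 F C w h τ X O p N →
      SafeT t lam F C q m r τ ls bd N X (O ∪ Rv p) ((X ∪ O) \ Rv p) → False := by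
  classical
  intro X O hwin
  induction hwin with
  | own X O v hX hO hl =>
    intro p N hI _
    obtain ⟨l, hl, hsub⟩ := hl
    obtain ⟨A, hA, hAl⟩ := hline l hl
    exact hI.not_own hP.hw hP.hτ hO hA (hAl.trans hsub)
  | move X O v hX hO hfree _ ih =>
    intro p N hI hS
    by_cases hv : v ∈ Rv p
    · -- a reserved point
      have hS' : SafeT t lam F C q m r τ ls bd N (insert v X) (O ∪ Rv p) ((X ∪ O) \ Rv p) :=
        hS.dead (Finset.mem_union_right _ hv)
      have hE : ((insert v X ∪ O) \ Rv p) = ((X ∪ O) \ Rv p) := by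
        ext z
        simp only [Finset.mem_sdiff, Finset.mem_union, Finset.mem_insert]
        constructor
        · rintro ⟨(rfl | h2) | h2, h3⟩
          · exact (h3 hv).elim
          · exact ⟨Or.inl h2, h3⟩
          · exact ⟨Or.inr h2, h3⟩
        · rintro ⟨h2 | h2, h3⟩
          · exact ⟨Or.inl (Or.inr h2), h3⟩
          · exact ⟨Or.inr h2, h3⟩
      have key : ∀ y, y ∉ insert v X → y ∉ O → (p v ∈ insert y O) → False := by
        intro y hyX hyO hpy
        apply ih y hyX hyO p N
        · have h1 : y ∉ X := fun h => hyX (Finset.mem_insert_of_mem h)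
          apply (hI.insert_O h1).insert_X hv _ hpy
          rw [Finset.mem_insert]
          rintro (rfl | h2)
          · exact hyX (Finset.mem_insert_self _ _)
          · exact hO h2
        · apply SafeT.mono hP hS'
          · exact Finset.union_subset_union (Finset.subset_insert y O) (Finset.Subset.refl _)
          · rw [← hE]
            apply Finset.sdiff_subset_sdiff _ (Finset.Subset.refl _)
            exact Finset.union_subset_union (Finset.Subset.refl _) (Finset.subset_insert y O)
      by_cases hpO : p v ∈ O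
      · obtain ⟨y, hy1, hy2⟩ := hfree
        exact key y hy1 hy2 (Finset.mem_insert_of_mem hpO)
      · apply key (p v) _ hpO (Finset.mem_insert_self _ _)
        rw [Finset.mem_insert]
        rintro (h1 | h1)
        · exact mem_Rv.1 hv h1
        · have h2 := hI.pair (p v) (hI.p_mem hv) h1
          rw [hI.invol] at h2
          exact hO h2
    · -- a point of the big board
      have hvD : v ∉ O ∪ Rv p := by
        rw [Finset.mem_union]
        tauto
      have hPP : PP t lam F C q m r τ ls N X (O ∪ Rv p) ((X ∪ O) \ Rv p) < bd := by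
        have h2 := hS v hX hvD
        have h3 := KK_nonneg (N := N) (X := X) (D := O ∪ Rv p) (E := (X ∪ O) \ Rv p) hP v
        linarith
      have hstep := PP_step hP hI hX hO hv hS
      set N' := newN F C w h τ X O p N v with hN'
      have hNN : N ⊆ N' := Set.subset_union_left
      set Ba : Finset V → Prop := fun A => D1 F C w h τ X O p v A ∨ D2 F w h X O p N v A with hBa
      have hBa1 : ∀ A, Ba A → A ∈ F ∧ v ∈ A ∧ NoPair p A ∧ Disjoint A O := by
        rintro A (hA | hA)
        · exact ⟨hA.1.1, hA.1.2.1, hA.1.2.2.2.1, hA.1.2.2.1⟩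
        · exact ⟨hA.1, hA.2.1, hA.2.2.2.1, hA.2.2.1⟩
      -- the number of free unreserved points
      have hcount : ∀ A S : Finset V, Ba A → S ⊆ A → w + h ≤ (S \ (insert v X \ Rv p)).card →
          w ≤ (S \ (insert v X ∪ Rv p)).card := by
        intro A S hA hSA hS2
        obtain ⟨hAF, -, hnp, hAO⟩ := hBa1 A hA
        have h3 := (hI.undecl A hAF hAO hnp).1
        have h4 : S \ (insert v X \ Rv p) ⊆ (S \ (insert v X ∪ Rv p)) ∪ (A ∩ Rv p) := by
          intro z hz
          rw [Finset.mem_sdiff, Finset.mem_sdiff] at hz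
          rw [Finset.mem_union, Finset.mem_sdiff, Finset.mem_union, Finset.mem_inter]
          by_cases h5 : z ∈ Rv p
          · exact Or.inr ⟨hSA hz.1, h5⟩
          · left
            refine ⟨hz.1, ?_⟩
            rintro (h6 | h6)
            · exact hz.2 ⟨h6, h5⟩
            · exact h5 h6
        have h5 := Finset.card_le_card h4
        have h6 := Finset.card_union_le (S \ (insert v X ∪ Rv p)) (A ∩ Rv p)
        omega
      have hg : ∀ A, Ba A → ∃ x y, x ≠ y ∧ Good F h (insert v X) O p A x ∧
          Good F h (insert v X) O p A y ∧ ∀ z, z = x ∨ z = y →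
          ((z ∈ C A ∧ (A \ (insert v X \ Rv p)).card ≤ τ) ∨
            ((z, A) ∈ N' ∧ (A \ (insert v X \ Rv p)).card ≤ w + h)) := by
        intro A hA
        obtain ⟨hAF, hvA, hnp, hAO⟩ := hBa1 A hA
        rcases hA with hA | hA
        · have h2 := hP.hC A hAF
          obtain ⟨x, y, hxy, hxS, hyS, hx, hy⟩ := two_good2 hP hI hO hPP hAF hAO h2
            (hcount A (C A) (Or.inl hA) h2 hA.2.1.le)
          refine ⟨x, y, hxy, hx, hy, ?_⟩
          rintro z (rfl | rfl)
          · exact Or.inl ⟨hxS, hA.2.2⟩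
          · exact Or.inl ⟨hyS, hA.2.2⟩
        · have h3 : w + h ≤ (A \ (insert v X \ Rv p)).card := by
            have h4 := card_sdiff_insert (X := X) A v (Rv p)
            have h5 := hA.2.2.2.2.1
            omega
          obtain ⟨x, y, hxy, hxS, hyS, hx, hy⟩ := two_good2 hP hI hO hPP hAF hAO
            (Finset.Subset.refl A) (hcount A A (Or.inr hA) (Finset.Subset.refl A) h3)
          refine ⟨x, y, hxy, hx, hy, ?_⟩
          have h6 : ∀ z, Good F h (insert v X) O p A z → (z, A) ∈ N' := by
            intro z hz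
            apply hNN
            exact hA.2.2.2.2.2.1 z hz.mem (fun h7 => hz.nX (Finset.mem_insert_of_mem h7)) hz.nR
          rintro z (rfl | rfl)
          · exact Or.inr ⟨h6 _ hx, hA.2.2.2.2.2.2⟩
          · exact Or.inr ⟨h6 _ hy, hA.2.2.2.2.2.2⟩
      have : Nonempty V := ⟨v⟩
      choose! a b hab ha hb htype using hg
      obtain ⟨p', hR, hnew, hI'⟩ := hI.reserve hP.sys hNN hO hv Ba
        (fun A hA => ⟨(hBa1 A hA).1, (hBa1 A hA).2.1, (hBa1 A hA).2.2.1⟩) a b ha hb hab
        htype (fun A hA hAO hnp hnd => hI.und_step hP.hC hP.hτ hA hAO hnp hnd)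
      -- the dead sets
      have hEv : insert v ((X ∪ O) \ Rv p) = ((insert v X ∪ O) \ Rv p') := by
        ext z
        simp only [Finset.mem_insert, Finset.mem_sdiff, Finset.mem_union]
        constructor
        · rintro (rfl | ⟨h2, h3⟩)
          · refine ⟨Or.inl (Or.inl rfl), fun h4 => ?_⟩
            exact (hnew z h4 hv).1 (Finset.mem_insert_self _ _)
          · refine ⟨?_, fun h4 => ?_⟩
            · rcases h2 with h2 | h2
              · exact Or.inl (Or.inr h2)
              · exact Or.inr h2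
            · have h5 := hnew z h4 h3
              rcases h2 with h2 | h2
              · exact h5.1 (Finset.mem_insert_of_mem h2)
              · exact h5.2 h2
        · rintro ⟨(rfl | h2) | h2, h3⟩
          · exact Or.inl rfl
          · exact Or.inr ⟨Or.inl h2, fun h4 => h3 (hR h4)⟩
          · exact Or.inr ⟨Or.inr h2, fun h4 => h3 (hR h4)⟩
      have hPP' : PP t lam F C q m r τ ls N' (insert v X) (O ∪ Rv p')
          ((insert v X ∪ O) \ Rv p') < bd := by
        rw [← hEv]
        refine lt_of_le_of_lt ?_ hstep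
        exact PP_mono hP (Finset.union_subset_union (Finset.Subset.refl _) hR)
          (Finset.Subset.refl _)
      by_cases hex : ∃ y, y ∉ insert v X ∧ y ∉ O ∪ Rv p'
      · -- the largest loss
        have hne : ((insert v X ∪ (O ∪ Rv p'))ᶜ : Finset V).Nonempty := by
          obtain ⟨y, hy1, hy2⟩ := hex
          refine ⟨y, ?_⟩
          rw [Finset.mem_compl, Finset.mem_union]
          tauto
        obtain ⟨y, hy, hmax⟩ := Finset.exists_max_image _
          (fun y => KK t lam F C q m r τ ls N' (insert v X) (O ∪ Rv p')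
            ((insert v X ∪ O) \ Rv p') y) hne
        rw [Finset.mem_compl, Finset.mem_union, not_or] at hy
        have hyO : y ∉ O := fun h1 => hy.2 (Finset.mem_union_left _ h1)
        have hyR : y ∉ Rv p' := fun h1 => hy.2 (Finset.mem_union_right _ h1)
        apply ih y hy.1 hyO p' N' (hI'.insert_O hy.1)
        have hE2 : ((insert v X ∪ insert y O) \ Rv p') = insert y ((insert v X ∪ O) \ Rv p') := by
          ext z
          simp only [Finset.mem_sdiff, Finset.mem_union, Finset.mem_insert]
          constructor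
          · rintro ⟨(h2 | h2) | h2 | h2, h3⟩
            · exact Or.inr ⟨Or.inl (Or.inl h2), h3⟩
            · exact Or.inr ⟨Or.inl (Or.inr h2), h3⟩
            · exact Or.inl h2
            · exact Or.inr ⟨Or.inr h2, h3⟩
          · rintro (rfl | ⟨(h2 | h2) | h2, h3⟩)
            · exact ⟨Or.inr (Or.inl rfl), hyR⟩
            · exact ⟨Or.inl (Or.inl h2), h3⟩
            · exact ⟨Or.inl (Or.inr h2), h3⟩
            · exact ⟨Or.inr (Or.inr h2), h3⟩
        rw [hE2, Finset.insert_union]
        apply safeT_reply hP hPP' hy.1 hy.2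
        intro z hz hzD
        apply hmax
        rw [Finset.mem_compl, Finset.mem_union]
        tauto
      · obtain ⟨y, hy1, hy2⟩ := hfree
        apply ih y hy1 hy2 p' N' (hI'.insert_O hy1)
        intro z hz hzD
        exfalso
        apply hex
        refine ⟨z, hz, fun h1 => hzD ?_⟩
        rw [Finset.insert_union]
        exact Finset.mem_insert_of_mem h1

/-- **The strategy.** -/
theorem strong_draw2 (hP : Par2 F C n w h s r m q τ t lam η bd ls) {line : Finset V → Prop}
    (hline : ∀ l, line l → ∃ A ∈ F, A ⊆ l)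
    (hbig : ∀ A ∈ F, τ < A.card ∧ w + h < (C A).card) {la : ℝ}
    (hla : ∀ x, ∑ G ∈ F with x ∈ C G, (1 / 2 + t) ^ G.card ≤ la)
    (hla1 : lam true * (((1 / 2 + t)⁻¹) ^ q * la) ≤ 1)
    (hla2 : ((1 / 2 + t) ^ τ)⁻¹ * ((1 / 2 + t)⁻¹ * la) ≤ 1 / 2)
    (hinit : 2 * (((YYs F m r).card : ℝ) * 2 ^ (m * r) + ls * (2 * Fintype.card V)) < bd) :
    ¬ WW.WeakWins line ∅ ∅ := by
  intro hwin
  have h0 := hP.h0
  have h1 := hP.h1
  have hR : Rv (id : V → V) = ∅ := by
    ext x
    simp [Rv]
  have e1 := conf_init (YY := YYs F m r) (F := F) (C := C) (q := q) h0 h1 hP.hlam (by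
    intro x
    refine le_trans ?_ hla1
    have h2 := hla x
    have h3 := hP.hlam true
    gcongr)
  have e2 := star_init (F := F) (C := C) hP.sys hP.hC h0 hP.hls.le
    (show 0 < (1 / 2 + t) ^ τ by positivity) hla hla2
  have hcardk : Fintype.card (Fin m × Fin r) = m * r := by simp
  rw [hcardk] at e1
  have hPP : PP t lam F C q m r τ ls ∅ ∅ ∅ ∅ ≤ ((YYs F m r).card : ℝ) * 2 ^ (m * r) +
      ls * (2 * Fintype.card V) := add_le_add e1 e2
  refine no_win2 hP hline ∅ ∅ hwin id ∅ ⟨?_, ?_, ?_, ?_, ?_, ?_⟩ ?_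
  · exact Finset.disjoint_empty_left _
  · exact fun x => rfl
  · intro x hx
    rw [hR] at hx
    simp at hx
  · intro x hx
    rw [hR] at hx
    simp at hx
  · intro G _ x hx
    rw [hR] at hx
    simp at hx
  · intro A hA _ _
    rw [hR]
    simp only [Finset.inter_empty, Finset.card_empty, Finset.sdiff_self, Finset.sdiff_empty]
    exact ⟨Nat.zero_le _, Or.inl (hbig A hA)⟩
  · rw [hR]
    intro v _ _
    simp only [Finset.empty_union, Finset.sdiff_empty]
    have h2 := KK_le_PP (N := ∅) (X := ∅) (D := ∅) (E := ∅) hP v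
    linarith

end WWX
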