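import Mathlib
import Pool.Agent.WWL.Params
import Pool.Agent.WWX.Draw

/-!
The family of the truncated lines, the cold points, and the numbers of sets through a point.
-/

set_option autoImplicit false

namespace WWX

open Finset WW WWL

variable {n d : ℕ}

/-- The number of the lines through a point `x` whose passive count at `x` is at most `P`. -/
lemma count_lines (hn : 1 ≤ n) {P : ℕ} (x : Fin d → Fin n)
    (T : Finset (Fin d → Fin n) → Finset (Fin d → Fin n)) (SS : Finset (Finset (Fin d → Fin n)))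
    (hS : ∀ S ∈ SS, ∃ (a : Fin d → Fin n) (s : Fin d → Fin 3) (t : Fin n), Fin.rev t ≠ t ∧
      x = pt Fin.rev a s t ∧ pc a s t ≤ P ∧ S = T (univ.image (pt Fin.rev a s))) :
    (SS.card : ℝ) ≤ n ^ P * (n * (1 + 1 / (n : ℝ)) ^ d) := by
  classical
  have hn' : (0 : ℝ) < n := by exact_mod_cast hn
  have hn1 : (1 : ℝ) ≤ n := by exact_mod_cast hn
  have hdat : ∀ S ∈ SS, ∃ z : Fin n × Finset (Fin d),
      (1 : ℝ) ≤ n ^ P * (1 / (n : ℝ)) ^ z.2.card ∧
      S = T (univ.image (pt Fin.rev x (dir x z.1 ((univ.filter fun i => x i = z.1 ∨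
        x i = Fin.rev z.1) \ z.2)))) := by
    intro S hSS
    obtain ⟨a, s, t, ht, hxt, hpc, hT⟩ := hS S hSS
    refine ⟨(t, univ.filter fun i => s i = 0 ∧ (a i = t ∨ a i = Fin.rev t)), ?_, ?_⟩
    · show (1 : ℝ) ≤ n ^ P * (1 / (n : ℝ)) ^ (pc a s t)
      have h1 : (n : ℝ) ^ (pc a s t) ≤ n ^ P := pow_le_pow_right₀ hn1 hpc
      calc (1 : ℝ) = n ^ (pc a s t) * (1 / (n : ℝ)) ^ (pc a s t) := by
            rw [← mul_pow, mul_one_div_cancel hn'.ne', one_pow]
        _ ≤ _ := by gcongr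
    · have h3 := line_eq (a := a) (s := s) ht
      rw [← hxt] at h3
      rw [hT, h3]
  have hne : Nonempty (Fin n × Finset (Fin d)) := ⟨(⟨0, hn⟩, ∅)⟩
  choose! z hz1 hz2 using hdat
  calc (SS.card : ℝ) = ∑ _S ∈ SS, (1 : ℝ) := by simp
    _ ≤ ∑ S ∈ SS, (n : ℝ) ^ P * (1 / (n : ℝ)) ^ (z S).2.card := Finset.sum_le_sum hz1
    _ = ∑ w ∈ SS.image z, (n : ℝ) ^ P * (1 / (n : ℝ)) ^ w.2.card := by
        rw [Finset.sum_image]
        intro G hG G' hG' he
        rw [hz2 G hG, hz2 G' hG', he]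
    _ ≤ ∑ w : Fin n × Finset (Fin d), (n : ℝ) ^ P * (1 / (n : ℝ)) ^ w.2.card := by
        apply Finset.sum_le_sum_of_subset_of_nonneg (Finset.subset_univ _)
        intro w _ _
        positivity
    _ = n ^ P * (n * (1 + 1 / (n : ℝ)) ^ d) := by
        rw [← Finset.mul_sum, Fintype.sum_prod_type]
        simp only [Finset.sum_const, Finset.card_univ, Fintype.card_fin, nsmul_eq_mul]
        have h5 := Fintype.sum_pow_mul_eq_add_pow (Fin d) (1 / (n : ℝ)) 1
        simp only [one_pow, mul_one, Fintype.card_fin] at h5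
        rw [h5, add_comm (1 / (n : ℝ)) 1]

/-- Few parameters have a large passive count. -/
lemma keep_ge (a : Fin d → Fin n) (s : Fin d → Fin 3) {P k : ℕ} (h : 2 * d < (k + 1) * (P + 1)) :
    n ≤ (keep P a s).card + 1 + k := by
  have h1 : (univ.filter fun t : Fin n => P < pc a s t).card ≤ k := by
    by_contra hcon
    rw [not_le] at hcon
    have h2 : (k + 1) * (P + 1) ≤ ∑ t, pc a s t := by
      calc (k + 1) * (P + 1) ≤ (univ.filter fun t : Fin n => P < pc a s t).card * (P + 1) :=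
            Nat.mul_le_mul_right _ hcon
        _ = ∑ _t ∈ univ.filter (fun t : Fin n => P < pc a s t), (P + 1) := by
            rw [Finset.sum_const, smul_eq_mul]
        _ ≤ ∑ t ∈ univ.filter (fun t : Fin n => P < pc a s t), pc a s t := by
            apply Finset.sum_le_sum
            intro t ht
            exact (Finset.mem_filter.1 ht).2
        _ ≤ _ := Finset.sum_le_sum_of_subset (Finset.subset_univ _)
    have h3 := sum_pc a s
    omega
  have h2 := card_mid n
  have h3 : (univ.filter fun t : Fin n => Fin.rev t ≠ t).card ≤ (keep P a s).card +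
      (univ.filter fun t : Fin n => P < pc a s t).card := by
    refine le_trans (Finset.card_le_card ?_) (Finset.card_union_le _ _)
    intro t ht
    rw [Finset.mem_filter] at ht
    rw [Finset.mem_union, keep, Finset.mem_filter, Finset.mem_filter]
    rcases Nat.lt_or_ge P (pc a s t) with h | h
    · exact Or.inr ⟨ht.1, h⟩
    · exact Or.inl ⟨ht.1, ht.2, h⟩
  omega

lemma tr_mono {P P' : ℕ} (h : P ≤ P') (a : Fin d → Fin n) (s : Fin d → Fin 3) :
    tr P a s ⊆ tr P' a s := by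
  intro x hx
  rw [mem_tr] at hx ⊢
  obtain ⟨t, h1, h2, h3⟩ := hx
  exact ⟨t, h1, h2.trans h, h3⟩

/-- The family of the truncated lines with their cold points. -/
structure LineFam (n d Pm Pc : ℕ) (F : Finset (Finset (Fin d → Fin n)))
    (C : Finset (Fin d → Fin n) → Finset (Fin d → Fin n))
    (T : Finset (Fin d → Fin n) → Finset (Fin d → Fin n)) : Prop where
  rep : ∀ S ∈ F, ∃ (a : Fin d → Fin n) (s : Fin d → Fin 3), (∃ i, s i ≠ 0) ∧
    S = T (univ.image (pt Fin.rev a s)) ∧ S = tr Pm a s ∧ C S = tr Pc a s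
  line : ∀ A, IsL Fin.rev A → T A ∈ F ∧ T A ⊆ A

lemma exists_lineFam (n d Pm Pc : ℕ) : ∃ F C T, LineFam n d Pm Pc F C T := by
  classical
  have h1 : ∀ A : Finset (Fin d → Fin n), IsL Fin.rev A → ∃ z : (Fin d → Fin n) × (Fin d → Fin 3),
      (∃ i, z.2 i ≠ 0) ∧ A = univ.image (pt Fin.rev z.1 z.2) := by
    rintro A ⟨a, s, hs, rfl⟩
    exact ⟨(a, s), hs, rfl⟩
  rcases isEmpty_or_nonempty ((Fin d → Fin n) × (Fin d → Fin 3)) with hE | hE
  · refine ⟨∅, fun _ => ∅, fun _ => ∅, ?_, ?_⟩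
    · intro S hS
      exact absurd hS (Finset.notMem_empty S)
    · intro A hA
      obtain ⟨z, -⟩ := h1 A hA
      exact hE.elim z
  · choose! z hz1 hz2 using h1
    set T : Finset (Fin d → Fin n) → Finset (Fin d → Fin n) :=
      fun A => tr Pm (z A).1 (z A).2 with hT
    set F : Finset (Finset (Fin d → Fin n)) := (univ.filter fun A => IsL Fin.rev A).image T with hF
    have h2 : ∀ S ∈ F, ∃ A, IsL Fin.rev A ∧ T A = S := by
      intro S hS
      rw [hF, Finset.mem_image] at hS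
      obtain ⟨A, hA, hAS⟩ := hS
      exact ⟨A, (Finset.mem_filter.1 hA).2, hAS⟩
    choose! Lf hL1 hL2 using h2
    refine ⟨F, fun S => tr Pc (z (Lf S)).1 (z (Lf S)).2, T, ?_, ?_⟩
    · intro S hS
      refine ⟨(z (Lf S)).1, (z (Lf S)).2, hz1 _ (hL1 S hS), ?_, ?_, rfl⟩
      · rw [← hz2 _ (hL1 S hS)]
        exact (hL2 S hS).symm
      · exact (hL2 S hS).symm
    · intro A hA
      refine ⟨?_, ?_⟩
      · rw [hF]
        exact Finset.mem_image_of_mem _ (Finset.mem_filter.2 ⟨Finset.mem_univ _, hA⟩)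
      · intro x hx
        rw [hT, mem_tr] at hx
        obtain ⟨t, -, -, hxt⟩ := hx
        rw [hz2 A hA, hxt]
        exact Finset.mem_image_of_mem _ (Finset.mem_univ _)

section

variable {Pm Pc : ℕ} {F : Finset (Finset (Fin d → Fin n))}
  {C T : Finset (Fin d → Fin n) → Finset (Fin d → Fin n)}

lemma LineFam.sys (hF : LineFam n d Pm Pc F C T) : Sys F := by
  apply sys_trunc (T := T)
  intro S hS
  obtain ⟨a, s, hs, h1, h2, -⟩ := hF.rep S hS
  refine ⟨univ.image (pt Fin.rev a s), ⟨⟨a, s, hs, rfl⟩, a, s, hs, rfl, ?_⟩, h1⟩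
  intro x hx
  rw [h2, mem_tr] at hx
  obtain ⟨t, ht, -, hxt⟩ := hx
  exact ⟨t, ht, hxt⟩

lemma LineFam.card_le (hF : LineFam n d Pm Pc F C T) : ∀ S ∈ F, S.card ≤ n := by
  intro S hS
  obtain ⟨a, s, hs, -, h2, -⟩ := hF.rep S hS
  rw [h2, card_tr hs]
  refine (Finset.card_le_univ _).trans ?_
  simp

lemma LineFam.cold_sub (hF : LineFam n d Pm Pc F C T) (hP : Pc ≤ Pm) : ∀ S ∈ F, C S ⊆ S := by
  intro S hS
  obtain ⟨a, s, hs, -, h2, h3⟩ := hF.rep S hS
  rw [h3]
  conv_rhs => rw [h2]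
  exact tr_mono hP a s

lemma LineFam.card_F (hF : LineFam n d Pm Pc F C T) : F.card ≤ (3 * n) ^ d := by
  apply card_lines (T := T)
  intro S hS
  obtain ⟨a, s, hs, h1, -⟩ := hF.rep S hS
  exact ⟨_, ⟨a, s, hs, rfl⟩, h1⟩

lemma LineFam.card_ge (hF : LineFam n d Pm Pc F C T) {k : ℕ}
    (h : 2 * d < (k + 1) * (Pm + 1)) : ∀ S ∈ F, n ≤ S.card + 1 + k := by
  intro S hS
  obtain ⟨a, s, hs, -, h2, -⟩ := hF.rep S hS
  rw [h2, card_tr hs]
  exact keep_ge a s h

lemma LineFam.cold_ge (hF : LineFam n d Pm Pc F C T) {k : ℕ}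
    (h : 2 * d < (k + 1) * (Pc + 1)) : ∀ S ∈ F, n ≤ (C S).card + 1 + k := by
  intro S hS
  obtain ⟨a, s, hs, -, -, h3⟩ := hF.rep S hS
  rw [h3, card_tr hs]
  exact keep_ge a s h

lemma LineFam.count (hF : LineFam n d Pm Pc F C T) (hn : 1 ≤ n) (x : Fin d → Fin n) :
    ((F.filter fun S => x ∈ S).card : ℝ) ≤ n ^ Pm * (n * (1 + 1 / (n : ℝ)) ^ d) := by
  apply count_lines hn x T
  intro S hS
  rw [Finset.mem_filter] at hS
  obtain ⟨a, s, -, h1, h2, -⟩ := hF.rep S hS.1
  have hx := hS.2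
  rw [h2, mem_tr] at hx
  obtain ⟨t, h3, h4, h5⟩ := hx
  exact ⟨a, s, t, h3, h5, h4, h1⟩

lemma LineFam.count_cold (hF : LineFam n d Pm Pc F C T) (hn : 1 ≤ n) (x : Fin d → Fin n) :
    ((F.filter fun S => x ∈ C S).card : ℝ) ≤ n ^ Pc * (n * (1 + 1 / (n : ℝ)) ^ d) := by
  apply count_lines hn x T
  intro S hS
  rw [Finset.mem_filter] at hS
  obtain ⟨a, s, -, h1, -, h2⟩ := hF.rep S hS.1
  have hx := hS.2
  rw [h2, mem_tr] at hx
  obtain ⟨t, h3, h4, h5⟩ := hx
  exact ⟨a, s, t, h3, h5, h4, h1⟩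

end

/-- The number of the families of points `y`. -/
lemma card_YYs {V : Type*} [DecidableEq V] [Fintype V] {F : Finset (Finset V)} {m r n : ℕ}
    (hn : ∀ K ∈ F, K.card ≤ n) {Lam : ℕ} (hLam : ∀ x, (F.filter fun S => x ∈ S).card ≤ Lam) :
    (YYs F m r).card ≤ F.card * (n * (Lam * n ^ r)) ^ m := by
  classical
  set Bl : Finset V → Finset (V × Finset V × (Fin r → V)) := fun A =>
    (A ×ˢ (F ×ˢ (univ : Finset (Fin r → V)))).filter fun z => z.1 ∈ z.2.1 ∧ ∀ i, z.2.2 i ∈ z.2.1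
    with hBl
  have h1 : ∀ A ∈ F, (Bl A).card ≤ n * (Lam * n ^ r) := by
    intro A hA
    have e1 : (Bl A).card = ∑ x ∈ A, ∑ H ∈ F.filter (fun H => x ∈ H), H.card ^ r := by
      rw [hBl]
      simp only
      rw [Finset.card_filter, Finset.sum_product]
      apply Finset.sum_congr rfl
      intro x _
      rw [Finset.sum_product, Finset.sum_filter]
      apply Finset.sum_congr rfl
      intro H _
      by_cases hx : x ∈ H
      · simp only [hx, true_and, if_true]
        rw [← Finset.card_filter]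
        have h2 : (univ.filter fun z : Fin r → V => ∀ i, z i ∈ H) =
            Fintype.piFinset fun _ : Fin r => H := by
          ext z
          simp [Fintype.mem_piFinset]
        rw [h2, Fintype.card_piFinset]
        simp
      · simp [hx]
    rw [e1]
    calc ∑ x ∈ A, ∑ H ∈ F.filter (fun H => x ∈ H), H.card ^ r
        ≤ ∑ x ∈ A, ∑ H ∈ F.filter (fun H => x ∈ H), n ^ r := by
          apply Finset.sum_le_sum
          intro x _
          apply Finset.sum_le_sum
          intro H hH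
          exact Nat.pow_le_pow_left (hn H (Finset.mem_filter.1 hH).1) r
      _ ≤ ∑ x ∈ A, Lam * n ^ r := by
          apply Finset.sum_le_sum
          intro x _
          rw [Finset.sum_const, smul_eq_mul]
          exact Nat.mul_le_mul_right _ (hLam x)
      _ = A.card * (Lam * n ^ r) := by rw [Finset.sum_const, smul_eq_mul]
      _ ≤ _ := Nat.mul_le_mul_right _ (hn A hA)
  have h2 : YYs F m r ⊆ F.biUnion fun A => (Fintype.piFinset fun _ : Fin m => Bl A).image
      fun f => fun k : Fin m × Fin r => (f k.1).2.2 k.2 := by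
    intro y hy
    rw [YYs, Finset.mem_filter] at hy
    obtain ⟨-, A, hA, x, H, hj⟩ := hy
    rw [Finset.mem_biUnion]
    refine ⟨A, hA, ?_⟩
    rw [Finset.mem_image]
    refine ⟨fun j => (x j, H j, fun i => y (j, i)), ?_, ?_⟩
    · rw [Fintype.mem_piFinset]
      intro j
      rw [hBl]
      simp only [Finset.mem_filter, Finset.mem_product, Finset.mem_univ, and_true]
      exact ⟨⟨(hj j).1, (hj j).2.1⟩, (hj j).2.2.1, (hj j).2.2.2⟩
    · rfl
  calc (YYs F m r).card ≤ _ := Finset.card_le_card h2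
    _ ≤ ∑ A ∈ F, ((Fintype.piFinset fun _ : Fin m => Bl A).image
      fun f => fun k : Fin m × Fin r => (f k.1).2.2 k.2).card := Finset.card_biUnion_le
    _ ≤ ∑ A ∈ F, (n * (Lam * n ^ r)) ^ m := by
        apply Finset.sum_le_sum
        intro A hA
        refine Finset.card_image_le.trans ?_
        rw [Fintype.card_piFinset, Finset.prod_const, Finset.card_univ, Fintype.card_fin]
        exact Nat.pow_le_pow_left (h1 A hA) m
    _ = _ := by rw [Finset.sum_const, smul_eq_mul]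

end WWX
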