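import Mathlib
import Pool.Agent.WWL.Asym
import Pool.Agent.WWX.Geo

/-!
The strong draw for all values of the parameters which satisfy certain inequalities.
-/

set_option autoImplicit false

namespace WWX

open Finset WW WWL

variable {n d : ℕ}

lemma two_half (k : ℕ) : (2 : ℝ) ^ k * (1 / 2) ^ k = 1 := by
  rw [← mul_pow]
  norm_num

lemma two_half_le {k j : ℕ} (hkj : k ≤ j) : (2 : ℝ) ^ k * (1 / 2) ^ j ≤ 1 := by
  calc (2 : ℝ) ^ k * (1 / 2) ^ j ≤ 2 ^ j * (1 / 2) ^ j := by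
        gcongr
        norm_num
    _ = 1 := two_half j

lemma two_half_ge {k j l : ℕ} (h : l + j ≤ k) : (2 : ℝ) ^ l ≤ 2 ^ k * (1 / 2) ^ j := by
  calc (2 : ℝ) ^ l = 2 ^ l * (2 ^ j * (1 / 2) ^ j) := by rw [two_half, mul_one]
    _ = 2 ^ (l + j) * (1 / 2) ^ j := by rw [pow_add]; ring
    _ ≤ 2 ^ k * (1 / 2) ^ j := by
        gcongr
        norm_num

theorem draw_of_params2 {L E κ e₁ e₂ τ₄ eη β m r q Pm Pc k₁ k₂ g : ℕ} (hn : 1 ≤ n)
    (hL : n ≤ 2 ^ L) (hE : (1 + 1 / (n : ℝ)) ^ d ≤ 2 ^ E) (hκ : 3 ≤ κ) (he₁ : 4 * n ≤ e₁ * 2 ^ κ)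
    (hPP : Pc ≤ Pm) (hk₁ : 2 * d < (k₁ + 1) * (Pm + 1)) (hk₂ : 2 * d < (k₂ + 1) * (Pc + 1))
    (hg : g + 1 + k₁ ≤ n) (hc : 4 * m + 1 + k₂ < n) (hm : 0 < m) (hq : 4 * (2 * m + r) ≤ q)
    (hcomb : 4 * (m * (r * n) * ((2 * m + 1) * (2 * m) + 2 * (m * (r * n)))) <
      (2 * m - m) * (2 * m - r) * ((2 * m + 1) * ((2 * m + 1) * (2 * m))))
    (hτ : m < τ₄) (hg2 : (κ + 1) * (4 * τ₄) + q + L * Pc + L + E + e₁ + 2 ≤ g)
    (h5 : eη + κ * (4 * m) ≤ τ₄) (h6 : 2 * β ≤ eη * (m * r))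
    (h7 : (L + 2) * d + m * (L + (L * Pm + L + E) + r * L) + m * r + 3 ≤ β)
    (h7' : L * d + 4 ≤ β) (h8 : 2 * (m * r) * n * β ≤ 2 ^ e₂) (h8' : e₂ + κ * (q + 1) ≤ τ₄) :
    ¬ WeakWins (IsLine n d) ∅ ∅ := by
  classical
  obtain ⟨F, C, T, hF⟩ := exists_lineFam n d Pm Pc
  set t : ℝ := (1 / 2) ^ κ with ht
  have h0 : 0 < t := by positivity
  have ht8 : t ≤ 1 / 8 := by
    calc t ≤ (1 / 2) ^ 3 := pow_le_pow_of_le_one (by norm_num) (by norm_num) hκ
      _ = 1 / 8 := by norm_num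
  have h1 : t < 1 / 2 := by linarith
  have htinv : t⁻¹ = 2 ^ κ := by
    rw [ht, one_div, inv_pow, inv_inv]
  set lam : Bool → ℝ := fun b => if b then 2 ^ ((κ + 1) * (4 * τ₄)) else 2 ^ τ₄ with hlam
  have hlamt : lam true = 2 ^ ((κ + 1) * (4 * τ₄)) := by simp [hlam]
  have hlamf : lam false = 2 ^ τ₄ := by simp [hlam]
  have hlam0 : ∀ b, 0 ≤ lam b := by
    intro b
    rcases b with _ | _
    · rw [hlamf]
      positivity
    · rw [hlamt]
      positivity
  have htpow : ∀ k, t ^ k = (1 / 2 : ℝ) ^ (κ * k) := by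
    intro k
    rw [ht, ← pow_mul]
  have hκ1 : 1 ≤ κ := by omega
  have hlogb : Real.logb 2 ((2 : ℝ) ^ β / 1) = β := by
    rw [div_one, Real.logb_pow]
    simp
  have hpar : Par2 F C n (2 * m) (2 * m) (2 * m) r m q (4 * τ₄) t lam (2 ^ eη) (2 ^ β) 1 := by
    refine ⟨hF.sys, hF.cold_sub hPP, hF.card_le, by omega, hm, hq, hcomb, by omega, h0, h1, hlam0,
      by positivity, ?_, ?_, ?_, one_pos, ?_⟩
    · rw [hlamt, htpow]
      apply two_half_ge
      have : κ * (4 * m) ≤ τ₄ := by omega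
      calc eη + κ * (4 * τ₄) ≤ 4 * τ₄ + κ * (4 * τ₄) := by omega
        _ = (κ + 1) * (4 * τ₄) := by ring
    · rw [hlamf, htpow]
      apply two_half_ge
      have : 2 * m + 2 * m = 4 * m := by ring
      rw [this]
      exact h5
    · intro j hj
      rw [← pow_mul]
      apply pow_le_pow_right₀ (by norm_num)
      have e1 : eη * (m * r) ≤ eη * (2 * j) := Nat.mul_le_mul_left _ hj
      have e2 : eη * (2 * j) = 2 * (eη * j) := by ring
      omega
    · rw [hlogb, hlamf, htinv]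
      have e1 : (1 / 2 + t) ^ (4 * τ₄) ≤ (1 / 2) ^ (2 * τ₄) := by
        have e2 : (1 / 2 + t) ^ 2 ≤ 1 / 2 := by nlinarith
        calc (1 / 2 + t) ^ (4 * τ₄) = ((1 / 2 + t) ^ 2) ^ (2 * τ₄) := by
              rw [← pow_mul]
              congr 1
              ring
          _ ≤ (1 / 2) ^ (2 * τ₄) := pow_le_pow_left₀ (by positivity) e2 _
      have e3 : ((2 * (m * r) * n * β : ℕ) : ℝ) ≤ 2 ^ e₂ := by exact_mod_cast h8
      push_cast at e3
      have hβ0 : (0 : ℝ) ≤ β := Nat.cast_nonneg β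
      have hn0 : (0 : ℝ) ≤ n := Nat.cast_nonneg n
      calc 4 * ((m * r : ℕ) : ℝ) * (2 ^ τ₄ * (2 ^ κ) ^ q * (n * ((1 / 2 + t) ^ (4 * τ₄) * β)))
          ≤ 4 * ((m * r : ℕ) : ℝ) * (2 ^ τ₄ * (2 ^ κ) ^ q * (n * ((1 / 2) ^ (2 * τ₄) * β))) := by
            gcongr
        _ = 2 * (2 * (m * r) * n * β) * (2 ^ (κ * q)) * ((2 ^ τ₄ * (1 / 2) ^ τ₄) *
              (1 / 2) ^ τ₄) := by
            rw [two_mul τ₄, pow_add (1 / 2 : ℝ) τ₄ τ₄, ← pow_mul]
            push_cast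
            ring
        _ = 2 * (2 * (m * r) * n * β) * (2 ^ (κ * q)) * (1 / 2) ^ τ₄ := by
            rw [two_half, one_mul]
        _ ≤ 2 * 2 ^ e₂ * (2 ^ (κ * q)) * (1 / 2) ^ τ₄ := by gcongr
        _ = 2 * ((2 ^ (e₂ + κ * (q + 1)) * (1 / 2) ^ τ₄) * (1 / 2) ^ κ) := by
            have e4 : (2 : ℝ) ^ (e₂ + κ * (q + 1)) = 2 ^ e₂ * 2 ^ (κ * q) * 2 ^ κ := by
              rw [mul_add, mul_one, pow_add, pow_add]
              ring
            rw [e4]
            have e5 := two_half κ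
            calc 2 * 2 ^ e₂ * (2 : ℝ) ^ (κ * q) * (1 / 2) ^ τ₄ =
                2 * 2 ^ e₂ * 2 ^ (κ * q) * (1 / 2) ^ τ₄ * (2 ^ κ * (1 / 2) ^ κ) := by
                  rw [e5, mul_one]
              _ = _ := by ring
        _ ≤ 2 * (1 * (1 / 2) ^ κ) := by
            gcongr
            exact two_half_le h8'
        _ = 2 * t := by rw [one_mul]
  have hnL : (n : ℝ) ≤ 2 ^ L := by exact_mod_cast hL
  have hn0 : (0 : ℝ) ≤ n := Nat.cast_nonneg n
  have hpos : 0 < 1 / 2 + t := by linarith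
  have hgn : g ≤ n := by omega
  -- the power of `1 / 2 + t`
  have hpowg : (1 / 2 + t) ^ g ≤ 2 ^ e₁ * (1 / 2) ^ g := by
    have e1 : (1 / 2 + t) ^ g = (1 + 2 * t) ^ g * (1 / 2) ^ g := by
      rw [← mul_pow]
      congr 1
      ring
    rw [e1]
    apply mul_le_mul_of_nonneg_right _ (by positivity)
    calc (1 + 2 * t) ^ g ≤ (Real.exp (2 * t)) ^ g := by
          apply pow_le_pow_left₀ (by positivity)
          have := Real.add_one_le_exp (2 * t)
          linarith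
      _ = Real.exp (2 * t * g) := by
          rw [← Real.exp_nat_mul]
          congr 1
          ring
      _ ≤ 2 ^ e₁ := by
          apply exp_le_two_pow
          have e2 : (4 * n : ℝ) ≤ e₁ * 2 ^ κ := by exact_mod_cast he₁
          have e3 : (g : ℝ) ≤ n := by exact_mod_cast hgn
          calc 2 * (2 * t * g) = (4 * g) * (1 / 2) ^ κ := by rw [ht]; ring
            _ ≤ (4 * n) * (1 / 2) ^ κ := by gcongr
            _ ≤ (e₁ * 2 ^ κ) * (1 / 2) ^ κ := by gcongr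
            _ = e₁ := by rw [mul_assoc, two_half, mul_one]
  have hinv : (1 / 2 + t)⁻¹ ≤ 2 := by
    rw [inv_le_comm₀ hpos (by norm_num)]
    linarith
  have hinv0 : 0 ≤ (1 / 2 + t)⁻¹ := by positivity
  have hcnt : ∀ P : ℕ, (n : ℝ) ^ P * (n * (1 + 1 / (n : ℝ)) ^ d) ≤ 2 ^ (L * P + L + E) := by
    intro P
    calc (n : ℝ) ^ P * (n * (1 + 1 / (n : ℝ)) ^ d) ≤ (2 ^ L) ^ P * (2 ^ L * 2 ^ E) := by
          gcongr
      _ = _ := by rw [← pow_mul, pow_add, pow_add]; ring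
  have hsizes := hF.card_ge hk₁
  have hcolds := hF.cold_ge hk₂
  set la : ℝ := 2 ^ (L * Pc + L + E) * (2 ^ e₁ * (1 / 2) ^ g) with hla
  have hla0 : 0 ≤ la := by positivity
  have hG : ∀ x, ∑ G ∈ F with x ∈ C G, (1 / 2 + t) ^ G.card ≤ la := by
    intro x
    calc ∑ G ∈ F with x ∈ C G, (1 / 2 + t) ^ G.card
        ≤ ∑ G ∈ F with x ∈ C G, (1 / 2 + t) ^ g := by
          apply Finset.sum_le_sum
          intro G hG
          apply pow_le_pow_of_le_one hpos.le (by linarith)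
          have := hsizes G (Finset.mem_filter.1 hG).1
          omega
      _ = (F.filter fun G => x ∈ C G).card * (1 / 2 + t) ^ g := by
          rw [Finset.sum_const, nsmul_eq_mul]
      _ ≤ la := by
          rw [hla]
          apply mul_le_mul ((hF.count_cold hn x).trans (hcnt Pc)) hpowg (by positivity)
            (by positivity)
  apply strong_draw2 hpar ?_ ?_ hG ?_ ?_ ?_
  · intro l hl
    have h9 := hF.line l (isL_of_isLine hn hl)
    exact ⟨T l, h9.1, h9.2⟩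
  · intro A hA
    have e1 := hsizes A hA
    have e2 := hcolds A hA
    have e3 : 4 * τ₄ ≤ (κ + 1) * (4 * τ₄) := Nat.le_mul_of_pos_left _ (Nat.succ_pos _)
    constructor
    · omega
    · omega
  · rw [hlamt, hla]
    calc (2 : ℝ) ^ ((κ + 1) * (4 * τ₄)) * ((1 / 2 + t)⁻¹ ^ q *
        (2 ^ (L * Pc + L + E) * (2 ^ e₁ * (1 / 2) ^ g)))
        ≤ 2 ^ ((κ + 1) * (4 * τ₄)) * (2 ^ q * (2 ^ (L * Pc + L + E) * (2 ^ e₁ * (1 / 2) ^ g))) := by
          gcongr
      _ = 2 ^ ((κ + 1) * (4 * τ₄) + q + (L * Pc + L + E) + e₁) * (1 / 2) ^ g := by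
          rw [pow_add _ _ e₁, pow_add _ _ (L * Pc + L + E), pow_add _ _ q]
          ring
      _ ≤ 1 := two_half_le (by omega)
  · rw [hla]
    have e1 : ((1 / 2 + t) ^ (4 * τ₄))⁻¹ ≤ 2 ^ (4 * τ₄) := by
      rw [← inv_pow]
      exact pow_le_pow_left₀ hinv0 hinv _
    have e3 : 4 * τ₄ ≤ (κ + 1) * (4 * τ₄) := Nat.le_mul_of_pos_left _ (Nat.succ_pos _)
    calc ((1 / 2 + t) ^ (4 * τ₄))⁻¹ * ((1 / 2 + t)⁻¹ * (2 ^ (L * Pc + L + E) *
        (2 ^ e₁ * (1 / 2) ^ g)))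
        ≤ 2 ^ (4 * τ₄) * (2 * (2 ^ (L * Pc + L + E) * (2 ^ e₁ * (1 / 2) ^ g))) := by gcongr
      _ = 2 ^ (4 * τ₄ + 2 + (L * Pc + L + E) + e₁) * (1 / 2) ^ g * (1 / 2) := by
          rw [pow_add _ _ e₁, pow_add _ _ (L * Pc + L + E), pow_add _ _ 2]
          ring
      _ ≤ 1 * (1 / 2) := by
          apply mul_le_mul_of_nonneg_right _ (by norm_num)
          exact two_half_le (by omega)
      _ = 1 / 2 := by norm_num
  · -- the beginning
    set Lam : ℕ := 2 ^ (L * Pm + L + E) with hLam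
    have hLamF : ∀ x, (F.filter fun S => x ∈ S).card ≤ Lam := by
      intro x
      have e1 := (hF.count hn x).trans (hcnt Pm)
      exact_mod_cast e1
    have hY := card_YYs (m := m) (r := r) hF.card_le hLamF
    have hFc : F.card ≤ 2 ^ ((L + 2) * d) := by
      refine hF.card_F.trans ?_
      rw [pow_mul]
      apply Nat.pow_le_pow_left
      rw [pow_add]
      omega
    have hY2 : (YYs F m r).card ≤
        2 ^ ((L + 2) * d + m * (L + (L * Pm + L + E) + r * L)) := by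
      refine hY.trans ?_
      calc F.card * (n * (Lam * n ^ r)) ^ m
          ≤ 2 ^ ((L + 2) * d) * (2 ^ L * (2 ^ (L * Pm + L + E) * (2 ^ L) ^ r)) ^ m := by
            gcongr
        _ = _ := by
            rw [← pow_mul, ← pow_add, ← pow_add, ← pow_mul, ← pow_add]
            congr 1
            ring
    have hV : Fintype.card (Fin d → Fin n) ≤ 2 ^ (L * d) := by
      rw [Fintype.card_fun, Fintype.card_fin, Fintype.card_fin, pow_mul]
      exact Nat.pow_le_pow_left hL d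
    have hfin : 2 * ((YYs F m r).card * 2 ^ (m * r) + 1 * (2 * Fintype.card (Fin d → Fin n))) <
        2 ^ β := by
      obtain ⟨b, rfl⟩ : ∃ b, β = b + 3 := ⟨β - 3, by omega⟩
      have f1 : (YYs F m r).card * 2 ^ (m * r) ≤ 2 ^ b := by
        calc (YYs F m r).card * 2 ^ (m * r) ≤
            2 ^ ((L + 2) * d + m * (L + (L * Pm + L + E) + r * L)) * 2 ^ (m * r) :=
              Nat.mul_le_mul_right _ hY2
          _ = 2 ^ ((L + 2) * d + m * (L + (L * Pm + L + E) + r * L) + m * r) := by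
              rw [← pow_add]
          _ ≤ 2 ^ b := Nat.pow_le_pow_right (by norm_num) (by omega)
      have f2 : 2 * Fintype.card (Fin d → Fin n) ≤ 2 ^ b := by
        calc 2 * Fintype.card (Fin d → Fin n) ≤ 2 * 2 ^ (L * d) := Nat.mul_le_mul_left 2 hV
          _ = 2 ^ (L * d + 1) := by rw [pow_succ]; ring
          _ ≤ 2 ^ b := Nat.pow_le_pow_right (by norm_num) (by omega)
      have f3 : 2 ^ (b + 3) = 8 * 2 ^ b := by rw [pow_add]; ring
      have f4 : 0 < 2 ^ b := by positivity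
      omega
    exact_mod_cast hfin

end WWX
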