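import Mathlib
import Pool.Agent.WWX.Params

/-!
The asymptotic form of the strong draw.
-/

set_option autoImplicit false

namespace WWX

open Finset WW WWL Filter

/-- The parameters, all in one lemma for real numbers: the dimension against the hot points. -/
lemma cond_k1 {ε n L d a b : ℝ} (hε : 0 < ε) (hn : 0 < n) (hL : 2 ≤ L)
    (hd : d * (L - 1) ≤ n ^ 2 / 2) (ha : ε / 4 * n < a) (hb : 8 / ε * n / L < b) :
    2 * d < a * b := by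
  have hL0 : 0 < L := by linarith
  have h1 : 0 < 8 / ε * n / L := by positivity
  have h2 : 0 < ε / 4 * n := by positivity
  have h3 : ε / 4 * n * (8 / ε * n / L) < a * b := by
    have e1 : ε / 4 * n * (8 / ε * n / L) < a * (8 / ε * n / L) := mul_lt_mul_of_pos_right ha h1
    have e2 : a * (8 / ε * n / L) < a * b := mul_lt_mul_of_pos_left hb (h2.trans ha)
    linarith
  have h4 : ε / 4 * n * (8 / ε * n / L) = 2 * n ^ 2 / L := by
    field_simp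
    ring
  have h5 : 2 * d ≤ 2 * n ^ 2 / L := by
    rw [le_div_iff₀ hL0]
    rcases le_total 0 d with h6 | h6
    · have h7 : d * L ≤ d * (2 * (L - 1)) := mul_le_mul_of_nonneg_left (by linarith) h6
      have h8 : d * (2 * (L - 1)) = 2 * (d * (L - 1)) := by ring
      linarith
    · have h7 : 2 * d * L ≤ 0 := by
        have := mul_nonpos_of_nonpos_of_nonneg h6 hL0.le
        linarith
      have h8 : 0 ≤ 2 * n ^ 2 := by positivity
      linarith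
  linarith

lemma cond_k2 {ε n L d a b : ℝ} (hε : 0 < ε) (hε4 : ε ≤ 1 / 4) (hn : 0 < n) (hL : 2 ≤ L)
    (hεL : 2 ≤ ε * L) (hd : d * (L - 1) ≤ (1 / 2 - ε) * n ^ 2) (ha : (1 - ε / 2) * n < a)
    (hb : (1 - ε) * n / L < b) : 2 * d < a * b := by
  have hL0 : 0 < L := by linarith
  have hL1 : 0 < L - 1 := by linarith
  have hp1 : 0 < 1 - ε := by linarith
  have hp2 : 0 < 1 - ε / 2 := by linarith
  have h1 : 0 < (1 - ε) * n / L := by positivity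
  have h2 : 0 < (1 - ε / 2) * n := by positivity
  have h3 : (1 - ε / 2) * n * ((1 - ε) * n / L) < a * b := by
    have e1 : (1 - ε / 2) * n * ((1 - ε) * n / L) < a * ((1 - ε) * n / L) :=
      mul_lt_mul_of_pos_right ha h1
    have e2 : a * ((1 - ε) * n / L) < a * b := mul_lt_mul_of_pos_left hb (h2.trans ha)
    linarith
  have h4 : (1 - ε / 2) * n * ((1 - ε) * n / L) = (1 - ε / 2) * (1 - ε) * n ^ 2 / L := by
    ring
  have h5 : 2 * d ≤ (1 - ε / 2) * (1 - ε) * n ^ 2 / L := by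
    rw [le_div_iff₀ hL0]
    have e1 : 2 * d * L * (L - 1) ≤ (1 - 2 * ε) * L * n ^ 2 := by
      have := mul_le_mul_of_nonneg_left hd (show 0 ≤ 2 * L by linarith)
      calc 2 * d * L * (L - 1) = 2 * L * (d * (L - 1)) := by ring
        _ ≤ 2 * L * ((1 / 2 - ε) * n ^ 2) := this
        _ = _ := by ring
    have e2 : (1 - 2 * ε) * L ≤ (1 - ε / 2) * (1 - ε) * (L - 1) := by
      have h6 : (1 - ε / 2) * (1 - ε) * (L - 1) - (1 - 2 * ε) * L =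
          ε * L / 2 + ε ^ 2 * (L - 1) / 2 + 3 * ε / 2 - 1 := by ring
      have h7 : 0 ≤ ε ^ 2 * (L - 1) := by positivity
      linarith
    have e3 : (1 - 2 * ε) * L * n ^ 2 ≤ (1 - ε / 2) * (1 - ε) * (L - 1) * n ^ 2 :=
      mul_le_mul_of_nonneg_right e2 (by positivity)
    have e4 : 2 * d * L * (L - 1) ≤ (1 - ε / 2) * (1 - ε) * n ^ 2 * (L - 1) := by
      calc 2 * d * L * (L - 1) ≤ (1 - 2 * ε) * L * n ^ 2 := e1
        _ ≤ (1 - ε / 2) * (1 - ε) * (L - 1) * n ^ 2 := e3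
        _ = _ := by ring
    exact le_of_mul_le_mul_right e4 hL1
  linarith

/-- The number of coordinates is small in comparison with `n ^ 2`. -/
lemma cond_d {n L d : ℝ} (hd0 : 0 ≤ d) (hL : 4 ≤ L) (hd : d * (L - 1) ≤ n ^ 2 / 2) :
    (L + 2) * d ≤ n ^ 2 := by
  have h1 : (L + 2) * d ≤ (2 * (L - 1)) * d := mul_le_mul_of_nonneg_right (by linarith) hd0
  have h2 : (2 * (L - 1)) * d = 2 * (d * (L - 1)) := by ring
  linarith

/-- The basic inequalities. -/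
structure Base (ε ρ n L C κ m : ℝ) : Prop where
  hε : 0 < ε
  hε4 : ε ≤ 1 / 4
  hρ0 : 0 < ρ
  hρε : 128 * ρ ≤ ε
  hC : 256 ≤ ρ * C
  hκ : 3 ≤ κ
  hn : 0 < n
  hm : 1 ≤ m
  hL : 400 ≤ L
  hLε : 100 ≤ ε * L
  hup : m * L ^ 2 ≤ n
  hlow : n ≤ 2 * m * L ^ 2
  hm1 : 32 * κ * m ≤ ρ * n
  hm2 : 96 * m ≤ ρ * n
  hX2 : 16 * κ * C * L ^ 2 + 28 * κ * L ^ 2 ≤ ρ * n
  hX3 : 48 * C * L ^ 2 + 84 * L ^ 2 ≤ ρ * n
  hLρ : 84 * L ≤ ρ * n
  hρnε : 128 * (ρ * n) ≤ ε * n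
  hεn : ε * n ≤ n / 4
  hCn : C * 8 * L ≤ n

lemma base {ε ρ n L C κ m : ℝ} (hε : 0 < ε) (hε4 : ε ≤ 1 / 4) (hκ : 3 ≤ κ)
    (hρ0 : 0 < ρ) (hρ : (κ + 1) * (4 * ρ) = ε / 8) (hC : 256 ≤ ρ * C) (hn : 0 < n)
    (hm : 1 ≤ m) (hup : m * L ^ 2 ≤ n) (hlow : n ≤ 2 * m * L ^ 2)
    (hL1 : 100 ≤ ε * L) (hL2 : 32 * κ ≤ ρ * L)
    (hn2 : 4 * κ * (4 * C + 7) * L ^ 3 ≤ ρ * n) : Base ε ρ n L C κ m := by
  have hρε : 128 * ρ ≤ ε := by
    have := mul_le_mul_of_nonneg_right hκ (show 0 ≤ 4 * ρ by linarith)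
    linarith
  have hC0 : 0 ≤ C := by
    by_contra h
    rw [not_le] at h
    have := mul_neg_of_pos_of_neg hρ0 h
    linarith
  have hL400 : 400 ≤ L := by
    have hL0 : 0 ≤ L := by
      by_contra h
      rw [not_le] at h
      have := mul_neg_of_pos_of_neg hε h
      linarith
    have := mul_le_mul_of_nonneg_right hε4 hL0
    linarith
  have hLL2 : L * 400 ≤ L ^ 2 := by
    have : L ^ 2 = L * L := by ring
    rw [this]
    exact mul_le_mul_of_nonneg_left hL400 (by linarith)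
  have hL23 : L ^ 2 ≤ L ^ 3 := pow_le_pow_right₀ (by linarith) (by norm_num)
  have hm1 : 32 * κ * m ≤ ρ * n := by
    have e1 : 32 * κ * m ≤ ρ * L * m := mul_le_mul_of_nonneg_right hL2 (by linarith)
    have e3 : L * m ≤ n := by
      have e4 : L * m ≤ L ^ 2 * m := mul_le_mul_of_nonneg_right (by linarith) (by linarith)
      linarith
    have e2 : ρ * L * m ≤ ρ * n := by
      calc ρ * L * m = ρ * (L * m) := by ring
        _ ≤ ρ * n := mul_le_mul_of_nonneg_left e3 hρ0.le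
    linarith
  have hm2 : 96 * m ≤ ρ * n := by
    have := mul_le_mul_of_nonneg_right hκ (show 0 ≤ 32 * m by linarith)
    linarith
  have hX2 : 16 * κ * C * L ^ 2 + 28 * κ * L ^ 2 ≤ ρ * n := by
    refine le_trans ?_ hn2
    have e1 : 16 * κ * C * L ^ 2 + 28 * κ * L ^ 2 = 4 * κ * (4 * C + 7) * L ^ 2 := by ring
    rw [e1]
    exact mul_le_mul_of_nonneg_left hL23 (by positivity)
  have hX3 : 48 * C * L ^ 2 + 84 * L ^ 2 ≤ ρ * n := by
    refine le_trans ?_ hX2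
    have e1 := mul_le_mul_of_nonneg_right hκ (show 0 ≤ 16 * C * L ^ 2 by positivity)
    have e2 := mul_le_mul_of_nonneg_right hκ (show 0 ≤ 28 * L ^ 2 by positivity)
    linarith
  have hCL0 : 0 ≤ C * L ^ 2 := by positivity
  have hLρ : 84 * L ≤ ρ * n := by linarith
  have hρnε : 128 * (ρ * n) ≤ ε * n := by
    have := mul_le_mul_of_nonneg_right hρε hn.le
    linarith
  have hεn : ε * n ≤ n / 4 := by
    have := mul_le_mul_of_nonneg_right hε4 hn.le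
    linarith
  have hCn : C * 8 * L ≤ n := by
    have h1 : ρ * n ≤ 1 * n := mul_le_mul_of_nonneg_right (by linarith) hn.le
    have h2 : C * 8 * L ≤ C * 8 * L ^ 2 := mul_le_mul_of_nonneg_left (by linarith) (by linarith)
    have h3 : 0 ≤ L ^ 2 := by positivity
    linarith
  exact ⟨hε, hε4, hρ0, hρε, hC, hκ, hn, hm, hL400, hL1, hup, hlow, hm1, hm2, hX2, hX3, hLρ, hρnε,
    hεn, hCn⟩

section

variable {ε ρ n L C κ m : ℝ}

lemma Base.hC0 (h : Base ε ρ n L C κ m) : 0 ≤ C := by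
  have h1 := h.hC
  by_contra h2
  rw [not_le] at h2
  have := mul_neg_of_pos_of_neg h.hρ0 h2
  linarith

lemma Base.hρn (h : Base ε ρ n L C κ m) : 33600 ≤ ρ * n := by
  have h1 := h.hLρ
  have h2 := h.hL
  linarith

lemma Base.mr_le (h : Base ε ρ n L C κ m) : m * (C * L ^ 2) ≤ C * n := by
  have h1 := mul_le_mul_of_nonneg_left h.hup h.hC0
  calc m * (C * L ^ 2) = C * (m * L ^ 2) := by ring
    _ ≤ C * n := h1

lemma Base.mr_ge (h : Base ε ρ n L C κ m) : C * n / 2 ≤ m * (C * L ^ 2) := by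
  have h1 := mul_le_mul_of_nonneg_left h.hlow h.hC0
  have h2 : C * (2 * m * L ^ 2) = 2 * (m * (C * L ^ 2)) := by ring
  linarith

lemma Base.C8 (h : Base ε ρ n L C κ m) : C * 8 ≤ n := by
  have h1 := h.hCn
  have h2 : C * 8 * 1 ≤ C * 8 * L := by
    have h3 := h.hC0
    have h4 := h.hL
    exact mul_le_mul_of_nonneg_left (by linarith) (by linarith)
  linarith

lemma Base.n_ge (h : Base ε ρ n L C κ m) : 33600 ≤ n := by
  have h1 := h.hρn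
  have h2 := h.hρnε
  have h3 := h.hεn
  linarith

lemma Base.sq_ge (h : Base ε ρ n L C κ m) : 33600 * n ≤ n ^ 2 := by
  have h1 := mul_le_mul_of_nonneg_right h.n_ge h.hn.le
  have h2 : n ^ 2 = n * n := by ring
  linarith

lemma Base.c_hc (h : Base ε ρ n L C κ m) {k₂ : ℝ} (hk : k₂ ≤ (1 - ε / 2) * n) :
    4 * m + 1 + k₂ < n := by
  have h1 := h.hm2
  have h2 := h.hρnε
  have h3 := h.hρn
  have h4 : (1 - ε / 2) * n = n - ε * n / 2 := by ring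
  linarith

lemma Base.c_hg2 (h : Base ε ρ n L C κ m) (hρ : (κ + 1) * (4 * ρ) = ε / 8) {τ₄ Pc E e₁ g k₁ : ℝ}
    (hτ : τ₄ ≤ ρ * n) (hPc : L * Pc ≤ (1 - ε) * n) (hE : E ≤ ε * n / 50 + 1)
    (he₁ : e₁ ≤ ε * n / 8 + 1) (hg : g + 1 + k₁ = n) (hk₁ : k₁ ≤ ε / 4 * n) :
    (κ + 1) * (4 * τ₄) + 4 * (2 * m + C * L ^ 2) + L * Pc + L + E + e₁ + 2 ≤ g := by
  have hκ := h.hκ
  have f1 : (κ + 1) * (4 * τ₄) ≤ ε / 8 * n := by
    calc (κ + 1) * (4 * τ₄) ≤ (κ + 1) * (4 * (ρ * n)) :=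
          mul_le_mul_of_nonneg_left (by linarith) (by linarith)
      _ = (κ + 1) * (4 * ρ) * n := by ring
      _ = ε / 8 * n := by rw [hρ]
  have f2 : (1 - ε) * n = n - ε * n := by ring
  have f4 := h.hLρ
  have f5 := h.hX3
  have f6 := h.hm2
  have f7 := h.hρn
  have f8 := h.hρnε
  have f9 := h.hC0
  have f10 : 0 ≤ C * L ^ 2 := by positivity
  have f11 : 0 ≤ L ^ 2 := by positivity
  have f12 := h.hL
  linarith

lemma Base.c_h5 (h : Base ε ρ n L C κ m) {τ₄ eη : ℝ} (hτ : ρ * n < τ₄ + 1) (he : 2 * eη ≤ τ₄) :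
    eη + κ * (4 * m) ≤ τ₄ := by
  have f1 : κ * (4 * m) ≤ ρ * n / 8 := by
    have : κ * (4 * m) = 32 * κ * m / 8 := by ring
    have := h.hm1
    linarith
  have f2 := h.hρn
  linarith

lemma Base.c_h6 (h : Base ε ρ n L C κ m) {τ₄ eη : ℝ} (hτ : ρ * n < τ₄ + 1)
    (he : τ₄ < 2 * eη + 2) : 2 * (4 * n ^ 2) ≤ eη * (m * (C * L ^ 2)) := by
  have f2 := h.hρn
  have f1 : ρ * n / 4 ≤ eη := by linarith
  have f3 := h.hC
  have f4 := h.mr_ge
  have f5 := h.hC0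
  have f6 := h.hn.le
  have f7 : 0 ≤ C * n / 2 := by positivity
  have f8 : 0 ≤ eη := by linarith
  have f9 : 0 ≤ n ^ 2 := by positivity
  calc 2 * (4 * n ^ 2) ≤ 256 * n ^ 2 / 8 := by linarith
    _ ≤ (ρ * C) * n ^ 2 / 8 := by gcongr
    _ = (ρ * n / 4) * (C * n / 2) := by ring
    _ ≤ eη * (m * (C * L ^ 2)) := by gcongr

lemma Base.c_h7 (h : Base ε ρ n L C κ m) {d Pm E : ℝ} (hd : (L + 2) * d ≤ n ^ 2)
    (hPm : L * Pm ≤ 8 / ε * n) (hE : E ≤ ε * n / 50 + 1) (hE0 : 0 ≤ E) :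
    (L + 2) * d + m * (L + (L * Pm + L + E) + C * L ^ 2 * L) + m * (C * L ^ 2) + 3 ≤
      4 * n ^ 2 := by
  have hε := h.hε
  have hn := h.hn
  have hm := h.hm
  have hL := h.hL
  have f0 := h.mr_le
  have hm2 := h.hm2
  have hρnε := h.hρnε
  have hεn := h.hεn
  have hLρ := h.hLρ
  have hsq := h.sq_ge
  have hC0 := h.hC0
  have f1 : m * (L * Pm) ≤ n ^ 2 / 8 := by
    have g1 : m * (L * Pm) ≤ m * (8 / ε * n) := mul_le_mul_of_nonneg_left hPm (by linarith)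
    have g2 : 64 * m ≤ ε * n := by linarith
    have g3 : m * (8 / ε * n) = (64 * m) * n / (8 * ε) := by
      field_simp
      ring
    have g4 : (64 * m) * n / (8 * ε) ≤ (ε * n) * n / (8 * ε) := by gcongr
    have g5 : (ε * n) * n / (8 * ε) = n ^ 2 / 8 := by
      field_simp
    linarith
  have f2 : m * (2 * L + E) ≤ n ^ 2 / 8 := by
    have g1 : m ≤ n / 8 := by linarith
    have g2 : 2 * L + E ≤ n := by linarith
    have g3 : 0 ≤ 2 * L + E := by linarith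
    calc m * (2 * L + E) ≤ n / 8 * n := by gcongr
      _ = _ := by ring
  have f3 : m * (C * L ^ 2 * L) ≤ n ^ 2 / 8 := by
    have g1 := h.hCn
    calc m * (C * L ^ 2 * L) = (m * (C * L ^ 2)) * L := by ring
      _ ≤ (C * n) * L := mul_le_mul_of_nonneg_right f0 (by linarith)
      _ = (C * 8 * L) * n / 8 := by ring
      _ ≤ n * n / 8 := by gcongr
      _ = _ := by ring
  have f4 : C * n ≤ n ^ 2 / 8 := by
    have := mul_le_mul_of_nonneg_right h.C8 hn.le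
    have g3 : n ^ 2 = n * n := by ring
    linarith
  have f6 : m * (L + (L * Pm + L + E) + C * L ^ 2 * L) =
      m * (L * Pm) + m * (2 * L + E) + m * (C * L ^ 2 * L) := by ring
  have f7 := h.n_ge
  rw [f6]
  linarith

lemma Base.c_h8 (h : Base ε ρ n L C κ m) :
    2 * (m * (C * L ^ 2)) * n * (4 * n ^ 2) ≤ n ^ 5 := by
  have f0 := h.mr_le
  have hn := h.hn.le
  have g1 := h.C8
  calc 2 * (m * (C * L ^ 2)) * n * (4 * n ^ 2)
      ≤ 2 * (C * n) * n * (4 * n ^ 2) := by gcongr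
    _ = (C * 8) * n ^ 4 := by ring
    _ ≤ n * n ^ 4 := by gcongr
    _ = n ^ 5 := by ring

lemma Base.c_h8' (h : Base ε ρ n L C κ m) {τ₄ : ℝ} (hτ : ρ * n < τ₄ + 1) :
    5 * L + κ * (4 * (2 * m + C * L ^ 2) + 1) ≤ τ₄ := by
  have hκ := h.hκ
  have hL := h.hL
  have f1 : κ * (8 * m) ≤ ρ * n / 4 := by
    have : κ * (8 * m) = 32 * κ * m / 4 := by ring
    have := h.hm1
    linarith
  have f2 : κ * (4 * (C * L ^ 2)) + κ ≤ ρ * n / 4 := by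
    have g1 : κ ≤ 7 * κ * L ^ 2 := by
      have g3 : 1 ≤ L ^ 2 := one_le_pow₀ (by linarith)
      have := mul_le_mul_of_nonneg_left g3 (show 0 ≤ 7 * κ by linarith)
      linarith
    have g3 : κ * (4 * (C * L ^ 2)) = 16 * κ * C * L ^ 2 / 4 := by ring
    have := h.hX2
    linarith
  have f3 := h.hLρ
  have f5 := h.hρn
  have f4 : κ * (4 * (2 * m + C * L ^ 2) + 1) =
      κ * (8 * m) + (κ * (4 * (C * L ^ 2)) + κ) := by ring
  rw [f4]
  linarith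

end

theorem draw_num2 {ε ρ : ℝ} (hε : 0 < ε) (hε4 : ε ≤ 1 / 4) {n d L C κ : ℕ} (hκ3 : 3 ≤ κ)
    (hκ : 32 / ε ≤ 2 ^ κ) (hρ0 : 0 < ρ) (hρ : (κ + 1) * (4 * ρ) = ε / 8) (hC : 256 / ρ ≤ C)
    (hLn : n ≤ 2 ^ L) (hL1 : 100 ≤ ε * L) (hL2 : 32 * κ ≤ ρ * L)
    (hn1 : 16 * C * (1 + 2 * C) * L ^ 10 < n)
    (hn2 : 4 * κ * (4 * C + 7) * (L : ℝ) ^ 3 ≤ ρ * n)
    (hd : (d : ℝ) * (L - 1 : ℝ) ≤ (1 / 2 - ε) * (n : ℝ) ^ 2) :
    ¬ WeakWins (IsLine n d) ∅ ∅ := by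
  have hκR : (3 : ℝ) ≤ κ := by exact_mod_cast hκ3
  have hC256 : 256 ≤ ρ * C := by
    rw [div_le_iff₀ hρ0] at hC
    linarith
  have hC1 : 1 ≤ C := by
    have h1 : (0 : ℝ) < C := lt_of_lt_of_le (by positivity) hC
    exact_mod_cast h1
  have hL2' : 2 ≤ L := by
    have h1 : ε * L ≤ 1 / 4 * L := mul_le_mul_of_nonneg_right hε4 (Nat.cast_nonneg L)
    have : (2 : ℝ) ≤ L := by linarith
    exact_mod_cast this
  obtain ⟨hcomb, hlow, hup, hrm⟩ := comb_cond hC1 hL2' rfl rfl hn1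
  have hn0 : 0 < n := lt_of_le_of_lt (Nat.zero_le _) hn1
  obtain ⟨m, hm⟩ : ∃ m, m = n / L ^ 2 := ⟨_, rfl⟩
  rw [← hm] at hcomb hlow hup hrm
  have hmpos : 0 < m := by
    rcases Nat.eq_zero_or_pos m with h | h
    · rw [h] at hlow
      omega
    · exact h
  clear hm
  have hB : Base ε ρ n L C κ m := by
    apply base hε hε4 hκR hρ0 hρ hC256 (by exact_mod_cast hn0) (by exact_mod_cast hmpos)
      (by exact_mod_cast hup) (by exact_mod_cast hlow) hL1 hL2 hn2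
  have hnR := hB.hn
  have hL400 := hB.hL
  have hdR : (0 : ℝ) ≤ d := Nat.cast_nonneg d
  have hd2 : (d : ℝ) * (L - 1 : ℝ) ≤ (n : ℝ) ^ 2 / 2 := by
    have : 0 ≤ ε * (n : ℝ) ^ 2 := by positivity
    have h2 : (1 / 2 - ε) * (n : ℝ) ^ 2 = (n : ℝ) ^ 2 / 2 - ε * (n : ℝ) ^ 2 := by ring
    linarith
  have hLm : (0 : ℝ) < L - 1 := by linarith
  -- floors
  obtain ⟨τ₄, hτ1, hτ2⟩ : ∃ τ₄ : ℕ, (τ₄ : ℝ) ≤ ρ * n ∧ ρ * n < τ₄ + 1 :=
    ⟨⌊ρ * n⌋₊, Nat.floor_le (by positivity), Nat.lt_floor_add_one _⟩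
  obtain ⟨eη, heη1, heη2⟩ : ∃ eη : ℕ, 2 * eη ≤ τ₄ ∧ τ₄ < 2 * eη + 2 :=
    ⟨τ₄ / 2, Nat.mul_div_le τ₄ 2, by omega⟩
  have heη1R : 2 * (eη : ℝ) ≤ τ₄ := by exact_mod_cast heη1
  have heη2R : (τ₄ : ℝ) < 2 * eη + 2 := by exact_mod_cast heη2
  obtain ⟨k₁, hk₁1, hk₁2⟩ : ∃ k₁ : ℕ, (k₁ : ℝ) ≤ ε / 4 * n ∧ ε / 4 * n < k₁ + 1 :=
    ⟨⌊ε / 4 * n⌋₊, Nat.floor_le (by positivity), Nat.lt_floor_add_one _⟩
  have hp2 : 0 < 1 - ε / 2 := by linarith
  have hp1 : 0 < 1 - ε := by linarith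
  obtain ⟨k₂, hk₂1, hk₂2⟩ : ∃ k₂ : ℕ, (k₂ : ℝ) ≤ (1 - ε / 2) * n ∧ (1 - ε / 2) * n < k₂ + 1 :=
    ⟨⌊(1 - ε / 2) * n⌋₊, Nat.floor_le (by positivity), Nat.lt_floor_add_one _⟩
  obtain ⟨Pm, hPmd, hPm1, hPm2⟩ : ∃ Pm : ℕ, Pm = ⌊8 / ε * n / L⌋₊ ∧ (Pm : ℝ) ≤ 8 / ε * n / L ∧
      8 / ε * n / L < Pm + 1 :=
    ⟨⌊8 / ε * n / L⌋₊, rfl, Nat.floor_le (by positivity), Nat.lt_floor_add_one _⟩
  obtain ⟨Pc, hPcd, hPc1, hPc2⟩ : ∃ Pc : ℕ, Pc = ⌊(1 - ε) * n / L⌋₊ ∧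
      (Pc : ℝ) ≤ (1 - ε) * n / L ∧ (1 - ε) * n / L < Pc + 1 :=
    ⟨⌊(1 - ε) * n / L⌋₊, rfl, Nat.floor_le (by positivity), Nat.lt_floor_add_one _⟩
  have hLPc : (L : ℝ) * Pc ≤ (1 - ε) * n := by
    rw [le_div_iff₀ (by linarith)] at hPc1
    linarith
  have hLPm : (L : ℝ) * Pm ≤ 8 / ε * n := by
    rw [le_div_iff₀ (by linarith)] at hPm1
    linarith
  have hPP : Pc ≤ Pm := by
    rw [hPmd, hPcd]
    apply Nat.floor_mono
    have e1 : (1 - ε) ≤ 8 / ε := by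
      rw [le_div_iff₀ hε]
      nlinarith
    gcongr
  -- `E`
  have hL1' : ((L - 1 : ℕ) : ℝ) = L - 1 := by
    rw [Nat.cast_sub (by omega)]
    simp
  obtain ⟨E, hE1, hE2⟩ : ∃ E : ℕ, (n : ℝ) / (L - 1) ≤ E ∧ (E : ℝ) ≤ n / (L - 1) + 1 := by
    refine ⟨⌈(n : ℝ) / (L - 1)⌉₊, Nat.le_ceil _, (Nat.ceil_lt_add_one (by positivity)).le⟩
  have hE3 : (n : ℝ) / (L - 1) ≤ ε * n / 50 := by
    rw [div_le_div_iff₀ hLm (by norm_num)]
    have e1 : 50 ≤ ε * (L - 1) := by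
      have : ε * (L - 1) = ε * L - ε := by ring
      linarith
    have := mul_le_mul_of_nonneg_left e1 hnR.le
    linarith
  have hE4 : (E : ℝ) ≤ ε * n / 50 + 1 := by linarith
  -- `e₁`
  obtain ⟨e₁, he₁1, he₁2⟩ : ∃ e₁ : ℕ, 4 * n ≤ e₁ * 2 ^ κ ∧ (e₁ : ℝ) ≤ ε * n / 8 + 1 := by
    refine ⟨4 * n / 2 ^ κ + 1, ?_, ?_⟩
    · have h := Nat.lt_div_mul_add (a := 4 * n) (b := 2 ^ κ) (by positivity)
      calc 4 * n ≤ 4 * n / 2 ^ κ * 2 ^ κ + 2 ^ κ := h.le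
        _ = (4 * n / 2 ^ κ + 1) * 2 ^ κ := by ring
    · push_cast
      have h1 : (((4 * n / 2 ^ κ : ℕ)) : ℝ) ≤ ((4 * n : ℕ) : ℝ) / ((2 ^ κ : ℕ) : ℝ) :=
        Nat.cast_div_le
      push_cast at h1
      have h2 : (4 * n : ℝ) / 2 ^ κ ≤ ε * n / 8 := by
        rw [div_le_div_iff₀ (by positivity) (by norm_num)]
        rw [div_le_iff₀ hε] at hκ
        have := mul_le_mul_of_nonneg_right hκ hnR.le
        linarith
      linarith
  -- `g`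
  have hk₁n : k₁ + 1 ≤ n := by
    have h1 := hB.hεn
    have h2 := hB.n_ge
    have : (k₁ : ℝ) + 1 ≤ n := by linarith
    exact_mod_cast this
  obtain ⟨g, hg⟩ : ∃ g, g + 1 + k₁ = n := ⟨n - 1 - k₁, by omega⟩
  have hgR : (g : ℝ) + 1 + k₁ = n := by exact_mod_cast hg
  have hdn := cond_d hdR (by linarith) hd2
  apply draw_of_params2 (L := L) (E := E) (κ := κ) (e₁ := e₁) (e₂ := 5 * L) (τ₄ := τ₄) (eη := eη)
    (β := 4 * n ^ 2) (m := m) (r := C * L ^ 2) (q := 4 * (2 * m + C * L ^ 2)) (Pm := Pm)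
    (Pc := Pc) (k₁ := k₁) (k₂ := k₂) (g := g) hn0 hLn ?_ hκ3 he₁1 hPP ?_ ?_ hg.le ?_ hmpos le_rfl
    hcomb ?_ ?_ ?_ ?_ ?_ ?_ ?_ ?_
  · -- `E`
    refine one_add_pow_le.trans (exp_le_two_pow (le_trans ?_ hE1))
    rw [← mul_div_assoc, div_le_div_iff₀ hnR hLm]
    have h1 : 2 * (d : ℝ) * (L - 1) = 2 * ((d : ℝ) * (L - 1)) := by ring
    have h2 : (n : ℝ) ^ 2 = n * n := by ring
    linarith
  · have h1 := cond_k1 hε hnR (by linarith) hd2 hk₁2 hPm2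
    exact_mod_cast h1
  · have h1 := cond_k2 hε hε4 hnR (by linarith) (by linarith) hd hk₂2 hPc2
    exact_mod_cast h1
  · have h1 := hB.c_hc hk₂1
    exact_mod_cast h1
  · have h1 : (m : ℝ) < τ₄ := by
      have h2 := hB.hm2
      have h3 := hB.hρn
      linarith
    exact_mod_cast h1
  · have h1 := hB.c_hg2 hρ hτ1 hLPc hE4 he₁2 hgR hk₁1
    exact_mod_cast h1
  · have h1 := hB.c_h5 hτ2 heη1R
    exact_mod_cast h1
  · have h1 := hB.c_h6 hτ2 heη2R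
    exact_mod_cast h1
  · have h1 := hB.c_h7 hdn hLPm hE4 (Nat.cast_nonneg E)
    exact_mod_cast h1
  · have h1 : (L : ℝ) * d + 4 ≤ 4 * (n : ℝ) ^ 2 := by
      have g1 := hB.sq_ge
      have g2 := hB.n_ge
      have g4 : (L + 2 : ℝ) * d = L * d + 2 * d := by ring
      linarith
    exact_mod_cast h1
  · have h1 := hB.c_h8
    have g2 : (n : ℝ) ≤ 2 ^ L := by exact_mod_cast hLn
    have h2 : (n : ℝ) ^ 5 ≤ 2 ^ (5 * L) := by
      calc (n : ℝ) ^ 5 ≤ (2 ^ L) ^ 5 := by gcongr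
        _ = _ := by rw [← pow_mul, mul_comm]
    have h3 := h1.trans h2
    exact_mod_cast h3
  · have h1 := hB.c_h8' hτ2
    exact_mod_cast h1

end WWX
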