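import Mathlib
import Pool.Agent.WWX.Asym
import Pool.Agent.WWL.Final
import Pool.Agent.WW.Threshold

/-!
The strong draw for all dimensions up to `(log 2 / 2 - ε) n² / log n`.
-/

set_option autoImplicit false

namespace WWX

open Finset WW Filter

/-- **The strong draw.** -/
theorem strong_draw_asym2 {ε : ℝ} (hε : 0 < ε) : ∀ᶠ n : ℕ in atTop, ∀ d : ℕ,
    (d : ℝ) ≤ (Real.log 2 / 2 - ε) * (n : ℝ) ^ 2 / Real.log n →
      ¬ WeakWins (IsLine n d) ∅ ∅ := by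
  set δ : ℝ := min ε (1 / 4) with hδd
  have hδ : 0 < δ := lt_min hε (by norm_num)
  have hδ4 : δ ≤ 1 / 4 := min_le_right ε (1 / 4)
  have hδε : δ ≤ ε := min_le_left ε (1 / 4)
  set κ : ℕ := max 3 ⌈32 / δ⌉₊ with hκd
  have hκ3 : 3 ≤ κ := le_max_left _ _
  have hκ : 32 / δ ≤ 2 ^ κ := by
    have h1 : 32 / δ ≤ (κ : ℝ) :=
      (Nat.le_ceil _).trans (by exact_mod_cast le_max_right 3 ⌈32 / δ⌉₊)
    have h2 : κ < 2 ^ κ := Nat.lt_two_pow_self
    have h3 : (κ : ℝ) ≤ 2 ^ κ := by exact_mod_cast h2.le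
    linarith
  set ρ : ℝ := δ / (32 * (κ + 1)) with hρd
  have hκpos : (0 : ℝ) < (κ : ℝ) + 1 := by positivity
  have hκpos' : (0 : ℝ) < (κ : ℝ) := by
    have : (3 : ℝ) ≤ κ := by exact_mod_cast hκ3
    linarith
  have hρ0 : 0 < ρ := by positivity
  have hρ : ((κ : ℝ) + 1) * (4 * ρ) = δ / 8 := by
    rw [hρd]
    field_simp
    ring
  set C : ℕ := ⌈256 / ρ⌉₊ with hC
  have hC1 : 256 / ρ ≤ C := Nat.le_ceil _
  have hCpos : (0 : ℝ) < C := lt_of_lt_of_le (by positivity) hC1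
  have hCpos' : 0 < C := by exact_mod_cast hCpos
  filter_upwards [WWL.eventually_log_ge ⌈100 / δ⌉₊, WWL.eventually_log_ge ⌈32 * κ / ρ⌉₊,
    WWL.eventually_pow_lt (((16 * C * (1 + 2 * C) : ℕ)) : ℝ) (by positivity) 10,
    WWL.eventually_pow_lt (4 * κ * (4 * C + 7) / ρ) (by positivity) 3,
    eventually_ge_atTop 2] with n h1 h1' h2 h3 h4 d hd
  set L : ℕ := Nat.log 2 n + 1 with hL
  have hn2 : (2 : ℝ) ≤ n := by exact_mod_cast h4
  have hlog : 0 < Real.log n := Real.log_pos (by linarith)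
  refine draw_num2 (ε := δ) (ρ := ρ) hδ hδ4 (n := n) (d := d) (L := L) (C := C) (κ := κ)
    hκ3 hκ hρ0 hρ hC1 ?_ ?_ ?_ ?_ ?_ ?_
  · exact (Nat.lt_pow_succ_log_self (by norm_num) n).le
  · have h5 : 100 / δ ≤ (L : ℝ) := (Nat.le_ceil _).trans (by exact_mod_cast h1)
    rw [div_le_iff₀ hδ] at h5
    linarith
  · have h5 : 32 * κ / ρ ≤ (L : ℝ) := (Nat.le_ceil _).trans (by exact_mod_cast h1')
    rw [div_le_iff₀ hρ0] at h5
    linarith
  · exact_mod_cast h2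
  · have h5 := h3.le
    rw [div_mul_eq_mul_div, div_le_iff₀ hρ0] at h5
    linarith
  · -- the dimension
    have h5 : 2 ^ (Nat.log 2 n) ≤ n := Nat.pow_log_le_self 2 (by omega)
    have h6 : ((2 : ℝ) ^ (Nat.log 2 n)) ≤ n := by exact_mod_cast h5
    have h7 := Real.log_le_log (by positivity) h6
    rw [Real.log_pow] at h7
    have hl2 : 0 < Real.log 2 := Real.log_pos (by norm_num)
    have hl1 : Real.log 2 < 1 := by
      have := Real.log_two_lt_d9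
      linarith
    rw [le_div_iff₀ hlog] at hd
    have hd0 : (0 : ℝ) ≤ d := Nat.cast_nonneg d
    have h8 : ((L : ℝ) - 1) = ((Nat.log 2 n : ℕ) : ℝ) := by
      rw [hL]
      push_cast
      ring
    rw [h8]
    have h9 : (d : ℝ) * (((Nat.log 2 n : ℕ) : ℝ) * Real.log 2) ≤
        (Real.log 2 / 2 - ε) * (n : ℝ) ^ 2 :=
      (mul_le_mul_of_nonneg_left h7 hd0).trans hd
    have h10 : (Real.log 2 / 2 - ε) * (n : ℝ) ^ 2 ≤
        Real.log 2 * ((1 / 2 - δ) * (n : ℝ) ^ 2) := by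
      have h11 : Real.log 2 / 2 - ε ≤ Real.log 2 * (1 / 2 - δ) := by nlinarith
      calc (Real.log 2 / 2 - ε) * (n : ℝ) ^ 2 ≤
          (Real.log 2 * (1 / 2 - δ)) * (n : ℝ) ^ 2 := by gcongr
        _ = _ := by ring
    have h12 : Real.log 2 * ((d : ℝ) * ((Nat.log 2 n : ℕ) : ℝ)) ≤
        Real.log 2 * ((1 / 2 - δ) * (n : ℝ) ^ 2) := by
      calc Real.log 2 * ((d : ℝ) * ((Nat.log 2 n : ℕ) : ℝ)) =
          (d : ℝ) * (((Nat.log 2 n : ℕ) : ℝ) * Real.log 2) := by ring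
        _ ≤ _ := h9.trans h10
    exact le_of_mul_le_mul_left h12 hl2

end WWX
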